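import Mathlib

/-!
Multiplication theorem for Bernoulli polynomials, in the form
`p * B_n(X) = ∑_k C(n,k) p^k B_k ∑_{a<p} (X+a)^(n-k)`.
-/

namespace Pool.Agent.Helper29

open Polynomial Finset

/-- A rational polynomial invariant under `X ↦ 1 + X` is constant. -/
lemma eq_C_of_comp_one_add {T : ℚ[X]} (h : T.comp (1 + X) = T) : T = C (T.eval 0) := by
  have key : ∀ k : ℕ, T.eval (k : ℚ) = T.eval 0 := by
    intro k
    induction k with
    | zero => simp
    | succ k ih =>
      have h2 := congrArg (Polynomial.eval (k : ℚ)) h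
      rw [Polynomial.eval_comp] at h2
      simp only [eval_add, eval_one, eval_X] at h2
      rw [← ih, ← h2]
      push_cast
      ring_nf
  apply Polynomial.eq_of_infinite_eval_eq
  apply Set.Infinite.mono (s := Set.range (fun k : ℕ => (k : ℚ)))
  · rintro x ⟨k, rfl⟩
    simp [key k]
  · exact Set.infinite_range_of_injective Nat.cast_injective

/-- the `a`-th summand -/
noncomputable def Mt (p n a : ℕ) : ℚ[X] :=
  C ((p : ℚ) ^ n) * (Polynomial.bernoulli n).comp (C ((p : ℚ)⁻¹) * (X + C (a : ℚ)))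

/-- `M p n = ∑_{a<p} p^n B_n((X+a)/p)`. -/
noncomputable def M (p n : ℕ) : ℚ[X] := ∑ a ∈ range p, Mt p n a

lemma Mt_comp (p n a : ℕ) : (Mt p n a).comp (1 + X) = Mt p n (a + 1) := by
  unfold Mt
  rw [mul_comp, C_comp, comp_assoc]
  congr 2
  simp only [mul_comp, C_comp, add_comp, X_comp]
  push_cast
  simp only [C_add, C_1]
  ring

lemma Mt_last {p : ℕ} (n : ℕ) (hp : 0 < p) :
    Mt p n p = Mt p n 0 + C (p : ℚ) * (n • X ^ (n - 1)) := by
  have hp' : (p : ℚ) ≠ 0 := by positivity
  unfold Mt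
  have h1 : C ((p : ℚ)⁻¹) * (X + C (p : ℚ)) = (1 + X : ℚ[X]).comp (C ((p : ℚ)⁻¹) * X) := by
    simp only [add_comp, one_comp, X_comp]
    rw [mul_add, ← C_mul, inv_mul_cancel₀ hp', C_1]
    ring
  rw [h1, ← comp_assoc, bernoulli_comp_one_add_X]
  simp only [add_comp, smul_comp, pow_comp, X_comp, Nat.cast_zero, C_0, add_zero, mul_add]
  congr 1
  cases n with
  | zero => simp
  | succ n =>
    simp only [Nat.add_sub_cancel]
    rw [mul_pow, ← C_pow]
    rw [mul_smul_comm, mul_smul_comm]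
    congr 1
    rw [← mul_assoc, ← C_mul]
    congr 2
    have h3 : (p : ℚ) ^ n * ((p : ℚ)⁻¹) ^ n = 1 := by
      rw [← mul_pow, mul_inv_cancel₀ hp', one_pow]
    rw [pow_succ]
    linear_combination (p : ℚ) * h3

lemma M_comp {p : ℕ} (n : ℕ) (hp : 0 < p) :
    (M p n).comp (1 + X) = M p n + C (p : ℚ) * (n • X ^ (n - 1)) := by
  unfold M
  rw [Polynomial.sum_comp]
  simp_rw [Mt_comp]
  have h := Finset.sum_range_succ' (Mt p n) p
  rw [Finset.sum_range_succ, Mt_last n hp] at h
  linear_combination -h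

lemma M_derivative {p : ℕ} (n : ℕ) (hp : 0 < p) :
    derivative (M p (n + 1)) = ((n : ℚ[X]) + 1) * M p n := by
  have hp' : (p : ℚ) ≠ 0 := by positivity
  unfold M Mt
  rw [derivative_sum, Finset.mul_sum]
  apply Finset.sum_congr rfl
  intro a _
  rw [derivative_C_mul, derivative_comp, derivative_bernoulli_add_one]
  simp only [derivative_mul, derivative_C, zero_mul, derivative_add, derivative_X, add_zero, mul_one,
    zero_add, mul_comp, add_comp, natCast_comp, one_comp]
  have : C ((p : ℚ) ^ (n + 1)) * C ((p : ℚ)⁻¹) = C ((p : ℚ) ^ n) := by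
    rw [← C_mul, pow_succ]
    congr 1
    field_simp
  rw [← this]
  ring

/-- Multiplication theorem. -/
lemma M_eq {p : ℕ} (n : ℕ) (hp : 0 < p) : M p n = C (p : ℚ) * Polynomial.bernoulli n := by
  have h1 : ∀ m, (M p m - C (p : ℚ) * Polynomial.bernoulli m).comp (1 + X)
      = M p m - C (p : ℚ) * Polynomial.bernoulli m := by
    intro m
    rw [sub_comp, M_comp m hp, mul_comp, C_comp, bernoulli_comp_one_add_X]
    ring
  have h2 := eq_C_of_comp_one_add (h1 (n + 1))
  have h3 := congrArg derivative h2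
  rw [derivative_sub, M_derivative n hp, derivative_C_mul, derivative_bernoulli_add_one,
    derivative_C] at h3
  have h4 : ((n : ℚ[X]) + 1) * (M p n - C (p : ℚ) * Polynomial.bernoulli n) = 0 := by
    linear_combination h3
  have h5 : ((n : ℚ[X]) + 1) ≠ 0 := by
    exact_mod_cast (Nat.cast_ne_zero (R := ℚ[X])).mpr (Nat.succ_ne_zero n)
  have := (mul_eq_zero.mp h4).resolve_left h5
  linear_combination this

/-- power-sum polynomial `∑_{a<p} (X+a)^m`. -/
noncomputable def S (R : Type*) [CommRing R] (p m : ℕ) : R[X] := ∑ a ∈ range p, (X + C (a : R)) ^ m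

lemma bernoulli_mul_eq {p : ℕ} (n : ℕ) (hp : 0 < p) :
    C (p : ℚ) * Polynomial.bernoulli n =
      ∑ k ∈ range (n + 1), C ((n.choose k : ℚ) * (p : ℚ) ^ k * _root_.bernoulli k) * S ℚ p (n - k) := by
  have hp' : (p : ℚ) ≠ 0 := by positivity
  rw [← M_eq n hp]
  unfold M Mt S
  simp_rw [Finset.mul_sum]
  rw [Finset.sum_comm]
  apply Finset.sum_congr rfl
  intro a _
  rw [Polynomial.bernoulli, Polynomial.sum_comp, Finset.mul_sum]
  apply Finset.sum_congr rfl
  intro k hk
  rw [mem_range] at hk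
  rw [← C_mul_X_pow_eq_monomial, mul_comp, C_comp, pow_comp, X_comp, mul_pow, ← C_pow]
  rw [← mul_assoc, ← mul_assoc, ← C_mul, ← C_mul]
  congr 2
  have : (p : ℚ) ^ n = (p : ℚ) ^ k * (p : ℚ) ^ (n - k) := by
    rw [← pow_add]; congr 1; omega
  rw [this, inv_pow]
  field_simp

end Pool.Agent.Helper29
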