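import Mathlib
import Pool.Agent.Helper29.BernMul

/-!
Integrality of the coefficients in the multiplication formula.
-/

namespace Pool.Agent.Helper29

open Polynomial Finset

/-- `q` is `p`-integral. -/
def PI (p : ℕ) (q : ℚ) : Prop := ∃ d z : ℤ, ¬ (p : ℤ) ∣ d ∧ (d : ℚ) * q = z

lemma PI.mul {p : ℕ} (hp : p.Prime) {a b : ℚ} (ha : PI p a) (hb : PI p b) : PI p (a * b) := by
  obtain ⟨d, z, hd, h⟩ := ha
  obtain ⟨d', z', hd', h'⟩ := hb
  refine ⟨d * d', z * z', ?_, ?_⟩
  · intro hdvd
    rcases (Nat.prime_iff_prime_int.mp hp).dvd_or_dvd hdvd with h1 | h1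
    · exact hd h1
    · exact hd' h1
  · push_cast
    rw [← h, ← h']
    ring

lemma PI.add {p : ℕ} (hp : p.Prime) {a b : ℚ} (ha : PI p a) (hb : PI p b) : PI p (a + b) := by
  obtain ⟨d, z, hd, h⟩ := ha
  obtain ⟨d', z', hd', h'⟩ := hb
  refine ⟨d * d', z * d' + z' * d, ?_, ?_⟩
  · intro hdvd
    rcases (Nat.prime_iff_prime_int.mp hp).dvd_or_dvd hdvd with h1 | h1
    · exact hd h1
    · exact hd' h1
  · push_cast
    rw [← h, ← h']
    ring

lemma PI.int {p : ℕ} (hp : p.Prime) (z : ℤ) : PI p z :=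
  ⟨1, z, by
    intro h
    have := Int.eq_one_of_dvd_one (by positivity) h
    have := hp.one_lt
    omega, by simp⟩

lemma PI.nat {p : ℕ} (hp : p.Prime) (z : ℕ) : PI p (z : ℚ) := by
  have := PI.int hp (z : ℤ)
  simpa using this

lemma PI.neg {p : ℕ} (hp : p.Prime) {a : ℚ} (ha : PI p a) : PI p (-a) := by
  have := PI.mul hp (PI.int hp (-1)) ha
  simpa using this

lemma PI.sum {p : ℕ} (hp : p.Prime) {ι : Type*} (s : Finset ι) (f : ι → ℚ)
    (h : ∀ i ∈ s, PI p (f i)) : PI p (∑ i ∈ s, f i) := by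
  classical
  induction s using Finset.induction_on with
  | empty => simpa using PI.int hp 0
  | insert a s ha ih =>
    rw [Finset.sum_insert ha]
    exact PI.add hp (h a (Finset.mem_insert_self _ _)) (ih fun i hi => h i (Finset.mem_insert_of_mem hi))

/-- `p^j / k` is `p`-integral if `k < p^(j+1)`. -/
lemma PI.pow_div {p : ℕ} (hp : p.Prime) {j k : ℕ} (hk : 0 < k) (h : k < p ^ (j + 1)) :
    PI p ((p : ℚ) ^ j / k) := by
  obtain ⟨v, k', hk', rfl⟩ := Nat.exists_eq_pow_mul_and_not_dvd hk.ne' p hp.ne_one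
  have hv : v ≤ j := by
    by_contra hcon
    push Not at hcon
    have h1 : p ^ (j + 1) ≤ p ^ v := Nat.pow_le_pow_right hp.pos hcon
    have h2 : 0 < k' := Nat.pos_of_ne_zero (by rintro rfl; simp at hk')
    nlinarith [Nat.le_mul_of_pos_right (p ^ v) h2]
  have hk0 : (k' : ℚ) ≠ 0 := by
    rintro h0
    have : k' = 0 := by exact_mod_cast h0
    subst this
    simp at hk
  have hp0 : (p : ℚ) ≠ 0 := by exact_mod_cast hp.ne_zero
  refine ⟨k', (p : ℤ) ^ (j - v), ?_, ?_⟩
  · intro h1
    exact hk' (by exact_mod_cast h1)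
  · push_cast
    have : (p : ℚ) ^ j = (p : ℚ) ^ v * (p : ℚ) ^ (j - v) := by
      rw [← pow_add]; congr 1; omega
    rw [this]
    field_simp

/-- `p B_k` is `p`-integral for even `k ≥ 2`. -/
lemma PI.bernoulli {p : ℕ} (hp : p.Prime) (k : ℕ) : PI p ((p : ℚ) * _root_.bernoulli (2 * k)) := by
  obtain ⟨z, hz⟩ := Bernoulli.vonStaudt_clausen k
  have h1 : (p : ℚ) * _root_.bernoulli (2 * k) = (p : ℚ) * z +
      -(∑ q ∈ range (2 * k + 2) with q.Prime ∧ (q - 1) ∣ 2 * k, (p : ℚ) * ((1 : ℚ) / q)) := by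
    rw [← Finset.mul_sum]
    linear_combination (-(p : ℚ)) * hz
  rw [h1]
  apply PI.add hp
  · exact PI.mul hp (PI.nat hp p) (PI.int hp z)
  · apply PI.neg hp
    apply PI.sum hp
    intro q hq
    rw [Finset.mem_filter] at hq
    have hq0 : (q : ℚ) ≠ 0 := by exact_mod_cast hq.2.1.ne_zero
    by_cases hqp : q = p
    · subst hqp
      have : (q : ℚ) * (1 / q) = ((1 : ℤ) : ℚ) := by field_simp; simp
      rw [this]
      exact PI.int hp 1
    · refine ⟨q, p, ?_, ?_⟩
      · intro h
        have : p ∣ q := by exact_mod_cast h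
        exact hqp ((Nat.prime_dvd_prime_iff_eq hp hq.2.1).mp this).symm
      · push_cast
        field_simp

/-- The coefficient estimate. -/
lemma PI.coeff {p : ℕ} (hp : p.Prime) {n' k : ℕ} (hk : 2 ≤ k) (hkn : k ≤ p * n') (heven : Even k)
    (hpow : k < p ^ (k - 1)) :
    ∃ q : ℚ, PI p q ∧
      ((p * n').choose k : ℚ) * (p : ℚ) ^ k * _root_.bernoulli k = (p : ℚ) ^ 2 * q := by
  obtain ⟨j, hj⟩ := heven
  refine ⟨(n' : ℚ) * (((p * n' - 1).choose (k - 1) : ℕ) : ℚ) * ((p : ℚ) ^ (k - 2) / k) *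
    ((p : ℚ) * _root_.bernoulli k), ?_, ?_⟩
  · apply PI.mul hp
    · apply PI.mul hp
      · exact PI.mul hp (PI.nat hp _) (PI.nat hp _)
      · apply PI.pow_div hp (by omega)
        have : k - 2 + 1 = k - 1 := by omega
        rw [this]
        exact hpow
    · have : k = 2 * j := by omega
      rw [this]
      exact PI.bernoulli hp j
  · have hk0 : (k : ℚ) ≠ 0 := by
      have : k ≠ 0 := by omega
      exact_mod_cast this
    have h1 : ((p * n').choose k : ℚ) * k = (p * n' : ℚ) * (((p * n' - 1).choose (k - 1) : ℕ) : ℚ) := by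
      have := Nat.add_one_mul_choose_eq (p * n' - 1) (k - 1)
      have e1 : p * n' - 1 + 1 = p * n' := by omega
      have e2 : k - 1 + 1 = k := by omega
      rw [e1, e2] at this
      exact_mod_cast this.symm
    have h2 : (p : ℚ) ^ k = (p : ℚ) ^ 2 * (p : ℚ) ^ (k - 2) := by
      rw [← pow_add]; congr 1; omega
    have h3 : ((p * n').choose k : ℚ) =
        (p * n' : ℚ) * (((p * n' - 1).choose (k - 1) : ℕ) : ℚ) / k := by
      rw [eq_div_iff hk0, h1]
    rw [h3, h2]
    field_simp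

/-- common denominators -/
lemma PI.common {p : ℕ} (hp : p.Prime) (s : Finset ℕ) (f : ℕ → ℚ) (h : ∀ i ∈ s, PI p (f i)) :
    ∃ D : ℤ, ¬ (p : ℤ) ∣ D ∧ ∃ z : ℕ → ℤ, ∀ i ∈ s, (D : ℚ) * f i = z i := by
  classical
  induction s using Finset.induction_on with
  | empty =>
    refine ⟨1, ?_, fun _ => 0, by simp⟩
    intro h
    have := Int.eq_one_of_dvd_one (by positivity) h
    have := hp.one_lt
    omega
  | insert a s ha ih =>
    obtain ⟨D, hD, z, hz⟩ := ih fun i hi => h i (Finset.mem_insert_of_mem hi)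
    obtain ⟨d, w, hd, hw⟩ := h a (Finset.mem_insert_self _ _)
    refine ⟨D * d, ?_, fun i => if i = a then D * w else d * z i, ?_⟩
    · intro hdvd
      rcases (Nat.prime_iff_prime_int.mp hp).dvd_or_dvd hdvd with h1 | h1
      · exact hD h1
      · exact hd h1
    · intro i hi
      by_cases hia : i = a
      · subst hia
        simp only [if_true]
        push_cast
        rw [← hw]
        ring
      · simp only [if_neg hia]
        have := hz i ((Finset.mem_insert.mp hi).resolve_left hia)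
        push_cast
        rw [← this]
        ring

lemma map_S (p m : ℕ) : (S ℤ p m).map (Int.castRingHom ℚ) = S ℚ p m := by
  unfold S
  simp [Polynomial.map_sum]

/-- `p = 3` -/
lemma three_formula {n' : ℕ} (hn : 0 < n') :
    ∃ (D : ℤ) (W : ℤ[X]), ¬ (3 : ℤ) ∣ D ∧
      C ((3 * D : ℤ) : ℚ) * Polynomial.bernoulli (3 * n') =
        (C D * S ℤ 3 (3 * n') + 9 * W).map (Int.castRingHom ℚ) := by
  have hp : Nat.Prime 3 := by norm_num
  have hmain : ∀ k ∈ Finset.Ico 1 (3 * n' + 1), ∃ q : ℚ, PI 3 q ∧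
      ((3 * n').choose k : ℚ) * (3 : ℚ) ^ k * _root_.bernoulli k = (3 : ℚ) ^ 2 * q := by
    intro k hk
    rw [Finset.mem_Ico] at hk
    rcases Nat.lt_or_ge k 2 with h1 | h1
    · have : k = 1 := by omega
      subst this
      refine ⟨-(n' : ℚ) / 2, ⟨2, -n', by norm_num, by push_cast; ring⟩, ?_⟩
      rw [Nat.choose_one_right, _root_.bernoulli_one]
      push_cast
      ring
    · rcases Nat.even_or_odd k with he | ho
      · have hlt : k < 3 ^ (k - 1) := by
          obtain ⟨j, rfl⟩ : ∃ j, k = j + 2 := ⟨k - 2, by omega⟩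
          have : ∀ j : ℕ, j + 2 < 3 ^ (j + 1) := by
            intro j
            induction j with
            | zero => norm_num
            | succ j ih => rw [pow_succ]; omega
          exact this j
        have := PI.coeff hp (n' := n') h1 (by omega) he hlt
        exact_mod_cast this
      · refine ⟨0, by simpa using PI.int hp 0, ?_⟩
        rw [bernoulli_eq_zero_of_odd ho (by omega)]
        simp
  choose! q hq hq2 using hmain
  obtain ⟨D, hD, z, hz⟩ := PI.common hp _ q hq
  refine ⟨D, ∑ k ∈ Finset.Ico 1 (3 * n' + 1), C (z k) * S ℤ 3 (3 * n' - k), hD, ?_⟩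
  have h0 := bernoulli_mul_eq (p := 3) (3 * n') (by norm_num)
  push_cast
  rw [C_mul, mul_comm (C (3 : ℚ)), mul_assoc]
  rw [show (C (3 : ℚ)) = C ((3 : ℕ) : ℚ) by norm_num, h0]
  rw [Finset.range_eq_Ico, Finset.sum_eq_sum_Ico_succ_bot (by omega)]
  simp only [Polynomial.map_add, Polynomial.map_mul, Polynomial.map_C, map_S, Polynomial.map_sum,
    Nat.choose_zero_right, pow_zero, _root_.bernoulli_zero, Nat.sub_zero]
  rw [mul_add]
  congr 1
  · simp
  · rw [Finset.mul_sum, Finset.mul_sum]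
    apply Finset.sum_congr (by simp)
    intro k hk
    have hk' : k ∈ Finset.Ico 1 (3 * n' + 1) := by simpa using hk
    have e1 := hq2 k hk'
    have e2 := hz k hk'
    have e3 : (9 : ℤ[X]).map (Int.castRingHom ℚ) = C (9 : ℚ) := by
      rw [Polynomial.map_ofNat]
      rfl
    have e4 : (D : ℚ) * (((3 * n').choose k : ℚ) * (3 : ℚ) ^ k * _root_.bernoulli k) = 9 * (z k : ℚ) := by
      rw [e1, ← e2]
      ring
    push_cast
    rw [e3, ← mul_assoc, ← C_mul, e4, ← mul_assoc, ← C_mul]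
    simp

/-- `p = 2` -/
lemma two_formula {n' : ℕ} (hn : 0 < n') :
    ∃ (D : ℤ) (W : ℤ[X]), ¬ (2 : ℤ) ∣ D ∧
      C ((2 * (3 * D) : ℤ) : ℚ) * Polynomial.bernoulli (2 * n') =
        (C (3 * D) * S ℤ 2 (2 * n') - C (3 * D * (2 * n')) * S ℤ 2 (2 * n' - 1)
          + C (D * (2 * n') * (2 * n' - 1)) * S ℤ 2 (2 * n' - 2)
          + 4 * W).map (Int.castRingHom ℚ) := by
  have hp : Nat.Prime 2 := by norm_num
  have hmain : ∀ k ∈ Finset.Ico 3 (2 * n' + 1), ∃ q : ℚ, PI 2 q ∧
      ((2 * n').choose k : ℚ) * (2 : ℚ) ^ k * _root_.bernoulli k = (2 : ℚ) ^ 2 * q := by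
    intro k hk
    rw [Finset.mem_Ico] at hk
    rcases Nat.even_or_odd k with he | ho
    · have hlt : k < 2 ^ (k - 1) := by
        have hk4 : 4 ≤ k := by
          rcases he with ⟨j, hj⟩
          omega
        obtain ⟨j, rfl⟩ : ∃ j, k = j + 4 := ⟨k - 4, by omega⟩
        have : ∀ j : ℕ, j + 4 < 2 ^ (j + 3) := by
          intro j
          induction j with
          | zero => norm_num
          | succ j ih => rw [show j + 1 + 3 = (j + 3) + 1 by ring, pow_succ]; omega
        exact this j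
      have := PI.coeff hp (n' := n') (by omega : 2 ≤ k) (by omega) he hlt
      exact_mod_cast this
    · refine ⟨0, by simpa using PI.int hp 0, ?_⟩
      rw [bernoulli_eq_zero_of_odd ho (by omega)]
      simp
  choose! q hq hq2 using hmain
  obtain ⟨D, hD, z, hz⟩ := PI.common hp _ q hq
  refine ⟨D, ∑ k ∈ Finset.Ico 3 (2 * n' + 1), C (3 * z k) * S ℤ 2 (2 * n' - k), hD, ?_⟩
  have h0 := bernoulli_mul_eq (p := 2) (2 * n') (by norm_num)
  push_cast
  rw [C_mul, mul_comm (C (2 : ℚ)), mul_assoc]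
  rw [show (C (2 : ℚ)) = C ((2 : ℕ) : ℚ) by norm_num, h0]
  rw [Finset.range_eq_Ico, Finset.sum_eq_sum_Ico_succ_bot (by omega),
    Finset.sum_eq_sum_Ico_succ_bot (by omega), Finset.sum_eq_sum_Ico_succ_bot (by omega)]
  simp only [Polynomial.map_add, Polynomial.map_sub, Polynomial.map_mul, Polynomial.map_C, map_S,
    Polynomial.map_sum,
    Nat.choose_zero_right, pow_zero, _root_.bernoulli_zero, Nat.sub_zero]
  have hch : ((2 * n').choose 2 : ℚ) = (2 * n' : ℚ) * (2 * n' - 1) / 2 := by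
    rw [Nat.cast_choose_two]
    push_cast
    ring
  have hB2 : _root_.bernoulli 2 = 1 / 6 := by
    rw [bernoulli_eq_bernoulli'_of_ne_one (by norm_num), bernoulli'_two]
  rw [mul_add, mul_add, mul_add, ← add_assoc, ← add_assoc]
  congr 1
  · rw [sub_eq_add_neg]
    congr 1
    · congr 1
      · simp
      · rw [show (0 + 1 : ℕ) = 1 from rfl, Nat.choose_one_right, _root_.bernoulli_one]
        rw [← mul_assoc, ← C_mul, ← neg_mul, ← C_neg]
        congr 2
        push_cast
        simp only [eq_intCast]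
        push_cast
        try ring
    · rw [show (0 + 1 + 1 : ℕ) = 2 from rfl, hch, hB2]
      rw [← mul_assoc, ← C_mul]
      congr 2
      simp only [eq_intCast]
      push_cast
      try ring
  · rw [Finset.mul_sum, Finset.mul_sum]
    apply Finset.sum_congr (by simp)
    intro k hk
    have hk' : k ∈ Finset.Ico 3 (2 * n' + 1) := by simpa using hk
    have e1 := hq2 k hk'
    have e2 := hz k hk'
    have e3 : (4 : ℤ[X]).map (Int.castRingHom ℚ) = C (4 : ℚ) := by
      rw [Polynomial.map_ofNat]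
      rfl
    have e4 : (3 * D : ℚ) * (((2 * n').choose k : ℚ) * (2 : ℚ) ^ k * _root_.bernoulli k)
        = 4 * (3 * (z k : ℚ)) := by
      rw [e1, ← e2]
      ring
    push_cast
    rw [e3, ← mul_assoc, ← C_mul, e4]
    simp only [eq_intCast, C_mul]
    push_cast
    simp only [C_mul]
    ring

end Pool.Agent.Helper29
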