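import Mathlib

namespace Pool.Agent.Helper29

open Polynomial UniqueFactorizationMonoid

lemma dvd_natDegree_of_mul_eq {K : Type*} [Field K] {F H ψ : K[X]} {u : K} {q : ℕ}
    (hF : F ≠ 0) (hH : H ≠ 0) (hu : u ≠ 0) (hprod : F * H = C u * ψ ^ q)
    (hsp : ∀ π : K[X], Irreducible π → π ∣ F → π ∣ H → q ∣ π.natDegree) :
    q ∣ F.natDegree := by
  classical
  have hassoc : Associated (normalizedFactors F).prod F := prod_normalizedFactors hF
  have hdeg : F.natDegree = ((normalizedFactors F).map natDegree).sum := by
    rw [← Polynomial.natDegree_multiset_prod _ (zero_notMem_normalizedFactors F)]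
    exact (Polynomial.natDegree_eq_of_degree_eq (Polynomial.degree_eq_degree_of_associated hassoc)).symm
  rw [hdeg, Finset.sum_multiset_map_count]
  apply Finset.dvd_sum
  intro π hπ
  rw [Multiset.mem_toFinset] at hπ
  have hirr := irreducible_of_normalized_factor π hπ
  have hdF := dvd_of_mem_normalizedFactors hπ
  by_cases hdH : π ∣ H
  · exact Dvd.dvd.mul_left (hsp π hirr hdF hdH) _
  · apply Dvd.dvd.mul_right
    have hψ : ψ ^ q ≠ 0 := by
      intro h0
      rw [h0, mul_zero] at hprod
      exact (mul_ne_zero hF hH) hprod
    have h1 : normalizedFactors (F * H) = normalizedFactors F + normalizedFactors H :=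
      normalizedFactors_mul hF hH
    have h2 : normalizedFactors (F * H) = q • normalizedFactors ψ := by
      rw [hprod, normalizedFactors_mul (by simpa using hu) hψ, normalizedFactors_pow]
      have : normalizedFactors (C u : K[X]) = 0 := by
        apply normalizedFactors_of_isUnit
        exact isUnit_C.mpr (isUnit_iff_ne_zero.mpr hu)
      rw [this, zero_add]
    have h3 : Multiset.count π (normalizedFactors H) = 0 := by
      rw [Multiset.count_eq_zero]
      intro hmem
      exact hdH (dvd_of_mem_normalizedFactors hmem)
    have h4 := congrArg (Multiset.count π) (h1.symm.trans h2)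
    rw [Multiset.count_add, h3, add_zero, Multiset.count_nsmul] at h4
    exact ⟨_, h4⟩

end Pool.Agent.Helper29
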