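import Mathlib
import Pool.Agent.Helper29.BernMul
import Pool.Agent.Helper29.BernUFD

namespace Pool.Agent.Helper29

open Polynomial

/-- reduction mod p -/
noncomputable abbrev red (p : ℕ) : ℤ[X] →+* (ZMod p)[X] := mapRingHom (Int.castRingHom (ZMod p))

lemma red_eq_zero_iff {p : ℕ} (F : ℤ[X]) : red p F = 0 ↔ C (p : ℤ) ∣ F := by
  rw [C_dvd_iff_dvd_coeff]
  constructor
  · intro h n
    have := congrArg (fun G => G.coeff n) h
    simp only [coe_mapRingHom, coeff_map, coeff_zero, eq_intCast] at this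
    exact (ZMod.intCast_zmod_eq_zero_iff_dvd _ _).mp this
  · intro h
    ext n
    simp only [coe_mapRingHom, coeff_map, coeff_zero, eq_intCast]
    exact (ZMod.intCast_zmod_eq_zero_iff_dvd _ _).mpr (h n)

lemma red_surj (p : ℕ) : Function.Surjective (red p) := by
  exact Polynomial.map_surjective _ (ZMod.ringHom_surjective _)

lemma exists_lift {p : ℕ} {F P : ℤ[X]} (h : red p P ∣ red p F) :
    ∃ a b : ℤ[X], F = P * b + C (p : ℤ) * a := by
  obtain ⟨g, hg⟩ := h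
  obtain ⟨b, rfl⟩ := red_surj p g
  have : red p (F - P * b) = 0 := by rw [map_sub, map_mul, hg, sub_self]
  rw [red_eq_zero_iff] at this
  obtain ⟨a, ha⟩ := this
  exact ⟨a, b, by linear_combination ha⟩

lemma red_S (p m : ℕ) : red p (S ℤ p m) = S (ZMod p) p m := by
  unfold S
  simp

/-- `C p ∣ P^2 * A → C p ∣ A` if `P` is nonzero mod `p`. -/
lemma dvd_of_dvd_sq_mul {p : ℕ} [hp : Fact p.Prime] {P A : ℤ[X]} (hP : red p P ≠ 0)
    (h : C (p : ℤ) ∣ P ^ 2 * A) : C (p : ℤ) ∣ A := by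
  rw [← red_eq_zero_iff] at h ⊢
  rw [map_mul, map_pow] at h
  rcases mul_eq_zero.mp h with h1 | h1
  · exact absurd (pow_eq_zero_iff (two_ne_zero) |>.mp h1) hP
  · exact h1

lemma sum_three_ne_zero (a : ZMod 3) {m : ℕ} (hm : Even m) (hm0 : m ≠ 0) :
    (a + 0) ^ m + (a + 1) ^ m + (a + 2) ^ m ≠ 0 := by
  obtain ⟨j, hj⟩ := hm
  have hj0 : j ≠ 0 := by omega
  have hm2 : m = 2 * j := by omega
  subst hm2
  simp only [pow_mul]
  fin_cases a
  · have h1 : ((0 : ZMod 3) + 0) ^ 2 = 0 := by decide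
    have h2 : ((0 : ZMod 3) + 1) ^ 2 = 1 := by decide
    have h3 : ((0 : ZMod 3) + 2) ^ 2 = 1 := by decide
    change (((0 : ZMod 3) + 0) ^ 2) ^ j + (((0 : ZMod 3) + 1) ^ 2) ^ j + (((0 : ZMod 3) + 2) ^ 2) ^ j ≠ 0
    rw [h1, h2, h3, zero_pow hj0]
    simp only [one_pow]
    decide
  · have h1 : ((1 : ZMod 3) + 0) ^ 2 = 1 := by decide
    have h2 : ((1 : ZMod 3) + 1) ^ 2 = 1 := by decide
    have h3 : ((1 : ZMod 3) + 2) ^ 2 = 0 := by decide
    change (((1 : ZMod 3) + 0) ^ 2) ^ j + (((1 : ZMod 3) + 1) ^ 2) ^ j + (((1 : ZMod 3) + 2) ^ 2) ^ j ≠ 0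
    rw [h1, h2, h3, zero_pow hj0]
    simp only [one_pow]
    decide
  · have h1 : ((2 : ZMod 3) + 0) ^ 2 = 1 := by decide
    have h2 : ((2 : ZMod 3) + 1) ^ 2 = 0 := by decide
    have h3 : ((2 : ZMod 3) + 2) ^ 2 = 1 := by decide
    change (((2 : ZMod 3) + 0) ^ 2) ^ j + (((2 : ZMod 3) + 1) ^ 2) ^ j + (((2 : ZMod 3) + 2) ^ 2) ^ j ≠ 0
    rw [h1, h2, h3, zero_pow hj0]
    simp only [one_pow]
    decide

lemma not_both_three {n' : ℕ} (hn : Even n') (hn0 : n' ≠ 0) {F H W : ℤ[X]} {D : ℤ}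
    (hD : ¬ (3 : ℤ) ∣ D) (hFH : F * H = C D * S ℤ 3 (3 * n') + 9 * W)
    {π : (ZMod 3)[X]} (hπ : Irreducible π) (h1 : π ∣ red 3 F) (h2 : π ∣ red 3 H) : False := by
  have : Fact (Nat.Prime 3) := ⟨by norm_num⟩
  have : CharP (ZMod 3)[X] 3 := inferInstance
  obtain ⟨P, rfl⟩ := red_surj 3 π
  have hprime := hπ.prime
  have hDne : red 3 (C D) ≠ 0 := by
    intro h0
    rw [red_eq_zero_iff] at h0
    exact hD (by simpa using (C_dvd_iff_dvd_coeff _ _).mp h0 0)
  have hDunit : IsUnit (red 3 (C D)) := by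
    have e0 : red 3 (C D) = C ((D : ℤ) : ZMod 3) := by
      rw [coe_mapRingHom, map_C, eq_intCast]
    rw [e0] at hDne ⊢
    exact isUnit_C.mpr (isUnit_iff_ne_zero.mpr (C_ne_zero.mp hDne))
  -- P divides the power sum
  have hS : red 3 P ∣ red 3 (S ℤ 3 n') := by
    have e1 : red 3 (F * H) = red 3 (C D) * (red 3 (S ℤ 3 n')) ^ 3 := by
      rw [hFH, map_add, map_mul, map_mul]
      have h9 : red 3 (9 : ℤ[X]) = 0 := by
        rw [red_eq_zero_iff]
        exact ⟨3, by norm_num [← C_ofNat]⟩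
      rw [h9, zero_mul, add_zero]
      congr 1
      rw [red_S, red_S]
      unfold S
      rw [sum_pow_char 3]
      apply Finset.sum_congr rfl
      intro a _
      rw [← pow_mul, mul_comm]
    have e2 : red 3 P ∣ red 3 (C D) * (red 3 (S ℤ 3 n')) ^ 3 := by
      rw [← e1, map_mul]
      exact Dvd.dvd.mul_right h1 _
    rcases hprime.dvd_or_dvd e2 with h | h
    · exact absurd (isUnit_of_dvd_unit h hDunit) hπ.not_isUnit
    · exact hprime.dvd_of_dvd_pow h
  obtain ⟨a, b, hab⟩ := exists_lift h1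
  obtain ⟨c, d, hcd⟩ := exists_lift h2
  obtain ⟨f, e, hef⟩ := exists_lift hS
  set y0 : ℤ[X] := (X + C ((0 : ℕ) : ℤ)) ^ n' with hy0
  set y1 : ℤ[X] := (X + C ((1 : ℕ) : ℤ)) ^ n' with hy1
  set y2 : ℤ[X] := (X + C ((2 : ℕ) : ℤ)) ^ n' with hy2
  have hSn : S ℤ 3 n' = y0 + y1 + y2 := by
    unfold S
    rw [Finset.sum_range_succ, Finset.sum_range_succ, Finset.sum_range_one]
  have hS3 : S ℤ 3 (3 * n') = y0 ^ 3 + y1 ^ 3 + y2 ^ 3 := by
    unfold S
    rw [Finset.sum_range_succ, Finset.sum_range_succ, Finset.sum_range_one]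
    simp only [hy0, hy1, hy2, ← pow_mul, mul_comm n' 3]
  have hC3 : (C ((3 : ℕ) : ℤ) : ℤ[X]) = 3 := by simp
  rw [hC3] at hab hcd hef
  have hcube : S ℤ 3 (3 * n') = (P * e + 3 * f) ^ 3
      - 3 * (P * e + 3 * f) * (y0 * y1 + y1 * y2 + y2 * y0) + 3 * (y0 * y1 * y2) := by
    rw [← hef, hSn, hS3]
    ring
  have hkey : P ^ 2 * (b * d - C D * P * e ^ 3) = 3 * (C D * (y0 * y1 * y2)
      - P * (b * c + a * d + C D * e * (y0 * y1 + y1 * y2 + y2 * y0))
      - 3 * (a * c - W - C D * (P ^ 2 * e ^ 2 * f + 3 * P * e * f ^ 2 + 3 * f ^ 3)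
        + C D * f * (y0 * y1 + y1 * y2 + y2 * y0))) := by
    have := hFH
    rw [hab, hcd, hcube] at this
    linear_combination this
  have hdvd : C ((3 : ℕ) : ℤ) ∣ P ^ 2 * (b * d - C D * P * e ^ 3) := by
    rw [hkey, hC3]
    exact Dvd.intro _ rfl
  obtain ⟨A', hA'⟩ := dvd_of_dvd_sq_mul hπ.ne_zero hdvd
  rw [hC3] at hA'
  have hkey2 : P ^ 2 * A' = C D * (y0 * y1 * y2)
      - P * (b * c + a * d + C D * e * (y0 * y1 + y1 * y2 + y2 * y0))
      - 3 * (a * c - W - C D * (P ^ 2 * e ^ 2 * f + 3 * P * e * f ^ 2 + 3 * f ^ 3)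
        + C D * f * (y0 * y1 + y1 * y2 + y2 * y0)) := by
    have h3 : (3 : ℤ[X]) ≠ 0 := by norm_num
    apply mul_left_cancel₀ h3
    rw [← hkey, hA']
    ring
  have hred3 : red 3 (3 : ℤ[X]) = 0 := by
    rw [red_eq_zero_iff]
    exact ⟨1, by simp⟩
  have hy : red 3 P ∣ red 3 (C D) * (red 3 y0 * red 3 y1 * red 3 y2) := by
    have e1 := congrArg (red 3) hkey2
    simp only [map_sub, map_mul, map_add, map_pow, hred3, zero_mul, sub_zero] at e1
    refine ⟨red 3 P * red 3 A' + (red 3 b * red 3 c + red 3 a * red 3 d + red 3 (C D) * red 3 e *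
      (red 3 y0 * red 3 y1 + red 3 y1 * red 3 y2 + red 3 y2 * red 3 y0)), ?_⟩
    linear_combination -e1
  have hlin : ∃ t : ZMod 3, red 3 P ∣ (X + C t) := by
    rcases hprime.dvd_or_dvd hy with h | h
    · exact absurd (isUnit_of_dvd_unit h hDunit) hπ.not_isUnit
    · rcases hprime.dvd_or_dvd h with h | h
      · rcases hprime.dvd_or_dvd h with h | h
        · refine ⟨0, ?_⟩
          have : red 3 y0 = (X + C 0) ^ n' := by simp [hy0]
          rw [this] at h
          exact hprime.dvd_of_dvd_pow h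
        · refine ⟨1, ?_⟩
          have : red 3 y1 = (X + C 1) ^ n' := by simp [hy1]
          rw [this] at h
          exact hprime.dvd_of_dvd_pow h
      · refine ⟨2, ?_⟩
        have : red 3 y2 = (X + C 2) ^ n' := by
          rw [hy2, map_pow, coe_mapRingHom, Polynomial.map_add, map_X, map_C, eq_intCast]
          norm_num
        rw [this] at h
        exact hprime.dvd_of_dvd_pow h
  obtain ⟨t, ht⟩ := hlin
  have hirr : Irreducible (X + C t : (ZMod 3)[X]) := by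
    have := irreducible_X_sub_C (-t)
    simpa using this
  have hassoc : Associated (red 3 P) (X + C t) := hπ.associated_of_dvd hirr ht
  have hroot : (X + C t) ∣ S (ZMod 3) 3 n' := by
    rw [← red_S]
    exact hassoc.symm.dvd.trans hS
  have heval : (S (ZMod 3) 3 n').eval (-t) = 0 := by
    obtain ⟨g, hg⟩ := hroot
    rw [hg]
    simp
  apply sum_three_ne_zero (-t) hn hn0
  have h5 := heval
  unfold S at h5
  rw [Finset.sum_range_succ, Finset.sum_range_succ, Finset.sum_range_one] at h5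
  simp only [eval_add, eval_pow, eval_X, eval_C] at h5
  simpa using h5

end Pool.Agent.Helper29
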