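import Mathlib
import Pool.Agent.Helper29.BernThree

namespace Pool.Agent.Helper29

open Polynomial

lemma quartic_natDegree : (X ^ 4 + X + 1 : (ZMod 2)[X]).natDegree = 4 := by
  have : Fact (Nat.Prime 2) := ⟨by norm_num⟩
  compute_degree!

lemma quartic_eval (t : ZMod 2) : (X ^ 4 + X + 1 : (ZMod 2)[X]).eval t ≠ 0 := by
  simp only [eval_add, eval_pow, eval_X, eval_one]
  revert t
  decide

lemma even_natDegree_of_dvd_quartic {π : (ZMod 2)[X]} (h : π ∣ X ^ 4 + X + 1) :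
    2 ∣ π.natDegree := by
  have : Fact (Nat.Prime 2) := ⟨by norm_num⟩
  obtain ⟨g, hg⟩ := h
  have hne : (X ^ 4 + X + 1 : (ZMod 2)[X]) ≠ 0 := by
    intro h0
    have := quartic_natDegree
    rw [h0] at this
    simp at this
  have hπ0 : π ≠ 0 := by rintro rfl; rw [zero_mul] at hg; exact hne hg
  have hg0 : g ≠ 0 := by rintro rfl; rw [mul_zero] at hg; exact hne hg
  have hdeg : π.natDegree + g.natDegree = 4 := by
    rw [← natDegree_mul hπ0 hg0, ← hg, quartic_natDegree]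
  have h1 : π.natDegree ≠ 1 := by
    intro h1
    obtain ⟨t, ht⟩ := exists_root_of_degree_eq_one ((degree_eq_iff_natDegree_eq hπ0).mpr h1)
    apply quartic_eval t
    rw [hg, eval_mul, ht.eq_zero, zero_mul]
  have h3 : g.natDegree ≠ 1 := by
    intro h1
    obtain ⟨t, ht⟩ := exists_root_of_degree_eq_one ((degree_eq_iff_natDegree_eq hg0).mpr h1)
    apply quartic_eval t
    rw [hg, eval_mul, ht.eq_zero, mul_zero]
  omega

lemma both_two {n' : ℕ} (hn0 : n' ≠ 0) {F H W : ℤ[X]} {D : ℤ}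
    (hD : ¬ (2 : ℤ) ∣ D)
    (hFH : F * H = C (3 * D) * S ℤ 2 (2 * n') - C (3 * D * (2 * n')) * S ℤ 2 (2 * n' - 1)
          + C (D * (2 * n') * (2 * n' - 1)) * S ℤ 2 (2 * n' - 2) + 4 * W)
    {π : (ZMod 2)[X]} (hπ : Irreducible π) (h1 : π ∣ red 2 F) (h2 : π ∣ red 2 H) :
    Odd n' ∧ 2 ∣ π.natDegree := by
  have z20 : (2 : ZMod 2) = 0 := by decide
  have z31 : (3 : ZMod 2) = 1 := by decide
  have z31' : ((3 : ℤ) : ZMod 2) = 1 := by decide
  have z1 : (1 : ZMod 2) * (2 * 1 - 1) = 1 := by decide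
  have : Fact (Nat.Prime 2) := ⟨by norm_num⟩
  have : CharP (ZMod 2)[X] 2 := inferInstance
  obtain ⟨P, rfl⟩ := red_surj 2 π
  have hprime := hπ.prime
  have hred2 : red 2 (2 : ℤ[X]) = 0 := by
    rw [red_eq_zero_iff]
    exact ⟨1, by simp⟩
  have hred4 : red 2 (4 : ℤ[X]) = 0 := by
    rw [show (4 : ℤ[X]) = 2 * 2 by norm_num, map_mul, hred2, zero_mul]
  have hcC : ∀ z : ℤ, red 2 (C z) = C ((z : ℤ) : ZMod 2) := by
    intro z
    rw [coe_mapRingHom, map_C, eq_intCast]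
  have hD1 : ((D : ℤ) : ZMod 2) = 1 := by
    have hodd : Odd D := by
      rw [← Int.not_even_iff_odd]
      intro he
      exact hD he.two_dvd
    obtain ⟨k, hk⟩ := hodd
    rw [hk]
    push_cast
    rw [z20]
    ring
  have hredD : red 2 (C D) = 1 := by rw [hcC, hD1, C_1]
  have hred3D : red 2 (C (3 * D)) = 1 := by
    rw [hcC]
    push_cast
    rw [hD1, z31]
    simp
  have rC3 : red 2 (C 3) = 1 := by rw [hcC, z31', C_1]
  have rC2 : red 2 (C 2) = 0 := hred2
  set y0 : ℤ[X] := (X + C ((0 : ℕ) : ℤ)) ^ n' with hy0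
  set y1 : ℤ[X] := (X + C ((1 : ℕ) : ℤ)) ^ n' with hy1
  have hSn : S ℤ 2 n' = y0 + y1 := by
    unfold S
    rw [Finset.sum_range_succ, Finset.sum_range_one]
  have hS2 : S ℤ 2 (2 * n') = y0 ^ 2 + y1 ^ 2 := by
    unfold S
    rw [Finset.sum_range_succ, Finset.sum_range_one]
    simp only [hy0, hy1, ← pow_mul, mul_comm n' 2]
  have hchar : ∀ x : (ZMod 2)[X], x + x = 0 := by
    intro x
    exact CharTwo.add_self_eq_zero x
  -- P divides y0 + y1 mod 2
  have hS : red 2 P ∣ red 2 (y1 - y0) := by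
    have e1 : red 2 (F * H) = (red 2 (y1 - y0)) ^ 2 := by
      rw [hFH, hS2]
      clear_value y0 y1
      simp only [map_add, map_sub, map_mul, map_pow, hred4, rC3, rC2, hredD]
      linear_combination (red 2 y0) * (hchar (red 2 y1))
    have e2 : red 2 P ∣ (red 2 (y1 - y0)) ^ 2 := by
      rw [← e1, map_mul]
      exact Dvd.dvd.mul_right h1 _
    exact hprime.dvd_of_dvd_pow e2
  obtain ⟨a, b, hab⟩ := exists_lift h1
  obtain ⟨c, d, hcd⟩ := exists_lift h2
  obtain ⟨f, e, hef⟩ := exists_lift hS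
  have hC2 : (C ((2 : ℕ) : ℤ) : ℤ[X]) = 2 := by simp
  rw [hC2] at hab hcd hef
  have hsq : S ℤ 2 (2 * n') = (P * e + 2 * f) ^ 2 + 2 * (y0 * y1) := by
    rw [← hef, hS2]
    ring
  set U : ℤ[X] := C (3 * D) * (y0 * y1) - C (3 * D * n') * S ℤ 2 (2 * n' - 1)
      + C (D * n' * (2 * n' - 1)) * S ℤ 2 (2 * n' - 2) with hU
  have hkey : P ^ 2 * (b * d - C (3 * D) * e ^ 2) = 2 * (U
      - P * (b * c + a * d - 2 * C (3 * D) * e * f)
      + 2 * (W + C (3 * D) * f ^ 2 - a * c)) := by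
    have h3 := hFH
    rw [hab, hcd, hsq] at h3
    rw [hU]
    have e1 : (C (3 * D * (2 * (n' : ℤ))) : ℤ[X]) = 2 * C (3 * D * n') := by
      rw [show (3 * D * (2 * (n' : ℤ))) = 2 * (3 * D * n') by ring, C_mul]
      rfl
    have e2 : (C (D * (2 * (n' : ℤ)) * (2 * n' - 1)) : ℤ[X]) = 2 * C (D * n' * (2 * n' - 1)) := by
      rw [show (D * (2 * (n' : ℤ)) * (2 * n' - 1)) = 2 * (D * n' * (2 * n' - 1)) by ring, C_mul]
      rfl
    rw [e1, e2] at h3
    linear_combination h3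
  have hdvd : C ((2 : ℕ) : ℤ) ∣ P ^ 2 * (b * d - C (3 * D) * e ^ 2) := by
    rw [hkey, hC2]
    exact Dvd.intro _ rfl
  obtain ⟨A', hA'⟩ := dvd_of_dvd_sq_mul hπ.ne_zero hdvd
  rw [hC2] at hA'
  have hkey2 : P ^ 2 * A' = U
      - P * (b * c + a * d - 2 * C (3 * D) * e * f)
      + 2 * (W + C (3 * D) * f ^ 2 - a * c) := by
    have h3 : (2 : ℤ[X]) ≠ 0 := by norm_num
    apply mul_left_cancel₀ h3
    rw [← hkey, hA']
    ring
  have hUd : red 2 P ∣ red 2 U := by
    have e1 := congrArg (red 2) hkey2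
    rw [map_add, map_sub, map_mul (red 2) 2 _, hred2, zero_mul, add_zero, map_mul, map_mul,
      map_pow] at e1
    exact ⟨red 2 P * red 2 A' + red 2 (b * c + a * d - 2 * C (3 * D) * e * f), by
      linear_combination -e1⟩
  -- notation mod 2
  set u : (ZMod 2)[X] := X ^ n' with hu
  set v : (ZMod 2)[X] := (X + 1) ^ n' with hv
  have hy0r : red 2 y0 = u := by simp [hy0, hu]
  have hy1r : red 2 y1 = v := by simp [hy1, hv]
  have huv : red 2 P ∣ v - u := by rw [map_sub, hy0r, hy1r] at hS; exact hS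
  have hnX : ¬ red 2 P ∣ X := by
    intro hX
    have hPu : red 2 P ∣ u := hX.trans (dvd_pow_self X hn0)
    have hPv : red 2 P ∣ v := by
      have := dvd_add huv hPu
      simpa using this
    have hX1 : red 2 P ∣ X + 1 := hprime.dvd_of_dvd_pow hPv
    have : red 2 P ∣ (X + 1) - X := dvd_sub hX1 hX
    rw [add_sub_cancel_left] at this
    exact hπ.not_isUnit (isUnit_of_dvd_one this)
  have hnX1 : ¬ red 2 P ∣ X + 1 := by
    intro hX
    have hPu : red 2 P ∣ v := hX.trans (dvd_pow_self (X + 1) hn0)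
    have hPv : red 2 P ∣ u := by
      have := dvd_sub hPu huv
      simpa using this
    have hX1 : red 2 P ∣ X := hprime.dvd_of_dvd_pow hPv
    exact hnX hX1
  -- n' is odd
  have hodd : Odd n' := by
    by_contra hcon
    rw [Nat.not_odd_iff_even] at hcon
    obtain ⟨j, hj⟩ := hcon
    have hn2 : (n' : ℤ) = 2 * j := by push_cast [hj]; ring
    have e1 : red 2 U = u * v := by
      rw [hU, hn2]
      clear_value y0 y1
      simp only [map_add, map_sub, map_mul, rC3, rC2, hredD, hy0r, hy1r]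
      ring
    rw [e1] at hUd
    rcases hprime.dvd_or_dvd hUd with h | h
    · exact hnX (hprime.dvd_of_dvd_pow h)
    · exact hnX1 (hprime.dvd_of_dvd_pow h)
  refine ⟨hodd, ?_⟩
  have hn1 : ((n' : ℤ) : ZMod 2) = 1 := by
    obtain ⟨k, hk⟩ := hodd
    rw [hk]
    push_cast
    rw [z20]
    ring
  have e1 : red 2 U = u * v + S (ZMod 2) 2 (2 * n' - 1) + S (ZMod 2) 2 (2 * n' - 2) := by
    have rn : red 2 (C (n' : ℤ)) = 1 := by rw [hcC, hn1, C_1]
    rw [hU]
    clear_value y0 y1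
    simp only [map_add, map_sub, map_mul, rC3, rC2, hredD, hy0r, hy1r, rn, red_S, map_one]
    linear_combination -(hchar (S (ZMod 2) 2 (2 * n' - 1))) - (hchar (S (ZMod 2) 2 (2 * n' - 2)))
  set A : (ZMod 2)[X] := X ^ (2 * n' - 2) with hA
  set B : (ZMod 2)[X] := (X + 1) ^ (2 * n' - 2) with hB
  have hn2 : 2 ≤ 2 * n' := by omega
  have g1 : S (ZMod 2) 2 (2 * n' - 2) = A + B := by
    unfold S
    rw [Finset.sum_range_succ, Finset.sum_range_one]
    simp [hA, hB]
  have g2 : S (ZMod 2) 2 (2 * n' - 1) = A * X + B * (X + 1) := by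
    unfold S
    rw [Finset.sum_range_succ, Finset.sum_range_one, hA, hB, ← pow_succ, ← pow_succ,
      show 2 * n' - 2 + 1 = 2 * n' - 1 by omega]
    simp
  have g3 : u ^ 2 = A * X ^ 2 := by
    rw [hu, hA, ← pow_mul, ← pow_add]
    congr 1
    omega
  have g4 : v ^ 2 = B * (X + 1) ^ 2 := by
    rw [hv, hB, ← pow_mul, ← pow_add]
    congr 1
    omega
  have h2z : (2 : (ZMod 2)[X]) = 0 := by
    have := hchar 1
    rw [← this]
    norm_num
  have hfin : red 2 P ∣ A * (X ^ 4 + X + 1) := by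
    have e5 : A * (X ^ 4 + X + 1) = (X + 1) ^ 2 * red 2 U - (X + 1) ^ 2 * u * (v - u)
        - X * (v - u) * (v - u) - X * 0 := by
      rw [e1, g1, g2]
      linear_combination (-((X + 1) ^ 2 - X)) * g3 + X * g4
        - (A * (X ^ 3 + 2 * X ^ 2 + X) + B * (X + 1) ^ 2 + X * u * v) * h2z
    rw [e5, mul_zero, sub_zero]
    apply dvd_sub
    · apply dvd_sub
      · exact Dvd.dvd.mul_left hUd _
      · exact Dvd.dvd.mul_left huv _
    · exact Dvd.dvd.mul_left huv _
  rcases hprime.dvd_or_dvd hfin with h | h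
  · exact absurd (hprime.dvd_of_dvd_pow h) hnX
  · exact even_natDegree_of_dvd_quartic h

end Pool.Agent.Helper29
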