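import Mathlib
import Pool.Agent.Helper29.BernInt
import Pool.Agent.Helper29.BernTwo

namespace Pool.Agent.Helper29

open Polynomial

lemma dvd_natDegree_lift {p : ℕ} [hp : Fact p.Prime] {F H : ℤ[X]} {u : ZMod p} {ψ : (ZMod p)[X]}
    {q : ℕ} (hred : red p (F * H) = C u * ψ ^ q) (hu : u ≠ 0) (hψ : ψ ≠ 0)
    (hsp : ∀ π : (ZMod p)[X], Irreducible π → π ∣ red p F → π ∣ red p H → q ∣ π.natDegree)
    (hlc : ¬ (p : ℤ) ^ 2 ∣ (F * H).leadingCoeff) (hqn : q ∣ (F * H).natDegree) :
    q ∣ F.natDegree := by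
  have hne : red p (F * H) ≠ 0 := by
    rw [hred]
    exact mul_ne_zero (by simpa using hu) (pow_ne_zero _ hψ)
  rw [map_mul] at hne
  have hF : red p F ≠ 0 := left_ne_zero_of_mul hne
  have hH : red p H ≠ 0 := right_ne_zero_of_mul hne
  have hF0 : F ≠ 0 := by rintro rfl; simp at hF
  have hH0 : H ≠ 0 := by rintro rfl; simp at hH
  rw [leadingCoeff_mul] at hlc
  rw [natDegree_mul hF0 hH0] at hqn
  have hcast : ∀ G : ℤ[X], ¬ (p : ℤ) ∣ G.leadingCoeff → (red p G).natDegree = G.natDegree := by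
    intro G hG
    apply natDegree_map_of_leadingCoeff_ne_zero
    rw [eq_intCast]
    intro h0
    exact hG ((ZMod.intCast_zmod_eq_zero_iff_dvd _ _).mp h0)
  by_cases h1 : (p : ℤ) ∣ F.leadingCoeff
  · have h2 : ¬ (p : ℤ) ∣ H.leadingCoeff := by
      intro h2
      apply hlc
      rw [pow_two]
      exact mul_dvd_mul h1 h2
    have h3 : q ∣ (red p H).natDegree := by
      apply dvd_natDegree_of_mul_eq hH hF hu (ψ := ψ) (q := q)
      · rw [← hred, map_mul, mul_comm]
      · intro π hπ ha hb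
        exact hsp π hπ hb ha
    rw [hcast H h2] at h3
    exact (Nat.dvd_add_left h3).mp hqn
  · have h3 : q ∣ (red p F).natDegree := by
      apply dvd_natDegree_of_mul_eq hF hH hu (ψ := ψ) (q := q)
      · rw [← hred, map_mul]
      · exact hsp
    rw [hcast F h1] at h3
    exact h3

lemma S_pow (p : ℕ) [Fact p.Prime] (t N : ℕ) :
    S (ZMod p) p (p ^ t * N) = (S (ZMod p) p N) ^ (p ^ t) := by
  unfold S
  rw [sum_pow_char_pow p]
  apply Finset.sum_congr rfl
  intro a _
  rw [← pow_mul, mul_comm]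

lemma monic_bernoulli (n : ℕ) : (Polynomial.bernoulli n).Monic := by
  apply monic_of_natDegree_le_of_coeff_eq_one n
  · rw [Polynomial.bernoulli_def]
    apply natDegree_sum_le_of_forall_le
    intro i hi
    rw [Finset.mem_range] at hi
    exact (natDegree_monomial_le _).trans (by omega)
  · rw [coeff_bernoulli]
    simp

lemma natDegree_bernoulli (n : ℕ) : (Polynomial.bernoulli n).natDegree = n := by
  apply le_antisymm
  · rw [Polynomial.bernoulli_def]
    apply natDegree_sum_le_of_forall_le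
    intro i hi
    rw [Finset.mem_range] at hi
    exact (natDegree_monomial_le _).trans (by omega)
  · apply le_natDegree_of_ne_zero
    rw [coeff_bernoulli]
    simp

/-- an integer polynomial proportional to `B_n`. -/
lemma natDegree_leadingCoeff_of_map {Q : ℤ[X]} {z : ℤ} (hz : z ≠ 0) {n : ℕ}
    (h : Q.map (Int.castRingHom ℚ) = C (z : ℚ) * Polynomial.bernoulli n) :
    Q.natDegree = n ∧ Q.leadingCoeff = z := by
  have hz' : (z : ℚ) ≠ 0 := by exact_mod_cast hz
  have h1 : Q.natDegree = n := by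
    rw [← natDegree_map_eq_of_injective (RingHom.injective_int (Int.castRingHom ℚ)) Q, h,
      natDegree_C_mul hz', natDegree_bernoulli]
  refine ⟨h1, ?_⟩
  have h2 := leadingCoeff_map_of_injective (RingHom.injective_int (Int.castRingHom ℚ)) Q
  rw [h, leadingCoeff_mul, leadingCoeff_C, (monic_bernoulli n).leadingCoeff, mul_one] at h2
  simpa using h2.symm

/-- a primitive integer multiple -/
lemma exists_primitive {f : ℚ[X]} (hf : f ≠ 0) :
    ∃ F : ℤ[X], F.IsPrimitive ∧ F.natDegree = f.natDegree ∧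
      ∃ c : ℚ, c ≠ 0 ∧ F.map (Int.castRingHom ℚ) = C c * f := by
  obtain ⟨b, hb, hb2⟩ := IsLocalization.integerNormalization_spec (nonZeroDivisors ℤ) f
  set G := IsLocalization.integerNormalization (nonZeroDivisors ℤ) f with hG
  have hb0 : (b : ℚ) ≠ 0 := by
    have := nonZeroDivisors.ne_zero hb
    exact_mod_cast this
  have hG0 : G ≠ 0 := by
    intro h0
    rw [h0, Polynomial.map_zero] at hb2
    have : (b : ℤ) • f = C (b : ℚ) * f := by
      rw [zsmul_eq_mul]
      simp
    rw [this] at hb2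
    exact (mul_ne_zero (by simpa using hb0) hf) hb2.symm
  have hc0 : ((G.content : ℤ) : ℚ) ≠ 0 := by
    have := content_eq_zero_iff.not.mpr hG0
    exact_mod_cast this
  have hmap : G.primPart.map (Int.castRingHom ℚ) = C ((b : ℚ) / (G.content : ℚ)) * f := by
    have h1 := G.eq_C_content_mul_primPart
    have h2 : G.map (Int.castRingHom ℚ) = C (b : ℚ) * f := by
      have : (b : ℤ) • f = C (b : ℚ) * f := by
        rw [zsmul_eq_mul]
        simp
      rw [← this]
      exact hb2
    have h3 : C (G.content : ℚ) * G.primPart.map (Int.castRingHom ℚ) = C (b : ℚ) * f := by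
      rw [← h2]
      conv_rhs => rw [h1]
      simp
    have h4 : C (G.content : ℚ) * (G.primPart.map (Int.castRingHom ℚ)) =
        C (G.content : ℚ) * (C ((b : ℚ) / (G.content : ℚ)) * f) := by
      rw [h3, ← mul_assoc, ← C_mul]
      congr 2
      field_simp
    exact mul_left_cancel₀ (by simpa using hc0) h4
  refine ⟨G.primPart, G.isPrimitive_primPart, ?_, (b : ℚ) / (G.content : ℚ),
    div_ne_zero hb0 hc0, hmap⟩
  rw [← natDegree_map_eq_of_injective (RingHom.injective_int (Int.castRingHom ℚ)), hmap,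
    natDegree_C_mul (div_ne_zero hb0 hc0)]

lemma exists_int_factor {f : ℚ[X]} (hf : f ≠ 0) {n : ℕ} (hdvd : f ∣ Polynomial.bernoulli n)
    {Q : ℤ[X]} {z : ℤ} (h : Q.map (Int.castRingHom ℚ) = C (z : ℚ) * Polynomial.bernoulli n) :
    ∃ F H : ℤ[X], Q = F * H ∧ F.natDegree = f.natDegree := by
  obtain ⟨F, hprim, hdeg, c, hc, hmap⟩ := exists_primitive hf
  have h1 : F.map (algebraMap ℤ ℚ) ∣ Q.map (algebraMap ℤ ℚ) := by
    change F.map (Int.castRingHom ℚ) ∣ Q.map (Int.castRingHom ℚ)
    rw [hmap, h]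
    apply Dvd.dvd.mul_left
    obtain ⟨g, hg⟩ := hdvd
    rw [hg]
    exact ⟨C (c⁻¹) * g, by
      have : C c * C c⁻¹ = (1 : ℚ[X]) := by rw [← C_mul, mul_inv_cancel₀ hc, C_1]
      linear_combination (-(f * g)) * this⟩
  obtain ⟨H, hH⟩ := hprim.dvd_of_fraction_map_dvd_fraction_map h1
  exact ⟨F, H, hH, hdeg⟩

lemma S_two_ne_zero {N : ℕ} (hN : N ≠ 0) : S (ZMod 2) 2 N ≠ 0 := by
  intro h
  have := congrArg (Polynomial.eval 0) h
  unfold S at this
  rw [Finset.sum_range_succ, Finset.sum_range_one] at this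
  simp [hN] at this

lemma S_three_ne_zero {N : ℕ} (hN : N ≠ 0) (he : Even N) : S (ZMod 3) 3 N ≠ 0 := by
  intro h
  have h5 := congrArg (Polynomial.eval 0) h
  unfold S at h5
  rw [Finset.sum_range_succ, Finset.sum_range_succ, Finset.sum_range_one] at h5
  apply sum_three_ne_zero 0 he hN
  simp only [eval_add, eval_pow, eval_X, eval_C, eval_zero] at h5
  simpa using h5

theorem two_part {n : ℕ} (hn : 0 < n) (he : Even n) {f : ℚ[X]}
    (hf : f ∣ Polynomial.bernoulli n) : 2 ^ n.factorization 2 ∣ f.natDegree := by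
  have : Fact (Nat.Prime 2) := ⟨by norm_num⟩
  have hf0 : f ≠ 0 := ne_zero_of_dvd_ne_zero (monic_bernoulli n).ne_zero hf
  obtain ⟨n', hn'⟩ := he.two_dvd
  have hn'0 : 0 < n' := by omega
  obtain ⟨D, W, hD, hform⟩ := two_formula hn'0
  rw [← hn'] at hform
  have hDz : (2 * (3 * D)) ≠ 0 := by
    rintro h0
    apply hD
    have : D = 0 := by omega
    rw [this]
    exact dvd_zero _
  obtain ⟨F, H, hQ, hdeg⟩ := exists_int_factor hf0 hf hform.symm
  obtain ⟨hnd, hlc⟩ := natDegree_leadingCoeff_of_map hDz hform.symm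
  rw [← hdeg]
  set Q := C (3 * D) * S ℤ 2 n - C (3 * D * (2 * (n' : ℤ))) * S ℤ 2 (n - 1)
          + C (D * (2 * (n' : ℤ)) * (2 * n' - 1)) * S ℤ 2 (n - 2)
          + 4 * W with hQdef
  have hDr : red 2 (C D) = 1 := by
    have hodd : Odd D := by
      rw [← Int.not_even_iff_odd]
      intro he
      exact hD he.two_dvd
    obtain ⟨k, hk⟩ := hodd
    rw [hk]
    have h2 : red 2 (C 2) = 0 := by
      rw [red_eq_zero_iff]
      exact ⟨1, by simp⟩
    simp only [map_add, map_mul, h2, map_one]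
    ring
  have hred : red 2 (F * H) = C 1 * (S (ZMod 2) 2 (ordCompl[2] n)) ^ (2 ^ n.factorization 2) := by
    rw [← hQ, ← S_pow, Nat.ordProj_mul_ordCompl_eq_self, hQdef]
    have h2 : red 2 (C 2) = 0 := by
      rw [red_eq_zero_iff]
      exact ⟨1, by simp⟩
    have h4 : red 2 (4 : ℤ[X]) = 0 := by
      rw [show (4 : ℤ[X]) = C 2 * C 2 by norm_num [← C_ofNat], map_mul, h2, zero_mul]
    have h3 : red 2 (C 3) = 1 := by
      rw [show (C 3 : ℤ[X]) = C 2 + 1 by norm_num [← C_ofNat], map_add, h2, map_one, zero_add]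
    simp only [map_add, map_sub, map_mul, h4, h3, h2, hDr, red_S, map_one]
    ring
  apply dvd_natDegree_lift hred one_ne_zero (S_two_ne_zero ?_) ?_ ?_ ?_
  · exact (Nat.ordCompl_pos 2 hn.ne').ne'
  · intro π hπ h1 h2
    have h3 := both_two (n' := n') hn'0.ne' hD (F := F) (H := H) (W := W) (by
      rw [← hQ, hQdef, hn']) hπ h1 h2
    have h4 : n.factorization 2 = 1 := by
      rw [hn', Nat.factorization_mul (by norm_num) hn'0.ne', Finsupp.add_apply,
        Nat.Prime.factorization_self (by norm_num),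
        Nat.factorization_eq_zero_of_not_dvd]
      intro h5
      exact (Nat.not_even_iff_odd.mpr h3.1) (even_iff_two_dvd.mpr h5)
    rw [h4, pow_one]
    exact h3.2
  · rw [← hQ, hlc]
    intro h4
    apply hD
    have h5 : (2 : ℤ) * 2 ∣ 2 * (3 * D) := by
      have : ((2 : ℕ) : ℤ) ^ 2 = 2 * 2 := by norm_num
      rwa [this] at h4
    have h6 : (2 : ℤ) ∣ 3 * D := (mul_dvd_mul_iff_left (by norm_num)).mp h5
    omega
  · rw [← hQ, hnd]
    exact Nat.ordProj_dvd n 2

theorem three_part {n : ℕ} (hn : 0 < n) (he : Even n) {f : ℚ[X]}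
    (hf : f ∣ Polynomial.bernoulli n) : 3 ^ n.factorization 3 ∣ f.natDegree := by
  have : Fact (Nat.Prime 3) := ⟨by norm_num⟩
  have hf0 : f ≠ 0 := ne_zero_of_dvd_ne_zero (monic_bernoulli n).ne_zero hf
  by_cases h3n : 3 ∣ n
  swap
  · rw [Nat.factorization_eq_zero_of_not_dvd h3n, pow_zero]
    exact one_dvd _
  obtain ⟨n', hn'⟩ := h3n
  have hn'0 : 0 < n' := by omega
  have he' : Even n' := by
    rw [hn', Nat.even_mul] at he
    rcases he with h | h
    · exact absurd h (by decide)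
    · exact h
  obtain ⟨D, W, hD, hform⟩ := three_formula hn'0
  rw [← hn'] at hform
  have hDz : (3 * D) ≠ 0 := by
    rintro h0
    apply hD
    have : D = 0 := by omega
    rw [this]
    exact dvd_zero _
  obtain ⟨F, H, hQ, hdeg⟩ := exists_int_factor hf0 hf hform.symm
  obtain ⟨hnd, hlc⟩ := natDegree_leadingCoeff_of_map hDz hform.symm
  rw [← hdeg]
  have hDu : ((D : ℤ) : ZMod 3) ≠ 0 := by
    intro h0
    exact hD ((ZMod.intCast_zmod_eq_zero_iff_dvd _ _).mp h0)
  have hred : red 3 (F * H) = C ((D : ℤ) : ZMod 3) *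
      (S (ZMod 3) 3 (ordCompl[3] n)) ^ (3 ^ n.factorization 3) := by
    rw [← hQ, ← S_pow, Nat.ordProj_mul_ordCompl_eq_self, map_add, map_mul (red 3),
      map_mul (red 3) 9]
    have h9 : red 3 (9 : ℤ[X]) = 0 := by
      rw [red_eq_zero_iff]
      exact ⟨3, by norm_num [← C_ofNat]⟩
    rw [h9, zero_mul, add_zero, red_S]
    congr 1
    rw [coe_mapRingHom, map_C, eq_intCast]
  have hce : Even (ordCompl[3] n) := by
    have h1 : ordProj[3] n * ordCompl[3] n = n := Nat.ordProj_mul_ordCompl_eq_self n 3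
    rw [← h1, Nat.even_mul] at he
    rcases he with h | h
    · exfalso
      have : Odd (3 ^ n.factorization 3) := Odd.pow (by decide)
      exact (Nat.not_even_iff_odd.mpr this) h
    · exact h
  apply dvd_natDegree_lift hred hDu (S_three_ne_zero ?_ hce) ?_ ?_ ?_
  · exact (Nat.ordCompl_pos 3 hn.ne').ne'
  · intro π hπ h1 h2
    exact (not_both_three (n' := n') he' hn'0.ne' hD (F := F) (H := H) (W := W) (by
      rw [← hQ, hn']) hπ h1 h2).elim
  · rw [← hQ, hlc]
    intro h4
    apply hD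
    have h5 : (3 : ℤ) * 3 ∣ 3 * D := by
      have : ((3 : ℕ) : ℤ) ^ 2 = 3 * 3 := by norm_num
      rwa [this] at h4
    exact (mul_dvd_mul_iff_left (by norm_num)).mp h5
  · rw [← hQ, hnd]
    exact Nat.ordProj_dvd n 3

end Pool.Agent.Helper29
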