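import Mathlib
import Pool.Agent.Results.MP_b354c3_nt.DegreeDivisibility

/-! Corollary: irreducibility for `n = 2^r 3^s`. -/

namespace Pool.Agent.Helper29

open Polynomial

theorem irreducible_of_three_smooth (r s : ℕ) (hr : 1 ≤ r) :
    Irreducible (Polynomial.bernoulli (2 ^ r * 3 ^ s)) := by
  set n := 2 ^ r * 3 ^ s with hn
  have hn0 : 0 < n := by positivity
  have he : Even n := by
    rw [hn, Nat.even_mul]
    left
    exact (Nat.even_pow).mpr ⟨by decide, by omega⟩
  have hfac : 2 ^ n.factorization 2 * 3 ^ n.factorization 3 = n := by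
    have h2 : n.factorization 2 = r := by
      rw [hn, Nat.factorization_mul (by positivity) (by positivity)]
      simp [Nat.Prime.factorization_pow (show Nat.Prime 2 by norm_num),
        Nat.Prime.factorization_pow (show Nat.Prime 3 by norm_num)]
    have h3 : n.factorization 3 = s := by
      rw [hn, Nat.factorization_mul (by positivity) (by positivity)]
      simp [Nat.Prime.factorization_pow (show Nat.Prime 2 by norm_num),
        Nat.Prime.factorization_pow (show Nat.Prime 3 by norm_num)]
    rw [h2, h3]
  have hmonic := monic_bernoulli n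
  have hdeg := natDegree_bernoulli n
  rw [hmonic.irreducible_iff_natDegree' ]
  refine ⟨?_, ?_⟩
  · intro h1
    rw [h1] at hdeg
    simp at hdeg
    omega
  · intro f g hf hg hfg hgdeg
    rw [Finset.mem_Ioc] at hgdeg
    have hdvd := Pool.Agent.Results.MP_b354c3_nt.DegreeDivisibility.result n hn0 he g
      (by rw [← hfg]; exact Dvd.intro_left _ rfl)
    rw [hfac] at hdvd
    have := Nat.le_of_dvd hgdeg.1 hdvd
    rw [hdeg] at hgdeg
    have h2 := hgdeg.2
    omega

end Pool.Agent.Helper29
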