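import Mathlib

set_option autoImplicit false

open Finset

namespace Pool.Agent.Helper29.PPC

section Alg

variable {G : Type*} [CommGroup G]

/-- The adjoint on the real group algebra of an abelian group: `[g] ↦ [g⁻¹]`. -/
noncomputable def adj : MonoidAlgebra ℝ G →+* MonoidAlgebra ℝ G :=
  MonoidAlgebra.mapDomainRingHom ℝ (invMonoidHom : G →* G)

lemma adj_single (g : G) (c : ℝ) :
    adj (MonoidAlgebra.single g c) = MonoidAlgebra.single g⁻¹ c := by
  simp [adj]

lemma adj_adj (x : MonoidAlgebra ℝ G) : adj (adj x) = x := by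
  induction x using MonoidAlgebra.induction_linear with
  | zero => simp
  | add x y hx hy => rw [map_add, map_add, hx, hy]
  | single g c => simp [adj_single]

lemma coeff_adj (x : MonoidAlgebra ℝ G) (g : G) : (adj x).coeff g = x.coeff g⁻¹ := by
  classical
  induction x using MonoidAlgebra.induction_linear with
  | zero => simp
  | add x y hx hy => rw [map_add, MonoidAlgebra.coeff_add, Finsupp.add_apply, hx, hy,
      MonoidAlgebra.coeff_add, Finsupp.add_apply]
  | single a c =>
    rw [adj_single, MonoidAlgebra.coeff_single, MonoidAlgebra.coeff_single, Finsupp.single_apply,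
      Finsupp.single_apply]
    by_cases h : a⁻¹ = g
    · subst h; simp
    · rw [if_neg h, if_neg]
      intro h2; apply h; rw [h2, inv_inv]

/-- The inner product on the group algebra. -/
noncomputable def ip (x y : MonoidAlgebra ℝ G) : ℝ := (x * adj y).coeff 1

lemma ip_eq_sum (x y : MonoidAlgebra ℝ G) :
    ip x y = ∑ g ∈ x.coeff.support, x.coeff g * y.coeff g := by
  unfold ip
  rw [MonoidAlgebra.coeff_mul_apply_left]
  unfold Finsupp.sum
  refine Finset.sum_congr rfl fun g _ => ?_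
  simp [coeff_adj]

lemma ip_eq_sum_of_subset (x y : MonoidAlgebra ℝ G) (S : Finset G) (hS : x.coeff.support ⊆ S) :
    ip x y = ∑ g ∈ S, x.coeff g * y.coeff g := by
  rw [ip_eq_sum]
  refine Finset.sum_subset hS fun g _ hg => ?_
  rw [Finsupp.notMem_support_iff.1 hg, zero_mul]

lemma ip_self_nonneg (x : MonoidAlgebra ℝ G) : 0 ≤ ip x x := by
  rw [ip_eq_sum]
  exact Finset.sum_nonneg fun g _ => mul_self_nonneg _

lemma ip_comm (x y : MonoidAlgebra ℝ G) : ip x y = ip y x := by
  classical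
  rw [ip_eq_sum_of_subset x y (x.coeff.support ∪ y.coeff.support) Finset.subset_union_left,
    ip_eq_sum_of_subset y x (x.coeff.support ∪ y.coeff.support) Finset.subset_union_right]
  exact Finset.sum_congr rfl fun g _ => mul_comm _ _

lemma ip_sq_le (x y : MonoidAlgebra ℝ G) : ip x y ^ 2 ≤ ip x x * ip y y := by
  classical
  rw [ip_eq_sum_of_subset x y (x.coeff.support ∪ y.coeff.support) Finset.subset_union_left,
    ip_eq_sum_of_subset x x (x.coeff.support ∪ y.coeff.support) Finset.subset_union_left,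
    ip_eq_sum_of_subset y y (x.coeff.support ∪ y.coeff.support) Finset.subset_union_right]
  have := Finset.sum_mul_sq_le_sq_mul_sq (x.coeff.support ∪ y.coeff.support)
    (fun g => x.coeff g) (fun g => y.coeff g)
  simpa [sq] using this

lemma ip_mul_left (x y z : MonoidAlgebra ℝ G) : ip (z * x) y = ip x (adj z * y) := by
  unfold ip
  rw [map_mul, adj_adj]
  congr 2
  ring

lemma ip_add_left (x y z : MonoidAlgebra ℝ G) : ip (x + y) z = ip x z + ip y z := by
  unfold ip; rw [add_mul, MonoidAlgebra.coeff_add, Finsupp.add_apply]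

lemma ip_add_right (x y z : MonoidAlgebra ℝ G) : ip z (x + y) = ip z x + ip z y := by
  rw [ip_comm, ip_add_left, ip_comm x, ip_comm y]

lemma ip_zero_left (z : MonoidAlgebra ℝ G) : ip 0 z = 0 := by
  unfold ip; simp

lemma ip_zero_right (z : MonoidAlgebra ℝ G) : ip z 0 = 0 := by
  rw [ip_comm, ip_zero_left]

lemma ip_sum_left {ι : Type*} (s : Finset ι) (f : ι → MonoidAlgebra ℝ G)
    (z : MonoidAlgebra ℝ G) : ip (∑ i ∈ s, f i) z = ∑ i ∈ s, ip (f i) z := by
  classical
  induction s using Finset.induction_on with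
  | empty => simp [ip_zero_left]
  | insert a s ha ih => rw [Finset.sum_insert ha, Finset.sum_insert ha, ip_add_left, ih]

lemma ip_sum_right {ι : Type*} (s : Finset ι) (f : ι → MonoidAlgebra ℝ G)
    (z : MonoidAlgebra ℝ G) : ip z (∑ i ∈ s, f i) = ∑ i ∈ s, ip z (f i) := by
  rw [ip_comm, ip_sum_left]
  exact Finset.sum_congr rfl fun i _ => ip_comm _ _

lemma ip_single_single (g h : G) (c d : ℝ) [Decidable (g = h)] :
    ip (MonoidAlgebra.single g c) (MonoidAlgebra.single h d) = if g = h then c * d else 0 := by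
  classical
  unfold ip
  rw [adj_single, MonoidAlgebra.single_mul_single, MonoidAlgebra.coeff_single, Finsupp.single_apply]
  by_cases h1 : g = h
  · subst h1; simp
  · rw [if_neg h1, if_neg]
    intro h2
    exact h1 (mul_inv_eq_one.1 h2)

/-- Interpolation step: with `k = m * adj m`, the moments `a_q = ip (k ^ q * f) f`. -/
lemma moment_sq_le (m f : MonoidAlgebra ℝ G) (q : ℕ) :
    ip ((m * adj m) ^ q * f) f ^ 2 ≤ ip f f * ip ((m * adj m) ^ (2 * q) * f) f := by
  have h1 := ip_sq_le ((m * adj m) ^ q * f) f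
  have h2 : ip ((m * adj m) ^ q * f) ((m * adj m) ^ q * f) = ip ((m * adj m) ^ (2 * q) * f) f := by
    have hk : adj ((m * adj m) ^ q) = (m * adj m) ^ q := by
      rw [map_pow, map_mul, adj_adj, mul_comm]
    rw [ip_comm, ip_mul_left, hk, ip_comm, ← mul_assoc, ← pow_add, two_mul]
  rw [h2] at h1
  linarith [mul_comm (ip ((m * adj m) ^ (2 * q) * f) f) (ip f f)]

lemma moment_nonneg (m f : MonoidAlgebra ℝ G) (q : ℕ) :
    0 ≤ ip ((m * adj m) ^ q * f) f := by
  have h : ip ((m * adj m) ^ q * f) f = ip (m ^ q * f) (m ^ q * f) := by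
    rw [mul_pow, ← map_pow]
    rw [show m ^ q * adj (m ^ q) * f = adj (m ^ q) * (m ^ q * f) by ring]
    rw [ip_mul_left, adj_adj]
  rw [h]
  exact ip_self_nonneg _

lemma moment_pow_le (m f : MonoidAlgebra ℝ G) (j : ℕ) :
    ip ((m * adj m) * f) f ^ (2 ^ j) ≤
      ip f f ^ (2 ^ j - 1) * ip ((m * adj m) ^ (2 ^ j) * f) f := by
  induction j with
  | zero => simp
  | succ j ih =>
    have hpos : 1 ≤ 2 ^ j := Nat.one_le_two_pow
    have h0 := ip_self_nonneg f
    have hm := moment_nonneg m f (2 ^ j)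
    have h1 := moment_nonneg m f 1
    rw [pow_one] at h1
    calc ip ((m * adj m) * f) f ^ (2 ^ (j + 1))
        = (ip ((m * adj m) * f) f ^ (2 ^ j)) ^ 2 := by rw [← pow_mul, pow_succ]
      _ ≤ (ip f f ^ (2 ^ j - 1) * ip ((m * adj m) ^ (2 ^ j) * f) f) ^ 2 := by gcongr
      _ = ip f f ^ (2 * (2 ^ j - 1)) * ip ((m * adj m) ^ (2 ^ j) * f) f ^ 2 := by
          rw [mul_pow, ← pow_mul, mul_comm 2]
      _ ≤ ip f f ^ (2 * (2 ^ j - 1)) *
            (ip f f * ip ((m * adj m) ^ (2 * 2 ^ j) * f) f) := by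
          gcongr
          exact moment_sq_le m f (2 ^ j)
      _ = ip f f ^ (2 ^ (j + 1) - 1) * ip ((m * adj m) ^ (2 ^ (j + 1)) * f) f := by
          rw [← mul_assoc, ← pow_succ]
          have e1 : 2 * (2 ^ j - 1) + 1 = 2 ^ (j + 1) - 1 := by rw [pow_succ]; omega
          have e2 : 2 * 2 ^ j = 2 ^ (j + 1) := by rw [pow_succ, mul_comm]
          rw [e1, e2]

/-- The top moment is bounded through Cauchy–Schwarz. -/
lemma top_moment_sq_le (m f : MonoidAlgebra ℝ G) (q : ℕ) :
    ip ((m * adj m) ^ q * f) f ^ 2 ≤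
      ip (m ^ (2 * q)) (m ^ (2 * q)) * ip (f * adj f) (f * adj f) := by
  have h1 : ip ((m * adj m) ^ q * f) f = ip ((m * adj m) ^ q) (f * adj f) := by
    rw [mul_comm _ f, ip_mul_left, mul_comm (adj f)]
  have h2 : ip ((m * adj m) ^ q) ((m * adj m) ^ q) = ip (m ^ (2 * q)) (m ^ (2 * q)) := by
    rw [mul_pow, ← map_pow]
    rw [ip_mul_left, mul_comm (m ^ q) (adj (m ^ q)), ip_comm, ← mul_assoc]
    rw [show adj (m ^ q) * adj (m ^ q) * m ^ q = (adj (m ^ q) * adj (m ^ q)) * m ^ q by ring]
    rw [ip_mul_left, map_mul, adj_adj]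
    rw [two_mul, pow_add]
    rw [← ip_comm]
    have : ip (m ^ q) (m ^ q * m ^ q * adj (m ^ q)) = ip (m ^ q * m ^ q) (m ^ q * m ^ q) := by
      rw [mul_comm (m ^ q * m ^ q) (adj (m ^ q)), ← ip_mul_left]
    rw [ip_comm, this]
  rw [h1, ← h2]
  exact ip_sq_le _ _

end Alg

end Pool.Agent.Helper29.PPC
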