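import Mathlib

set_option autoImplicit false

open Finset MeasureTheory

namespace Pool.Agent.Helper29.PPC

/-- Unfolding the unit interval along the `w`-division points. -/
lemma integral_unfold (F : ℝ → ℝ) (hF : Function.Periodic F 1)
    (hint : ∀ a b : ℝ, IntervalIntegrable F volume a b) (w : ℕ) (hw : 0 < w) :
    ∫ α in (0 : ℝ)..1, F α =
      (1 / (w : ℝ)) * ∫ y in (-(1 / 2) : ℝ)..(1 / 2), ∑ k ∈ Finset.range w, F (((k : ℝ) + y) / w) := by
  have hw0 : (0 : ℝ) < w := by exact_mod_cast hw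
  have hw1 : (w : ℝ) ≠ 0 := hw0.ne'
  set G : ℝ → ℝ := fun x => F (x / w) with hG
  have hGper : Function.Periodic G w := by
    intro x
    simp only [hG]
    rw [add_div, div_self hw1]
    exact hF _
  have hGint : ∀ a b : ℝ, IntervalIntegrable G volume a b := by
    intro a b
    have := (hint (a / w) (b / w)).comp_mul_right (c := (w : ℝ)⁻¹)
    simpa [hG, div_eq_mul_inv, hw1] using this
  have h1 : ∫ x in (0 : ℝ)..w, G x = (w : ℝ) * ∫ α in (0 : ℝ)..1, F α := by
    have := intervalIntegral.integral_comp_div (a := 0) (b := (w : ℝ)) F hw1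
    simp only [hG]
    rw [this, zero_div, div_self hw1, smul_eq_mul]
  have h2 : ∫ x in (0 : ℝ)..w, G x = ∫ x in (-(1 / 2) : ℝ)..(-(1 / 2) + w), G x := by
    have := hGper.intervalIntegral_add_eq 0 (-(1 / 2))
    rw [zero_add] at this
    exact this
  have h3 : ∫ x in (-(1 / 2) : ℝ)..(-(1 / 2) + w), G x =
      ∑ k ∈ Finset.range w, ∫ x in (-(1 / 2) + (k : ℝ))..(-(1 / 2) + ((k + 1 : ℕ) : ℝ)), G x := by
    have := intervalIntegral.sum_integral_adjacent_intervals (f := G) (μ := volume)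
      (a := fun k : ℕ => (-(1 / 2) + (k : ℝ))) (n := w) (fun k _ => hGint _ _)
    rw [this]
    simp
  have h4 : ∀ k : ℕ, ∫ x in (-(1 / 2) + (k : ℝ))..(-(1 / 2) + ((k + 1 : ℕ) : ℝ)), G x =
      ∫ y in (-(1 / 2) : ℝ)..(1 / 2), F (((k : ℝ) + y) / w) := by
    intro k
    have h5 := intervalIntegral.integral_comp_add_left (a := (-(1 / 2) : ℝ)) (b := 1 / 2) G (k : ℝ)
    simp only [hG] at h5 ⊢
    rw [h5]
    congr 1
    · ring
    · push_cast; ring
  have h6 : ∫ y in (-(1 / 2) : ℝ)..(1 / 2), ∑ k ∈ Finset.range w, F (((k : ℝ) + y) / w) =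
      ∑ k ∈ Finset.range w, ∫ y in (-(1 / 2) : ℝ)..(1 / 2), F (((k : ℝ) + y) / w) := by
    rw [intervalIntegral.integral_finsetSum]
    intro k _
    have h7 := (hGint (-(1 / 2) + (k : ℝ)) (1 / 2 + k)).comp_add_left (k : ℝ)
    have e1 : -(1 / 2) + (k : ℝ) - k = -(1 / 2) := by ring
    have e2 : 1 / 2 + (k : ℝ) - k = 1 / 2 := by ring
    rw [e1, e2] at h7
    exact h7
  have h8 : (w : ℝ) * ∫ α in (0 : ℝ)..1, F α =
      ∫ y in (-(1 / 2) : ℝ)..(1 / 2), ∑ k ∈ Finset.range w, F (((k : ℝ) + y) / w) := by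
    rw [h6, ← h1, h2, h3]
    exact Finset.sum_congr rfl fun k _ => h4 k
  rw [← h8]
  field_simp

lemma integral_window (δ : ℝ) (hδ0 : 0 < δ) (hδ : δ ≤ 1 / 2) (B : ℝ) :
    ∫ y in (-(1 / 2) : ℝ)..(1 / 2), (Set.Ioo (-δ) δ).indicator (fun _ => B) y = 2 * δ * B := by
  rw [intervalIntegral.integral_of_le (by norm_num), MeasureTheory.integral_indicator measurableSet_Ioo,
    Measure.restrict_restrict measurableSet_Ioo]
  have : Set.Ioo (-δ) δ ∩ Set.Ioc (-(1 / 2)) (1 / 2) = Set.Ioo (-δ) δ := by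
    apply Set.inter_eq_left.2
    intro x hx
    exact ⟨by linarith [hx.1], by linarith [hx.2]⟩
  rw [this, MeasureTheory.setIntegral_const, smul_eq_mul, Measure.real, Real.volume_Ioo,
    ENNReal.toReal_ofReal (by linarith)]
  ring

/-- Upper bound for the integral from a pointwise bound on the unfolded sum. -/
lemma integral_le_of_count (F : ℝ → ℝ) (hF : Function.Periodic F 1)
    (hint : ∀ a b : ℝ, IntervalIntegrable F volume a b) (w : ℕ) (hw : 0 < w)
    (δ : ℝ) (hδ0 : 0 < δ) (hδ : δ ≤ 1 / 2) (B : ℝ)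
    (hB : ∀ y : ℝ, |y| < δ → ∑ k ∈ Finset.range w, F (((k : ℝ) + y) / w) ≤ B)
    (h0 : ∀ y : ℝ, δ ≤ |y| → |y| ≤ 1 / 2 → ∑ k ∈ Finset.range w, F (((k : ℝ) + y) / w) ≤ 0) :
    ∫ α in (0 : ℝ)..1, F α ≤ 2 * δ * B / w := by
  have hw0 : (0 : ℝ) < w := by exact_mod_cast hw
  have hw1 : (w : ℝ) ≠ 0 := hw0.ne'
  rw [integral_unfold F hF hint w hw]
  have h1 : ∫ y in (-(1 / 2) : ℝ)..(1 / 2), ∑ k ∈ Finset.range w, F (((k : ℝ) + y) / w) ≤
      ∫ y in (-(1 / 2) : ℝ)..(1 / 2), (Set.Ioo (-δ) δ).indicator (fun _ => B) y := by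
    apply intervalIntegral.integral_mono_on (by norm_num)
    · have hsum : IntervalIntegrable (fun y => ∑ k ∈ Finset.range w, F (((k : ℝ) + y) / w)) volume
          (-(1 / 2)) (1 / 2) := by
        have := IntervalIntegrable.sum (μ := volume) (a := (-(1 / 2) : ℝ)) (b := 1 / 2)
          (Finset.range w) (f := fun k : ℕ => fun y : ℝ => F (((k : ℝ) + y) / w)) (by
            intro k _
            have h7 := ((hint ((-(1 / 2) + (k : ℝ)) / w) ((1 / 2 + k) / w)).comp_mul_right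
              (c := (w : ℝ)⁻¹)).comp_add_left (k : ℝ)
            have e1 : (-(1 / 2) + (k : ℝ)) / w / (w : ℝ)⁻¹ - k = -(1 / 2) := by
              field_simp; ring
            have e2 : (1 / 2 + (k : ℝ)) / w / (w : ℝ)⁻¹ - k = 1 / 2 := by
              field_simp; ring
            rw [e1, e2] at h7
            simpa [div_eq_mul_inv] using h7)
        have e : (∑ k ∈ Finset.range w, fun y : ℝ => F (((k : ℝ) + y) / w)) =
            fun y : ℝ => ∑ k ∈ Finset.range w, F (((k : ℝ) + y) / w) := by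
          ext y; simp
        rw [e] at this
        exact this
      exact hsum
    · rw [intervalIntegrable_iff_integrableOn_Ioc_of_le (by norm_num)]
      apply Integrable.indicator _ measurableSet_Ioo
      exact integrable_const _
    · intro y hy
      by_cases hyδ : |y| < δ
      · rw [Set.indicator_of_mem (show y ∈ Set.Ioo (-δ) δ from abs_lt.1 hyδ)]
        exact hB y hyδ
      · rw [Set.indicator_of_notMem (fun h : y ∈ Set.Ioo (-δ) δ => hyδ (abs_lt.2 h))]
        exact h0 y (not_lt.1 hyδ) (abs_le.2 hy)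
  rw [integral_window δ hδ0 hδ] at h1
  calc (1 / (w : ℝ)) * _ ≤ (1 / (w : ℝ)) * (2 * δ * B) := by gcongr
    _ = _ := by ring

end Pool.Agent.Helper29.PPC
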