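import Mathlib
import Pool.Agent.Helper29.PpcInt

set_option autoImplicit false

open Finset MeasureTheory

namespace Pool.Agent.Helper29.PPC

/-- `α` is within `δ / v` of a fraction `z / v` whose numerator satisfies `q`. -/
def hitSet (v : ℕ) (δ : ℝ) (q : ℤ → Prop) : Set ℝ := {α | ∃ z : ℤ, |(v : ℝ) * α - z| < δ ∧ q z}

lemma mem_hitSet {v : ℕ} {δ : ℝ} {q : ℤ → Prop} {α : ℝ} :
    α ∈ hitSet v δ q ↔ ∃ z : ℤ, |(v : ℝ) * α - z| < δ ∧ q z := Iff.rfl

lemma measurableSet_hitSet (v : ℕ) (δ : ℝ) (q : ℤ → Prop) : MeasurableSet (hitSet v δ q) := by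
  have : hitSet v δ q = ⋃ z : ℤ, ⋃ _ : q z, {α : ℝ | |(v : ℝ) * α - z| < δ} := by
    ext α
    simp only [mem_hitSet, Set.mem_iUnion, exists_prop]
    constructor
    · rintro ⟨z, h1, h2⟩; exact ⟨z, h2, h1⟩
    · rintro ⟨z, h1, h2⟩; exact ⟨z, h2, h1⟩
  rw [this]
  refine MeasurableSet.iUnion fun z => MeasurableSet.iUnion fun _ => ?_
  exact (isOpen_lt (by fun_prop) (by fun_prop)).measurableSet

/-- Indicator function of the hit set. -/
noncomputable def chi (v : ℕ) (δ : ℝ) (q : ℤ → Prop) : ℝ → ℝ := (hitSet v δ q).indicator (fun _ => 1)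

lemma chi_nonneg (v : ℕ) (δ : ℝ) (q : ℤ → Prop) (α : ℝ) : 0 ≤ chi v δ q α :=
  Set.indicator_nonneg (fun _ _ => zero_le_one) _

lemma chi_le_one (v : ℕ) (δ : ℝ) (q : ℤ → Prop) (α : ℝ) : chi v δ q α ≤ 1 :=
  Set.indicator_le_self' (fun _ _ => zero_le_one) _

lemma measurable_chi (v : ℕ) (δ : ℝ) (q : ℤ → Prop) : Measurable (chi v δ q) :=
  measurable_const.indicator (measurableSet_hitSet v δ q)

lemma hitSet_periodic (v : ℕ) (δ : ℝ) (q : ℤ → Prop) (hq : ∀ z m : ℤ, q (z + m * v) ↔ q z)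
    (α : ℝ) : α + 1 ∈ hitSet v δ q ↔ α ∈ hitSet v δ q := by
  rw [mem_hitSet, mem_hitSet]
  constructor
  · rintro ⟨z, h1, h2⟩
    refine ⟨z + (-1) * v, ?_, (hq _ _).2 h2⟩
    have : (v : ℝ) * α - ((z + (-1) * v : ℤ) : ℝ) = (v : ℝ) * (α + 1) - z := by push_cast; ring
    rw [this]; exact h1
  · rintro ⟨z, h1, h2⟩
    refine ⟨z + 1 * v, ?_, (hq _ _).2 h2⟩
    have : (v : ℝ) * (α + 1) - ((z + 1 * v : ℤ) : ℝ) = (v : ℝ) * α - z := by push_cast; ring
    rw [this]; exact h1

lemma chi_periodic (v : ℕ) (δ : ℝ) (q : ℤ → Prop) (hq : ∀ z m : ℤ, q (z + m * v) ↔ q z) :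
    Function.Periodic (chi v δ q) 1 := by
  intro α
  unfold chi
  by_cases h : α ∈ hitSet v δ q
  · rw [Set.indicator_of_mem h, Set.indicator_of_mem ((hitSet_periodic v δ q hq α).2 h)]
  · rw [Set.indicator_of_notMem h,
      Set.indicator_of_notMem (fun h2 => h ((hitSet_periodic v δ q hq α).1 h2))]

lemma intervalIntegrable_of_bdd (F : ℝ → ℝ) (hF : Measurable F) (C : ℝ) (hC : ∀ x, |F x| ≤ C)
    (a b : ℝ) : IntervalIntegrable F volume a b := by
  have h : IntervalIntegrable (fun _ : ℝ => C) volume a b := intervalIntegrable_const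
  refine h.mono_fun' hF.aestronglyMeasurable ?_
  exact Filter.Eventually.of_forall fun x => by
    simp only
    rw [Real.norm_eq_abs]; exact hC x

lemma chi_intervalIntegrable (v : ℕ) (δ : ℝ) (q : ℤ → Prop) (a b : ℝ) :
    IntervalIntegrable (chi v δ q) volume a b :=
  intervalIntegrable_of_bdd _ (measurable_chi v δ q) 1
    (fun x => by rw [abs_of_nonneg (chi_nonneg v δ q x)]; exact chi_le_one v δ q x) a b

lemma chi_mul_intervalIntegrable (v w : ℕ) (δ : ℝ) (q q' : ℤ → Prop) (a b : ℝ) :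
    IntervalIntegrable (fun x => chi v δ q x * chi w δ q' x) volume a b :=
  intervalIntegrable_of_bdd _ ((measurable_chi v δ q).mul (measurable_chi w δ q')) 1
    (fun x => by
      rw [Pi.mul_apply, abs_of_nonneg (mul_nonneg (chi_nonneg v δ q x) (chi_nonneg w δ q' x))]
      exact mul_le_one₀ (chi_le_one v δ q x) (chi_nonneg w δ q' x) (chi_le_one w δ q' x)) a b

lemma mem_hitSet_near {w : ℕ} (hw : 0 < w) {δ : ℝ} (hδ : δ ≤ 1 / 2) {q : ℤ → Prop} {y : ℝ}
    (hy : |y| < δ) (k : ℕ) : ((k : ℝ) + y) / w ∈ hitSet w δ q ↔ q (k : ℤ) := by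
  have hw0 : (w : ℝ) ≠ 0 := by exact_mod_cast hw.ne'
  rw [mem_hitSet]
  have e : (w : ℝ) * (((k : ℝ) + y) / w) = k + y := by field_simp
  rw [e]
  constructor
  · rintro ⟨z, h1, h2⟩
    have h3 : |((k : ℤ) : ℝ) - z| < 1 := by
      have h4 : ((k : ℤ) : ℝ) - z = (k + y - z) - y := by push_cast; ring
      rw [h4]
      calc |(k + y - z) - y| ≤ |(k : ℝ) + y - z| + |y| := abs_sub _ _
        _ < 1 := by linarith
    have h5 : (k : ℤ) = z := by
      have h6 : |((k : ℤ) - z : ℤ)| < 1 := by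
        have : ((|((k : ℤ) - z : ℤ)| : ℤ) : ℝ) < 1 := by push_cast at h3 ⊢; exact h3
        exact_mod_cast this
      have := Int.abs_lt_one_iff.1 h6
      omega
    rw [h5]; exact h2
  · intro h
    refine ⟨(k : ℤ), ?_, h⟩
    have : (k : ℝ) + y - ((k : ℤ) : ℝ) = y := by push_cast; ring
    rw [this]; exact hy

lemma notMem_hitSet_far {w : ℕ} (hw : 0 < w) {δ : ℝ} (hδ : δ ≤ 1 / 2) {q : ℤ → Prop} {y : ℝ}
    (hy : δ ≤ |y|) (hy2 : |y| ≤ 1 / 2) (k : ℕ) : ((k : ℝ) + y) / w ∉ hitSet w δ q := by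
  have hw0 : (w : ℝ) ≠ 0 := by exact_mod_cast hw.ne'
  rw [mem_hitSet]
  have e : (w : ℝ) * (((k : ℝ) + y) / w) = k + y := by field_simp
  rw [e]
  rintro ⟨z, h1, _⟩
  by_cases h : z = (k : ℤ)
  · subst h
    have : (k : ℝ) + y - ((k : ℤ) : ℝ) = y := by push_cast; ring
    rw [this] at h1
    linarith
  · have h3 : (1 : ℝ) ≤ |((k : ℤ) : ℝ) - z| := by
      have h4 : 1 ≤ |((k : ℤ) - z : ℤ)| := Int.one_le_abs (by omega)
      have : (1 : ℝ) ≤ ((|((k : ℤ) - z : ℤ)| : ℤ) : ℝ) := by exact_mod_cast h4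
      push_cast at this ⊢; exact this
    have h5 : |((k : ℤ) : ℝ) - z| ≤ |(k : ℝ) + y - z| + |y| := by
      have h4 : ((k : ℤ) : ℝ) - z = (k + y - z) - y := by push_cast; ring
      rw [h4]; exact abs_sub _ _
    linarith

open Classical in
/-- The measure of the hit set. -/
lemma integral_chi (v : ℕ) (hv : 0 < v) (δ : ℝ) (hδ0 : 0 < δ) (hδ : δ ≤ 1 / 2) (q : ℤ → Prop)
    (hq : ∀ z m : ℤ, q (z + m * v) ↔ q z) :
    ∫ α in (0 : ℝ)..1, chi v δ q α =
      2 * δ * (((Finset.range v).filter (fun k : ℕ => q (k : ℤ))).card : ℝ) / v := by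
  rw [integral_unfold _ (chi_periodic v δ q hq) (chi_intervalIntegrable v δ q) v hv]
  set B : ℝ := (((Finset.range v).filter (fun k : ℕ => q (k : ℤ))).card : ℝ) with hB
  have h1 : ∫ y in (-(1 / 2) : ℝ)..(1 / 2), ∑ k ∈ Finset.range v, chi v δ q (((k : ℝ) + y) / v) =
      ∫ y in (-(1 / 2) : ℝ)..(1 / 2), (Set.Ioo (-δ) δ).indicator (fun _ => B) y := by
    apply intervalIntegral.integral_congr
    intro y hy
    rw [Set.uIcc_of_le (by norm_num)] at hy
    simp only
    by_cases hyδ : |y| < δ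
    · rw [Set.indicator_of_mem (show y ∈ Set.Ioo (-δ) δ from abs_lt.1 hyδ), hB,
        Finset.card_filter]
      push_cast
      refine Finset.sum_congr rfl fun k _ => ?_
      unfold chi
      by_cases hk : q (k : ℤ)
      · rw [Set.indicator_of_mem ((mem_hitSet_near hv hδ hyδ k).2 hk), if_pos hk]
      · rw [Set.indicator_of_notMem (fun h => hk ((mem_hitSet_near hv hδ hyδ k).1 h)), if_neg hk]
    · rw [Set.indicator_of_notMem (fun h : y ∈ Set.Ioo (-δ) δ => hyδ (abs_lt.2 h))]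
      refine Finset.sum_eq_zero fun k _ => ?_
      unfold chi
      rw [Set.indicator_of_notMem (notMem_hitSet_far hv hδ (not_lt.1 hyδ) (abs_le.2 hy) k)]
  rw [h1, integral_window δ hδ0 hδ]
  ring

/-- The number of nonzero integers `t` with `|t + c| < x`, when `|c| < x`. -/
lemma card_nonzero_le (c x : ℝ) (hcx : |c| < x) :
    ∃ T : Finset ℤ, (∀ t : ℤ, t ≠ 0 → |(t : ℝ) + c| < x → t ∈ T) ∧ (T.card : ℝ) ≤ 2 * x := by
  classical
  have h1 : 0 < x - c := by linarith [(abs_lt.1 hcx).2]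
  have h2 : 0 < x + c := by linarith [(abs_lt.1 hcx).1]
  refine ⟨Finset.Ico 1 ⌈x - c⌉ ∪ (Finset.Ico 1 ⌈x + c⌉).image (fun t => -t), ?_, ?_⟩
  · intro t ht h
    rw [abs_lt] at h
    rw [Finset.mem_union, Finset.mem_image]
    rcases lt_or_gt_of_ne ht with h3 | h3
    · right
      refine ⟨-t, ?_, by ring⟩
      rw [Finset.mem_Ico]
      refine ⟨by omega, ?_⟩
      rw [Int.lt_ceil]
      push_cast
      linarith
    · left
      rw [Finset.mem_Ico]
      refine ⟨by omega, ?_⟩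
      rw [Int.lt_ceil]
      linarith
  · have e1 : ((Finset.Ico 1 ⌈x - c⌉).card : ℝ) ≤ x - c := by
      rw [Int.card_Ico]
      have h3 : 0 ≤ ⌈x - c⌉ - 1 := by
        have : 0 < ⌈x - c⌉ := Int.ceil_pos.2 h1
        omega
      have h4 : (((⌈x - c⌉ - 1).toNat : ℕ) : ℝ) = ((⌈x - c⌉ - 1 : ℤ) : ℝ) := by
        exact_mod_cast Int.toNat_of_nonneg h3
      rw [h4]
      push_cast
      linarith [Int.ceil_lt_add_one (x - c)]
    have e2 : ((Finset.Ico 1 ⌈x + c⌉).card : ℝ) ≤ x + c := by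
      rw [Int.card_Ico]
      have h3 : 0 ≤ ⌈x + c⌉ - 1 := by
        have : 0 < ⌈x + c⌉ := Int.ceil_pos.2 h2
        omega
      have h4 : (((⌈x + c⌉ - 1).toNat : ℕ) : ℝ) = ((⌈x + c⌉ - 1 : ℤ) : ℝ) := by
        exact_mod_cast Int.toNat_of_nonneg h3
      rw [h4]
      push_cast
      linarith [Int.ceil_lt_add_one (x + c)]
    have e3 : ((Finset.Ico 1 ⌈x - c⌉ ∪ (Finset.Ico 1 ⌈x + c⌉).image (fun t => -t)).card : ℝ) ≤
        ((Finset.Ico 1 ⌈x - c⌉).card : ℝ) + ((Finset.Ico 1 ⌈x + c⌉).card : ℝ) := by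
      have h5 := Finset.card_union_le (Finset.Ico 1 ⌈x - c⌉) ((Finset.Ico 1 ⌈x + c⌉).image (fun t => -t))
      have h6 : ((Finset.Ico 1 ⌈x + c⌉).image (fun t => -t)).card ≤ (Finset.Ico 1 ⌈x + c⌉).card :=
        Finset.card_image_le
      exact_mod_cast h5.trans (Nat.add_le_add_left h6 _)
    linarith

/-- For fixed `t`, at most `d` residues `k < d b` satisfy `a k ≡ t (mod b)`. -/
lemma card_congr_le (a b d : ℕ) (hb : 0 < b) (hab : Nat.Coprime a b) (t : ℤ) :
    ((Finset.range (d * b)).filter (fun k : ℕ => (b : ℤ) ∣ (a : ℤ) * k - t)).card ≤ d := by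
  have : ((Finset.range (d * b)).filter (fun k : ℕ => (b : ℤ) ∣ (a : ℤ) * k - t)).card ≤
      (Finset.range d).card := by
    refine Finset.card_le_card_of_injOn (fun k => k / b) ?_ ?_
    · intro k hk
      rw [Finset.mem_coe, Finset.mem_filter, Finset.mem_range] at hk
      rw [Finset.mem_coe, Finset.mem_range]
      exact (Nat.div_lt_iff_lt_mul hb).2 hk.1
    · intro k hk k' hk' h
      rw [Finset.mem_coe, Finset.mem_filter] at hk hk'
      simp only at h
      have h1 : (b : ℤ) ∣ (a : ℤ) * ((k : ℤ) - k') := by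
        have := dvd_sub hk.2 hk'.2
        have e : (a : ℤ) * k - t - ((a : ℤ) * k' - t) = (a : ℤ) * ((k : ℤ) - k') := by ring
        rwa [e] at this
      have h2 : IsCoprime (b : ℤ) (a : ℤ) := (Nat.isCoprime_iff_coprime.2 hab).symm
      have h3 : (b : ℤ) ∣ (k : ℤ) - k' := h2.dvd_of_dvd_mul_left h1
      have h4 : k' ≡ k [MOD b] := (Nat.modEq_iff_dvd).2 h3
      have h5 : k' % b = k % b := h4
      rw [← Nat.div_add_mod k b, ← Nat.div_add_mod k' b, h, h5]
  simpa using this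

open Classical in
/-- **Pair correlation of hits.** -/
theorem joint_le (v w : ℕ) (hv : 0 < v) (hvw : v ≤ w) (δ : ℝ) (hδ0 : 0 < δ) (hδ : δ ≤ 1 / 2)
    (q q' : ℤ → Prop) (hq : ∀ z m : ℤ, q (z + m * v) ↔ q z) (hq' : ∀ z m : ℤ, q' (z + m * w) ↔ q' z)
    (e : ℕ) (he : ((Finset.range w).filter
      (fun k : ℕ => w / Nat.gcd v w ∣ k ∧ q' (k : ℤ))).card ≤ e) :
    ∫ α in (0 : ℝ)..1, chi v δ q α * chi w δ q' α ≤ 4 * δ ^ 2 + 2 * δ * e / w := by
  have hw : 0 < w := lt_of_lt_of_le hv hvw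
  have hw0 : (0 : ℝ) < w := by exact_mod_cast hw
  set d := Nat.gcd v w with hd
  have hd0 : 0 < d := Nat.gcd_pos_of_pos_left _ hv
  set a := v / d with ha
  set b := w / d with hb
  have hva : v = d * a := (Nat.mul_div_cancel' (Nat.gcd_dvd_left v w)).symm
  have hwb : w = d * b := (Nat.mul_div_cancel' (Nat.gcd_dvd_right v w)).symm
  have hab : Nat.Coprime a b := Nat.coprime_div_gcd_div_gcd hd0
  have hb0 : 0 < b := by
    rcases Nat.eq_zero_or_pos b with h | h
    · rw [h] at hwb; omega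
    · exact h
  have hd0' : (0 : ℝ) < d := by exact_mod_cast hd0
  have hb0' : (0 : ℝ) < b := by exact_mod_cast hb0
  have haleb : (a : ℝ) ≤ b := by
    have : a ≤ b := Nat.div_le_div_right hvw
    exact_mod_cast this
  have hper : Function.Periodic (fun α => chi v δ q α * chi w δ q' α) 1 := by
    intro α
    simp only
    rw [chi_periodic v δ q hq α, chi_periodic w δ q' hq' α]
  have hmain := integral_le_of_count (fun α => chi v δ q α * chi w δ q' α) hper
    (chi_mul_intervalIntegrable v w δ q q') w hw δ hδ0 hδ (2 * w * δ + e) ?_ ?_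
  · refine hmain.trans (le_of_eq ?_)
    field_simp
    ring
  · intro y hy
    have hay : |(a : ℝ) * y| < b * δ := by
      rw [abs_mul, abs_of_nonneg (Nat.cast_nonneg a)]
      calc (a : ℝ) * |y| ≤ b * |y| := mul_le_mul_of_nonneg_right haleb (abs_nonneg _)
        _ < b * δ := mul_lt_mul_of_pos_left hy hb0'
    obtain ⟨T, hT1, hT2⟩ := card_nonzero_le ((a : ℝ) * y) (b * δ) hay
    -- the indices contributing to the sum
    set S := (Finset.range w).filter (fun k : ℕ => ((k : ℝ) + y) / w ∈ hitSet v δ q ∧ q' (k : ℤ))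
      with hS
    have h1 : ∑ k ∈ Finset.range w, chi v δ q (((k : ℝ) + y) / w) * chi w δ q' (((k : ℝ) + y) / w) =
        (S.card : ℝ) := by
      rw [hS, Finset.card_filter]
      push_cast
      refine Finset.sum_congr rfl fun k _ => ?_
      unfold chi
      by_cases hk : q' (k : ℤ)
      · rw [Set.indicator_of_mem ((mem_hitSet_near hw hδ hy k).2 hk), mul_one]
        by_cases hk2 : ((k : ℝ) + y) / w ∈ hitSet v δ q
        · rw [Set.indicator_of_mem hk2, if_pos ⟨hk2, hk⟩]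
        · rw [Set.indicator_of_notMem hk2, if_neg (fun h => hk2 h.1)]
      · rw [Set.indicator_of_notMem (fun h => hk ((mem_hitSet_near hw hδ hy k).1 h)), mul_zero,
          if_neg (fun h => hk h.2)]
    have h2 : S ⊆ ((Finset.range w).filter (fun k : ℕ => b ∣ k ∧ q' (k : ℤ))) ∪
        T.biUnion (fun t => (Finset.range (d * b)).filter (fun k : ℕ => (b : ℤ) ∣ (a : ℤ) * k - t)) := by
      intro k hk
      rw [hS, Finset.mem_filter] at hk
      obtain ⟨hkw, ⟨z, hz, _⟩, hqk⟩ := hk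
      rw [Finset.mem_union, Finset.mem_biUnion]
      -- `t = a k - b z`
      have hz2 : |(((a : ℤ) * k - b * z : ℤ) : ℝ) + a * y| < b * δ := by
        have e1 : (((a : ℤ) * k - b * z : ℤ) : ℝ) + a * y =
            b * ((v : ℝ) * (((k : ℝ) + y) / w) - z) := by
          have hv' : (v : ℝ) = d * a := by exact_mod_cast hva
          have hw' : (w : ℝ) = d * b := by exact_mod_cast hwb
          rw [hv', hw']
          push_cast
          field_simp
          ring
        rw [e1, abs_mul, abs_of_pos hb0']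
        exact mul_lt_mul_of_pos_left hz hb0'
      by_cases ht : (a : ℤ) * k - b * z = 0
      · left
        rw [Finset.mem_filter]
        refine ⟨hkw, ?_, hqk⟩
        have h3 : (b : ℤ) ∣ (a : ℤ) * k := ⟨z, by linarith⟩
        have h4 : IsCoprime (b : ℤ) (a : ℤ) := (Nat.isCoprime_iff_coprime.2 hab).symm
        exact_mod_cast h4.dvd_of_dvd_mul_left h3
      · right
        refine ⟨_, hT1 _ ht hz2, ?_⟩
        rw [Finset.mem_filter, ← hwb]
        refine ⟨hkw, ⟨z, by ring⟩⟩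
    have h3 : (S.card : ℝ) ≤ e + T.card * d := by
      have h4 := (Finset.card_le_card h2).trans (Finset.card_union_le _ _)
      have h5 : (T.biUnion (fun t => (Finset.range (d * b)).filter
          (fun k : ℕ => (b : ℤ) ∣ (a : ℤ) * k - t))).card ≤ T.card * d := by
        refine Finset.card_biUnion_le.trans ?_
        calc _ ≤ ∑ _t ∈ T, d := Finset.sum_le_sum fun t _ => card_congr_le a b d hb0 hab t
          _ = T.card * d := by rw [Finset.sum_const, smul_eq_mul]
      exact_mod_cast h4.trans (Nat.add_le_add he h5)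
    rw [h1]
    have hw' : (w : ℝ) = d * b := by exact_mod_cast hwb
    calc (S.card : ℝ) ≤ e + T.card * d := h3
      _ ≤ e + (2 * (b * δ)) * d := by gcongr
      _ = 2 * w * δ + e := by rw [hw']; ring
  · intro y hy1 hy2
    refine le_of_eq (Finset.sum_eq_zero fun k _ => ?_)
    have : chi w δ q' (((k : ℝ) + y) / w) = 0 := by
      unfold chi
      exact Set.indicator_of_notMem (notMem_hitSet_far hw hδ hy1 hy2 k) _
    rw [this, mul_zero]

end Pool.Agent.Helper29.PPC
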