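import Mathlib
import Pool.Agent.Helper29.PpcAlg

set_option autoImplicit false

open Finset

namespace Pool.Agent.Helper29.PPC

/-- The divisor function on positive integers, as a real number. -/
noncomputable def dv (n : ℕ+) : ℝ := ((n : ℕ).divisors.card : ℝ)

lemma dv_nonneg (n : ℕ+) : 0 ≤ dv n := Nat.cast_nonneg _

lemma dv_mul_le (a b : ℕ+) : dv (a * b) ≤ dv a * dv b := by
  unfold dv
  rw [PNat.mul_coe, Nat.divisors_mul]
  exact_mod_cast Finset.card_mul_le

/-- Weighted square norm with weight `d(n)^j`. -/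
noncomputable def NN (j : ℕ) (x : MonoidAlgebra ℝ ℕ+) : ℝ :=
  ∑ n ∈ x.coeff.support, x.coeff n ^ 2 * dv n ^ j

lemma NN_nonneg (j : ℕ) (x : MonoidAlgebra ℝ ℕ+) : 0 ≤ NN j x :=
  Finset.sum_nonneg fun n _ => mul_nonneg (sq_nonneg _) (pow_nonneg (dv_nonneg n) _)

lemma coeff_mul_eq (x y : MonoidAlgebra ℝ ℕ+) (n : ℕ+) :
    (x * y).coeff n = ∑ p ∈ (x.coeff.support ×ˢ y.coeff.support).filter (fun p => p.1 * p.2 = n),
      x.coeff p.1 * y.coeff p.2 := by
  classical
  rw [MonoidAlgebra.coeff_mul, Finset.sum_filter, Finset.sum_product]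
  rfl

lemma card_fiber_le (S T : Finset ℕ+) (n : ℕ+) :
    (((S ×ˢ T).filter (fun p => p.1 * p.2 = n)).card : ℝ) ≤ dv n := by
  unfold dv
  norm_cast
  refine Finset.card_le_card_of_injOn (fun p => (p.1 : ℕ)) ?_ ?_
  · intro p hp
    rw [Finset.mem_coe, Finset.mem_filter] at hp
    rw [Finset.mem_coe, Nat.mem_divisors]
    refine ⟨⟨(p.2 : ℕ), ?_⟩, n.ne_zero⟩
    rw [← PNat.mul_coe, hp.2]
  · intro p hp q hq h
    rw [Finset.mem_coe, Finset.mem_filter] at hp hq
    have h1 : p.1 = q.1 := PNat.coe_injective h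
    have h2 : p.1 * p.2 = p.1 * q.2 := by rw [hp.2, h1, hq.2]
    exact Prod.ext h1 (mul_left_cancel h2)

lemma NN_mul_self_le (j : ℕ) (x : MonoidAlgebra ℝ ℕ+) : NN j (x * x) ≤ NN (j + 1) x ^ 2 := by
  classical
  set S := x.coeff.support with hS
  have h1 : ∀ n, (x * x).coeff n ^ 2 * dv n ^ j ≤
      ∑ p ∈ (S ×ˢ S).filter (fun p => p.1 * p.2 = n),
        (x.coeff p.1 ^ 2 * dv p.1 ^ (j + 1)) * (x.coeff p.2 ^ 2 * dv p.2 ^ (j + 1)) := by
    intro n
    rw [coeff_mul_eq, ← hS]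
    have hcs := sq_sum_le_card_mul_sum_sq (s := (S ×ˢ S).filter (fun p => p.1 * p.2 = n))
      (f := fun p => x.coeff p.1 * x.coeff p.2)
    have hc := card_fiber_le S S n
    have hnn : 0 ≤ ∑ p ∈ (S ×ˢ S).filter (fun p => p.1 * p.2 = n),
        (x.coeff p.1 * x.coeff p.2) ^ 2 := Finset.sum_nonneg fun _ _ => sq_nonneg _
    calc _ ≤ (dv n * ∑ p ∈ (S ×ˢ S).filter (fun p => p.1 * p.2 = n),
        (x.coeff p.1 * x.coeff p.2) ^ 2) * dv n ^ j := by
          refine mul_le_mul_of_nonneg_right ?_ (pow_nonneg (dv_nonneg n) _)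
          exact hcs.trans (mul_le_mul_of_nonneg_right hc hnn)
      _ = ∑ p ∈ (S ×ˢ S).filter (fun p => p.1 * p.2 = n),
        (x.coeff p.1 * x.coeff p.2) ^ 2 * dv n ^ (j + 1) := by
          rw [← Finset.sum_mul]; ring
      _ ≤ _ := by
          refine Finset.sum_le_sum fun p hp => ?_
          rw [Finset.mem_filter] at hp
          rw [← hp.2, mul_pow]
          have h2 : dv (p.1 * p.2) ^ (j + 1) ≤ dv p.1 ^ (j + 1) * dv p.2 ^ (j + 1) := by
            rw [← mul_pow]
            exact pow_le_pow_left₀ (dv_nonneg _) (dv_mul_le _ _) _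
          calc x.coeff p.1 ^ 2 * x.coeff p.2 ^ 2 * dv (p.1 * p.2) ^ (j + 1)
              ≤ x.coeff p.1 ^ 2 * x.coeff p.2 ^ 2 * (dv p.1 ^ (j + 1) * dv p.2 ^ (j + 1)) := by
                gcongr
            _ = _ := by ring
  calc NN j (x * x) ≤ ∑ n ∈ (x * x).coeff.support,
        ∑ p ∈ (S ×ˢ S).filter (fun p => p.1 * p.2 = n),
        (x.coeff p.1 ^ 2 * dv p.1 ^ (j + 1)) * (x.coeff p.2 ^ 2 * dv p.2 ^ (j + 1)) :=
        Finset.sum_le_sum fun n _ => h1 n
    _ ≤ ∑ p ∈ S ×ˢ S,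
        (x.coeff p.1 ^ 2 * dv p.1 ^ (j + 1)) * (x.coeff p.2 ^ 2 * dv p.2 ^ (j + 1)) := by
        simp_rw [Finset.sum_filter]
        rw [Finset.sum_comm]
        refine Finset.sum_le_sum fun p _ => ?_
        have h0 : 0 ≤ (x.coeff p.1 ^ 2 * dv p.1 ^ (j + 1)) * (x.coeff p.2 ^ 2 * dv p.2 ^ (j + 1)) :=
          mul_nonneg (mul_nonneg (sq_nonneg _) (pow_nonneg (dv_nonneg _) _))
            (mul_nonneg (sq_nonneg _) (pow_nonneg (dv_nonneg _) _))
        rw [Finset.sum_ite_eq]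
        split_ifs
        · exact le_refl _
        · exact h0
    _ = NN (j + 1) x ^ 2 := by
        rw [Finset.sum_product, sq]
        unfold NN
        rw [Finset.sum_mul_sum]

lemma NN_pow_le (i j : ℕ) (x : MonoidAlgebra ℝ ℕ+) :
    NN j (x ^ (2 ^ i)) ≤ NN (j + i) x ^ (2 ^ i) := by
  induction i generalizing j with
  | zero => simp
  | succ i ih =>
    rw [pow_succ 2 i, pow_mul, sq]
    calc NN j (x ^ 2 ^ i * x ^ 2 ^ i) ≤ NN (j + 1) (x ^ 2 ^ i) ^ 2 := NN_mul_self_le _ _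
      _ ≤ (NN (j + 1 + i) x ^ 2 ^ i) ^ 2 := by
          have := NN_nonneg (j + 1) (x ^ 2 ^ i)
          gcongr
          exact ih (j + 1)
      _ = NN (j + (i + 1)) x ^ (2 ^ i * 2) := by
          rw [← pow_mul]; congr 2; ring

open scoped Pointwise in
/-- `∑_{n ≤ Z} d(n)^i / n ≤ H_Z^(2^i)`. -/
lemma sum_dv_le (i Z : ℕ) :
    ∑ n ∈ Finset.Icc 1 Z, ((n.divisors.card : ℝ)) ^ i / n ≤
      (∑ n ∈ Finset.Icc 1 Z, (1 : ℝ) / n) ^ (2 ^ i) := by
  classical
  induction i with
  | zero => simp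
  | succ i ih =>
    have hnn : 0 ≤ ∑ n ∈ Finset.Icc 1 Z, ((n.divisors.card : ℝ)) ^ i / n :=
      Finset.sum_nonneg fun n _ => by positivity
    have hcard : ∀ n ∈ Finset.Icc 1 Z, (n.divisors.card : ℝ) ≤
        (((Finset.Icc 1 Z ×ˢ Finset.Icc 1 Z).filter (fun p => p.1 * p.2 = n)).card : ℝ) := by
      intro n hn
      rw [Finset.mem_Icc] at hn
      norm_cast
      refine Finset.card_le_card_of_injOn (fun a => (a, n / a)) ?_ ?_
      · intro a ha
        rw [Finset.mem_coe, Nat.mem_divisors] at ha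
        have ha0 : 0 < a := Nat.pos_of_dvd_of_pos ha.1 (by omega)
        have ha1 : a ≤ n := Nat.le_of_dvd (by omega) ha.1
        have hb1 : n / a ≤ n := Nat.div_le_self _ _
        have hb0 : 0 < n / a := Nat.div_pos ha1 ha0
        simp only [Finset.coe_filter, Finset.mem_product, Finset.mem_Icc, Set.mem_ofPred_eq]
        refine ⟨⟨⟨ha0, ha1.trans hn.2⟩, hb0, hb1.trans hn.2⟩, Nat.mul_div_cancel' ha.1⟩
      · intro a _ b _ h
        exact (Prod.mk.inj h).1
    calc ∑ n ∈ Finset.Icc 1 Z, ((n.divisors.card : ℝ)) ^ (i + 1) / n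
        ≤ ∑ n ∈ Finset.Icc 1 Z,
          ∑ p ∈ (Finset.Icc 1 Z ×ˢ Finset.Icc 1 Z).filter (fun p => p.1 * p.2 = n),
            ((n.divisors.card : ℝ)) ^ i / n := by
          refine Finset.sum_le_sum fun n hn => ?_
          rw [Finset.sum_const, nsmul_eq_mul]
          have h5 : ((n.divisors.card : ℝ)) ^ (i + 1) / n =
              (n.divisors.card : ℝ) * (((n.divisors.card : ℝ)) ^ i / n) := by
            rw [pow_succ]; ring
          rw [h5]
          exact mul_le_mul_of_nonneg_right (hcard n hn) (by positivity)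
      _ ≤ ∑ n ∈ Finset.Icc 1 Z,
          ∑ p ∈ (Finset.Icc 1 Z ×ˢ Finset.Icc 1 Z).filter (fun p => p.1 * p.2 = n),
          (((p.1.divisors.card : ℝ)) ^ i / p.1) * (((p.2.divisors.card : ℝ)) ^ i / p.2) := by
          refine Finset.sum_le_sum fun n hn => Finset.sum_le_sum fun p hp => ?_
          rw [Finset.mem_filter] at hp
          rw [← hp.2, Nat.divisors_mul, div_mul_div_comm, ← mul_pow]
          push_cast
          have : ((p.1.divisors * p.2.divisors).card : ℝ) ≤ p.1.divisors.card * p.2.divisors.card := by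
            exact_mod_cast Finset.card_mul_le
          gcongr
      _ ≤ ∑ p ∈ Finset.Icc 1 Z ×ˢ Finset.Icc 1 Z,
          (((p.1.divisors.card : ℝ)) ^ i / p.1) * (((p.2.divisors.card : ℝ)) ^ i / p.2) := by
          simp_rw [Finset.sum_filter]
          rw [Finset.sum_comm]
          refine Finset.sum_le_sum fun p _ => ?_
          have h0 : 0 ≤ (((p.1.divisors.card : ℝ)) ^ i / p.1) *
              (((p.2.divisors.card : ℝ)) ^ i / p.2) := by positivity
          rw [Finset.sum_ite_eq]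
          split_ifs
          · exact le_refl _
          · exact h0
      _ = (∑ n ∈ Finset.Icc 1 Z, ((n.divisors.card : ℝ)) ^ i / n) ^ 2 := by
          rw [Finset.sum_product, sq, Finset.sum_mul_sum]
      _ ≤ ((∑ n ∈ Finset.Icc 1 Z, (1 : ℝ) / n) ^ (2 ^ i)) ^ 2 := by gcongr
      _ = _ := by rw [← pow_mul, ← pow_succ]

/-- A positive integer built from a natural number, `1` when the number is zero. -/
def pn (u : ℕ) : ℕ+ := ⟨u + 1, Nat.succ_pos u⟩

lemma pn_coe (u : ℕ) : ((pn u : ℕ+) : ℕ) = u + 1 := rfl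

lemma pn_inj : Function.Injective pn := by
  intro a b h
  have := congrArg (fun x : ℕ+ => (x : ℕ)) h
  simp only [pn_coe] at this
  omega

/-- `∑_{1 ≤ u ≤ Z} u^{-1/2} [u]` in the monoid algebra of the positive integers. -/
noncomputable def mN (Z : ℕ) : MonoidAlgebra ℝ ℕ+ :=
  ∑ u ∈ Finset.range Z, MonoidAlgebra.single (pn u) (1 / Real.sqrt ((u : ℝ) + 1))

lemma coeff_mN (Z : ℕ) (n : ℕ+) :
    (mN Z).coeff n = if (n : ℕ) ≤ Z then 1 / Real.sqrt (n : ℝ) else 0 := by
  classical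
  unfold mN
  rw [MonoidAlgebra.coeff_sum, Finsupp.finsetSum_apply]
  simp only [MonoidAlgebra.coeff_single, Finsupp.single_apply]
  by_cases h : (n : ℕ) ≤ Z
  · rw [if_pos h]
    have hn : pn ((n : ℕ) - 1) = n := by
      apply PNat.coe_injective
      rw [pn_coe]
      have := n.pos
      omega
    rw [Finset.sum_eq_single ((n : ℕ) - 1)]
    · rw [if_pos hn]
      congr 2
      have := n.pos
      have h2 : ((n : ℕ) - 1 + 1 : ℕ) = (n : ℕ) := by omega
      have h3 : (((n : ℕ) - 1 : ℕ) : ℝ) + 1 = ((n : ℕ) : ℝ) := by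
        rw [← h2]; push_cast; simp
      exact h3
    · intro b _ hb
      rw [if_neg]
      intro h2
      apply hb
      rw [← h2, pn_coe]; simp
    · intro h2
      exfalso
      apply h2
      rw [Finset.mem_range]
      have := n.pos
      omega
  · rw [if_neg h]
    refine Finset.sum_eq_zero fun u hu => ?_
    rw [if_neg]
    intro h2
    apply h
    rw [← h2, pn_coe]
    rw [Finset.mem_range] at hu
    omega

lemma NN_mN (i Z : ℕ) :
    NN i (mN Z) ≤ ∑ n ∈ Finset.Icc 1 Z, ((n.divisors.card : ℝ)) ^ i / n := by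
  classical
  unfold NN
  have hinj : Set.InjOn (fun n : ℕ+ => (n : ℕ)) (mN Z).coeff.support := by
    intro a _ b _ h
    exact PNat.coe_injective h
  have h1 : ∀ n ∈ (mN Z).coeff.support, (n : ℕ) ∈ Finset.Icc 1 Z := by
    intro n hn
    rw [Finsupp.mem_support_iff, coeff_mN] at hn
    rw [Finset.mem_Icc]
    refine ⟨n.pos, ?_⟩
    by_contra h
    exact hn (if_neg h)
  calc ∑ n ∈ (mN Z).coeff.support, (mN Z).coeff n ^ 2 * dv n ^ i
      = ∑ n ∈ (mN Z).coeff.support, ((((n : ℕ)).divisors.card : ℝ)) ^ i / (n : ℕ) := by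
        refine Finset.sum_congr rfl fun n hn => ?_
        have h2 := h1 n hn
        rw [Finset.mem_Icc] at h2
        rw [coeff_mN, if_pos h2.2, div_pow, one_pow, Real.sq_sqrt (by positivity)]
        unfold dv
        ring
    _ = ∑ n ∈ (mN Z).coeff.support.image (fun n : ℕ+ => (n : ℕ)),
          ((n.divisors.card : ℝ)) ^ i / (n : ℝ) := by
        rw [Finset.sum_image hinj]
    _ ≤ _ := by
        refine Finset.sum_le_sum_of_subset_of_nonneg ?_ ?_
        · intro n hn
          rw [Finset.mem_image] at hn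
          obtain ⟨a, ha, rfl⟩ := hn
          exact h1 a ha
        · intro n _ _
          positivity

lemma NN_mN_pow (i Z : ℕ) :
    NN 0 (mN Z ^ (2 ^ i)) ≤ (∑ n ∈ Finset.Icc 1 Z, (1 : ℝ) / n) ^ (2 ^ i * 2 ^ i) := by
  calc NN 0 (mN Z ^ (2 ^ i)) ≤ NN (0 + i) (mN Z) ^ (2 ^ i) := NN_pow_le _ _ _
    _ ≤ ((∑ n ∈ Finset.Icc 1 Z, (1 : ℝ) / n) ^ (2 ^ i)) ^ (2 ^ i) := by
        rw [zero_add]
        have h0 := NN_nonneg i (mN Z)
        gcongr
        exact (NN_mN i Z).trans (sum_dv_le i Z)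
    _ = _ := by rw [← pow_mul]

section Transfer

variable {G : Type*} [CommGroup G]

lemma ip_map (φ : ℕ+ →* G) (hφ : Function.Injective φ) (x : MonoidAlgebra ℝ ℕ+) :
    ip (MonoidAlgebra.mapDomainRingHom ℝ φ x) (MonoidAlgebra.mapDomainRingHom ℝ φ x) = NN 0 x := by
  classical
  have hx : MonoidAlgebra.mapDomainRingHom ℝ φ x =
      ∑ n ∈ x.coeff.support, MonoidAlgebra.single (φ n) (x.coeff n) := by
    conv_lhs => rw [← MonoidAlgebra.sum_coeff_single x]
    unfold Finsupp.sum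
    rw [map_sum]
    refine Finset.sum_congr rfl fun n _ => ?_
    simp
  rw [hx, ip_sum_left]
  unfold NN
  refine Finset.sum_congr rfl fun n hn => ?_
  rw [ip_sum_right, Finset.sum_eq_single n]
  · rw [ip_single_single, if_pos rfl]; ring
  · intro b _ hb
    rw [ip_single_single, if_neg]
    intro h
    exact hb (hφ h).symm
  · intro h; exact absurd hn h

end Transfer

end Pool.Agent.Helper29.PPC
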