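import Mathlib

set_option autoImplicit false

open Finset

namespace Pool.Agent.Helper29.PPC

section Lines

variable (A : Finset ℕ)

/-- Rank of `x` in `A`. -/
def rk (x : ℕ) : ℕ := (A.filter (· < x)).card

lemma rk_mono {x y : ℕ} (h : x ≤ y) : rk A x ≤ rk A y := by
  apply Finset.card_le_card
  intro a ha
  rw [Finset.mem_filter] at ha ⊢
  exact ⟨ha.1, lt_of_lt_of_le ha.2 h⟩

lemma rk_lt_of_lt {x y : ℕ} (hx : x ∈ A) (h : x < y) : rk A x < rk A y := by
  apply Finset.card_lt_card
  rw [Finset.ssubset_iff_of_subset]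
  · refine ⟨x, ?_, ?_⟩
    · rw [Finset.mem_filter]; exact ⟨hx, h⟩
    · rw [Finset.mem_filter]; exact fun h2 => lt_irrefl _ h2.2
  · intro a ha
    rw [Finset.mem_filter] at ha ⊢
    exact ⟨ha.1, ha.2.trans h⟩

lemma rk_inj {x y : ℕ} (hx : x ∈ A) (hy : y ∈ A) (h : rk A x = rk A y) : x = y := by
  rcases lt_trichotomy x y with h1 | h1 | h1
  · exact absurd h (rk_lt_of_lt A hx h1).ne
  · exact h1
  · exact absurd h (rk_lt_of_lt A hy h1).ne'

lemma rk_lt {x : ℕ} (hx : x ∈ A) : rk A x < A.card := by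
  apply Finset.card_lt_card
  rw [Finset.ssubset_iff_of_subset (Finset.filter_subset _ _)]
  exact ⟨x, hx, by rw [Finset.mem_filter]; exact fun h2 => lt_irrefl _ h2.2⟩

/-- Block index of `x`, with blocks of `q` consecutive elements. -/
def blk (q x : ℕ) : ℕ := rk A x / q

lemma blk_mono (q : ℕ) {x y : ℕ} (h : x ≤ y) : blk A q x ≤ blk A q y :=
  Nat.div_le_div_right (rk_mono A h)

lemma card_block_le (q : ℕ) (hq : 0 < q) (b : ℕ) :
    (A.filter (fun y => blk A q y = b)).card ≤ q := by
  have h : (A.filter (fun y => blk A q y = b)).card ≤ (Finset.Ico (q * b) (q * b + q)).card := by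
    refine Finset.card_le_card_of_injOn (fun y => rk A y) ?_ ?_
    · intro y hy
      rw [Finset.mem_coe, Finset.mem_filter] at hy
      rw [Finset.mem_coe, Finset.mem_Ico]
      have h2 := hy.2
      unfold blk at h2
      constructor
      · rw [← h2]; exact Nat.mul_div_le _ _
      · have h3 := Nat.lt_mul_div_succ (rk A y) hq
        rw [h2] at h3
        change rk A y < q * b + q
        calc rk A y < q * (b + 1) := h3
          _ = q * b + q := by ring
    · intro x hx y hy h
      rw [Finset.mem_coe, Finset.mem_filter] at hx hy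
      exact rk_inj A hx.1 hy.1 h
  simpa using h

/-- Pairs of distinct points of the grid in a common cell. -/
def cellPairs (q : ℕ) : Finset ((ℕ × ℕ) × (ℕ × ℕ)) :=
  ((A ×ˢ A) ×ˢ (A ×ˢ A)).filter (fun z => z.1 ≠ z.2 ∧ blk A q z.1.1 = blk A q z.2.1 ∧
    blk A q z.1.2 = blk A q z.2.2)

lemma card_cellPairs_le (q : ℕ) (hq : 0 < q) : (cellPairs A q).card ≤ A.card ^ 2 * q ^ 2 := by
  classical
  have h1 : cellPairs A q ⊆ (A ×ˢ A).biUnion (fun u =>
      ((A.filter (fun y => blk A q y = blk A q u.1)) ×ˢ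
        (A.filter (fun y => blk A q y = blk A q u.2))).image (fun w => (u, w))) := by
    intro z hz
    unfold cellPairs at hz
    rw [Finset.mem_filter, Finset.mem_product] at hz
    obtain ⟨⟨hz1, hz2⟩, -, h3, h4⟩ := hz
    rw [Finset.mem_biUnion]
    refine ⟨z.1, hz1, ?_⟩
    rw [Finset.mem_image]
    refine ⟨z.2, ?_, rfl⟩
    rw [Finset.mem_product] at hz2
    rw [Finset.mem_product, Finset.mem_filter, Finset.mem_filter]
    exact ⟨⟨hz2.1, h3.symm⟩, ⟨hz2.2, h4.symm⟩⟩
  calc (cellPairs A q).card ≤ _ := Finset.card_le_card h1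
    _ ≤ ∑ u ∈ A ×ˢ A, (((A.filter (fun y => blk A q y = blk A q u.1)) ×ˢ
        (A.filter (fun y => blk A q y = blk A q u.2))).image (fun w => (u, w))).card :=
        Finset.card_biUnion_le
    _ ≤ ∑ u ∈ A ×ˢ A, q ^ 2 := by
        refine Finset.sum_le_sum fun u _ => ?_
        refine Finset.card_image_le.trans ?_
        rw [Finset.card_product, sq]
        exact Nat.mul_le_mul (card_block_le A q hq _) (card_block_le A q hq _)
    _ = A.card ^ 2 * q ^ 2 := by
        rw [Finset.sum_const, Finset.card_product, smul_eq_mul]; ring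

/-- Points of the grid on the line `y = ℓ.1 * x + ℓ.2`. -/
def pts (l : ℚ × ℚ) : Finset (ℕ × ℕ) :=
  (A ×ˢ A).filter (fun u => (u.2 : ℚ) = l.1 * u.1 + l.2)

/-- Pairs of distinct points on a line in a common cell. -/
def linePairs (q : ℕ) (l : ℚ × ℚ) : Finset ((ℕ × ℕ) × (ℕ × ℕ)) :=
  (pts A l ×ˢ pts A l).filter (fun z => z.1 ≠ z.2 ∧ blk A q z.1.1 = blk A q z.2.1 ∧
    blk A q z.1.2 = blk A q z.2.2)

lemma mem_pts {l : ℚ × ℚ} {u : ℕ × ℕ} :
    u ∈ pts A l ↔ (u.1 ∈ A ∧ u.2 ∈ A) ∧ (u.2 : ℚ) = l.1 * u.1 + l.2 := by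
  unfold pts
  rw [Finset.mem_filter, Finset.mem_product]

lemma sum_linePairs_le (q : ℕ) (L : Finset (ℚ × ℚ)) :
    ∑ l ∈ L, (linePairs A q l).card ≤ (cellPairs A q).card := by
  classical
  rw [← Finset.card_biUnion]
  · apply Finset.card_le_card
    intro z hz
    rw [Finset.mem_biUnion] at hz
    obtain ⟨l, _, hl⟩ := hz
    unfold linePairs at hl
    unfold cellPairs
    rw [Finset.mem_filter, Finset.mem_product] at hl ⊢
    refine ⟨⟨?_, ?_⟩, hl.2⟩
    · exact (Finset.mem_filter.1 hl.1.1).1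
    · exact (Finset.mem_filter.1 hl.1.2).1
  · intro l _ l' _ hne
    rw [Function.onFun, Finset.disjoint_left]
    intro z hz hz'
    apply hne
    unfold linePairs at hz hz'
    rw [Finset.mem_filter, Finset.mem_product, mem_pts, mem_pts] at hz hz'
    obtain ⟨⟨⟨_, h1⟩, ⟨_, h2⟩⟩, hne1, _⟩ := hz
    obtain ⟨⟨⟨_, h3⟩, ⟨_, h4⟩⟩, _⟩ := hz'
    have hx : (z.1.1 : ℚ) ≠ z.2.1 := by
      intro hx
      apply hne1
      have h5 : (z.1.2 : ℚ) = z.2.2 := by rw [h1, h2, hx]
      refine Prod.ext ?_ ?_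
      · exact_mod_cast hx
      · exact_mod_cast h5
    have h6 : (l.1 - l'.1) * ((z.1.1 : ℚ) - z.2.1) = 0 := by
      have e1 : l.1 * z.1.1 + l.2 = l'.1 * z.1.1 + l'.2 := by rw [← h1, ← h3]
      have e2 : l.1 * z.2.1 + l.2 = l'.1 * z.2.1 + l'.2 := by rw [← h2, ← h4]
      linear_combination e1 - e2
    have h7 : l.1 = l'.1 := by
      rcases mul_eq_zero.1 h6 with h | h
      · linarith
      · exact absurd (by linarith) hx
    have h8 : l.2 = l'.2 := by
      rw [h7] at h1
      linarith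
    exact Prod.ext h7 h8

/-- Along a line of positive slope, a common key forces a common cell. -/
lemma sq_card_pts_le (q s : ℕ) (hs : ∀ x ∈ A, blk A q x < s) (l : ℚ × ℚ) (hl : 0 < l.1) :
    (pts A l).card ^ 2 ≤ 2 * s * ((pts A l).card + (linePairs A q l).card) := by
  classical
  set key : ℕ × ℕ → ℕ := fun u => blk A q u.1 + blk A q u.2 with hkey
  have hmaps : ∀ u ∈ pts A l, key u ∈ Finset.range (2 * s) := by
    intro u hu
    rw [mem_pts] at hu
    rw [Finset.mem_range]
    have h1 := hs _ hu.1.1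
    have h2 := hs _ hu.1.2
    simp only [hkey]
    omega
  have hcard : (pts A l).card = ∑ b ∈ Finset.range (2 * s),
      ((pts A l).filter (fun u => key u = b)).card :=
    Finset.card_eq_sum_card_fiberwise hmaps
  have hcs := sq_sum_le_card_mul_sum_sq (s := Finset.range (2 * s))
      (f := fun b => ((pts A l).filter (fun u => key u = b)).card)
  rw [← hcard, Finset.card_range] at hcs
  refine hcs.trans (Nat.mul_le_mul_left _ ?_)
  have hsame : ∀ u ∈ pts A l, ∀ w ∈ pts A l, key u = key w →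
      blk A q u.1 = blk A q w.1 ∧ blk A q u.2 = blk A q w.2 := by
    have aux : ∀ u ∈ pts A l, ∀ w ∈ pts A l, u.1 ≤ w.1 → key u = key w →
        blk A q u.1 = blk A q w.1 ∧ blk A q u.2 = blk A q w.2 := by
      intro u hu w hw huw hk
      rw [mem_pts] at hu hw
      have h2 : u.2 ≤ w.2 := by
        have h3 : (u.2 : ℚ) ≤ w.2 := by
          rw [hu.2, hw.2]
          have : (u.1 : ℚ) ≤ w.1 := by exact_mod_cast huw
          nlinarith
        exact_mod_cast h3
      have h4 := blk_mono A q huw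
      have h5 := blk_mono A q h2
      simp only [hkey] at hk
      omega
    intro u hu w hw hk
    rcases le_total u.1 w.1 with h | h
    · exact aux u hu w hw h hk
    · have := aux w hw u hu h hk.symm
      exact ⟨this.1.symm, this.2.symm⟩
  have h1 : ∑ b ∈ Finset.range (2 * s), ((pts A l).filter (fun u => key u = b)).card ^ 2 =
      (((Finset.range (2 * s)).sigma (fun b => ((pts A l).filter (fun u => key u = b)) ×ˢ
        ((pts A l).filter (fun u => key u = b))))).card := by
    rw [Finset.card_sigma]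
    refine Finset.sum_congr rfl fun b _ => ?_
    rw [Finset.card_product, sq]
  rw [h1]
  have h2 : (((Finset.range (2 * s)).sigma (fun b => ((pts A l).filter (fun u => key u = b)) ×ˢ
        ((pts A l).filter (fun u => key u = b))))).card ≤
      ((pts A l).image (fun u => (u, u)) ∪ linePairs A q l).card := by
    refine Finset.card_le_card_of_injOn (fun z => z.2) ?_ ?_
    · intro z hz
      rw [Finset.mem_coe, Finset.mem_sigma, Finset.mem_product, Finset.mem_filter,
        Finset.mem_filter] at hz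
      rw [Finset.mem_coe, Finset.mem_union]
      by_cases h : z.2.1 = z.2.2
      · left
        rw [Finset.mem_image]
        exact ⟨z.2.1, hz.2.1.1, Prod.ext rfl h⟩
      · right
        unfold linePairs
        rw [Finset.mem_filter, Finset.mem_product]
        refine ⟨⟨hz.2.1.1, hz.2.2.1⟩, h, ?_⟩
        exact hsame _ hz.2.1.1 _ hz.2.2.1 (hz.2.1.2.trans hz.2.2.2.symm)
    · intro z hz z' hz' h
      rw [Finset.mem_coe, Finset.mem_sigma, Finset.mem_product, Finset.mem_filter,
        Finset.mem_filter] at hz hz'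
      have hb : z.1 = z'.1 := by
        rw [← hz.2.1.2, ← hz'.2.1.2]
        simp only at h
        rw [h]
      exact Sigma.ext hb (heq_of_eq h)
  refine h2.trans ((Finset.card_union_le _ _).trans ?_)
  exact Nat.add_le_add_right Finset.card_image_le _

/-- Third moment bound for the lines of positive slope meeting the grid in at least two points. -/
lemma sum_cube_le (L : Finset (ℚ × ℚ)) (hL : ∀ l ∈ L, 0 < l.1 ∧ 2 ≤ (pts A l).card) :
    ∑ l ∈ L, (pts A l).card ^ 3 ≤ 128 * A.card ^ 4 * (Nat.log 2 A.card + 1) := by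
  classical
  rcases Nat.eq_zero_or_pos A.card with hA0 | hA0
  · have hA : A = ∅ := Finset.card_eq_zero.1 hA0
    have : ∀ l ∈ L, (pts A l).card ^ 3 = 0 := by
      intro l _
      have : pts A l = ∅ := by unfold pts; rw [hA]; rfl
      rw [this]; rfl
    rw [Finset.sum_congr rfl this]
    simp
  set N := A.card with hN
  set T := Nat.log 2 N + 1 with hT
  have hblk : ∀ i, ∀ x ∈ A, blk A (N / 2 ^ i + 1) x < 2 ^ i := by
    intro i x hx
    unfold blk
    rw [Nat.div_lt_iff_lt_mul (Nat.succ_pos _)]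
    have h1 := rk_lt A hx
    have h2 := Nat.lt_mul_div_succ N (show 0 < 2 ^ i by positivity)
    rw [← hN] at h1
    calc rk A x < N := h1
      _ < 2 ^ i * (N / 2 ^ i + 1) := h2
  have hn_le : ∀ l ∈ L, (pts A l).card ≤ N := by
    intro l hl
    have : (pts A l).card ≤ A.card := by
      refine Finset.card_le_card_of_injOn (fun u => u.1) ?_ ?_
      · intro u hu
        rw [Finset.mem_coe, mem_pts] at hu
        exact hu.1.1
      · intro u hu w hw h
        rw [Finset.mem_coe, mem_pts] at hu hw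
        simp only at h
        refine Prod.ext h ?_
        have : (u.2 : ℚ) = w.2 := by rw [hu.2, hw.2, h]
        exact_mod_cast this
    exact this
  have hkey : ∀ l ∈ L, (pts A l).card ^ 3 ≤
      ∑ i ∈ Finset.range T, 32 * 4 ^ i * (linePairs A (N / 2 ^ i + 1) l).card := by
    intro l hl
    obtain ⟨hl1, hl2⟩ := hL l hl
    have hlN := hn_le l hl
    set n := (pts A l).card with hn
    obtain ⟨i, hi, hle⟩ : ∃ i ∈ Finset.range T,
        n ^ 3 ≤ 32 * 4 ^ i * (linePairs A (N / 2 ^ i + 1) l).card := by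
      by_cases h4 : 4 ≤ n
      · refine ⟨Nat.log 2 (n / 4), ?_, ?_⟩
        · rw [Finset.mem_range, hT]
          have : Nat.log 2 (n / 4) ≤ Nat.log 2 N :=
            Nat.log_mono_right ((Nat.div_le_self _ _).trans hlN)
          omega
        · set i := Nat.log 2 (n / 4) with hi
          have hn4 : n / 4 ≠ 0 := by omega
          have h5 : 2 ^ i ≤ n / 4 := Nat.pow_log_le_self 2 hn4
          have h6 : n / 4 < 2 ^ (i + 1) := Nat.lt_pow_succ_log_self (by norm_num) _
          have h7 : 4 * 2 ^ i ≤ n := by omega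
          have h8 : n < 8 * 2 ^ i := by rw [pow_succ] at h6; omega
          have h9 := sq_card_pts_le A (N / 2 ^ i + 1) (2 ^ i) (hblk i) l hl1
          rw [← hn] at h9
          set B := (linePairs A (N / 2 ^ i + 1) l).card with hB
          have h10 : n ^ 2 ≤ 4 * 2 ^ i * B := by nlinarith
          calc n ^ 3 = n * n ^ 2 := by ring
            _ ≤ (8 * 2 ^ i) * (4 * 2 ^ i * B) := Nat.mul_le_mul h8.le h10
            _ = 32 * 4 ^ i * B := by
                rw [show (4 : ℕ) = 2 * 2 by norm_num, mul_pow]; ring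
      · refine ⟨0, by rw [Finset.mem_range]; omega, ?_⟩
        have h5 : 1 ≤ (linePairs A (N / 2 ^ 0 + 1) l).card := by
          rw [Nat.one_le_iff_ne_zero, ← Nat.pos_iff_ne_zero, Finset.card_pos]
          obtain ⟨u, hu, w, hw, huw⟩ := Finset.one_lt_card.1 (show 1 < (pts A l).card by omega)
          refine ⟨(u, w), ?_⟩
          unfold linePairs
          rw [Finset.mem_filter, Finset.mem_product]
          have hu' := (mem_pts A).1 hu
          have hw' := (mem_pts A).1 hw
          have b1 := hblk 0 _ hu'.1.1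
          have b2 := hblk 0 _ hu'.1.2
          have b3 := hblk 0 _ hw'.1.1
          have b4 := hblk 0 _ hw'.1.2
          refine ⟨⟨hu, hw⟩, huw, ?_, ?_⟩
          · simp only [pow_zero] at b1 b3 ⊢; omega
          · simp only [pow_zero] at b2 b4 ⊢; omega
        have h6 : n ≤ 3 := by omega
        calc n ^ 3 ≤ 3 ^ 3 := Nat.pow_le_pow_left h6 3
          _ ≤ 32 * 4 ^ 0 * 1 := by norm_num
          _ ≤ _ := Nat.mul_le_mul_left _ h5
    refine hle.trans ?_
    exact Finset.single_le_sum
      (f := fun i => 32 * 4 ^ i * (linePairs A (N / 2 ^ i + 1) l).card)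
      (fun _ _ => Nat.zero_le _) hi
  calc ∑ l ∈ L, (pts A l).card ^ 3
      ≤ ∑ l ∈ L, ∑ i ∈ Finset.range T, 32 * 4 ^ i * (linePairs A (N / 2 ^ i + 1) l).card :=
        Finset.sum_le_sum hkey
    _ = ∑ i ∈ Finset.range T, 32 * 4 ^ i * ∑ l ∈ L, (linePairs A (N / 2 ^ i + 1) l).card := by
        rw [Finset.sum_comm]
        refine Finset.sum_congr rfl fun i _ => ?_
        rw [Finset.mul_sum]
    _ ≤ ∑ i ∈ Finset.range T, 128 * N ^ 4 := by
        refine Finset.sum_le_sum fun i hi => ?_
        rw [Finset.mem_range, hT] at hi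
        have h1 : 2 ^ i ≤ N := by
          calc 2 ^ i ≤ 2 ^ Nat.log 2 N := Nat.pow_le_pow_right (by norm_num) (by omega)
            _ ≤ N := Nat.pow_log_le_self 2 (by omega)
        have h2 := (sum_linePairs_le A (N / 2 ^ i + 1) L).trans
          (card_cellPairs_le A (N / 2 ^ i + 1) (Nat.succ_pos _))
        have h3 : 2 ^ i * (N / 2 ^ i + 1) ≤ 2 * N := by
          have := Nat.mul_div_le N (2 ^ i)
          calc 2 ^ i * (N / 2 ^ i + 1) = 2 ^ i * (N / 2 ^ i) + 2 ^ i := by ring
            _ ≤ N + N := Nat.add_le_add this h1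
            _ = 2 * N := by ring
        calc 32 * 4 ^ i * ∑ l ∈ L, (linePairs A (N / 2 ^ i + 1) l).card
            ≤ 32 * 4 ^ i * (N ^ 2 * (N / 2 ^ i + 1) ^ 2) := Nat.mul_le_mul_left _ h2
          _ = 32 * N ^ 2 * (2 ^ i * (N / 2 ^ i + 1)) ^ 2 := by
              rw [show (4 : ℕ) = 2 * 2 by norm_num, mul_pow]; ring
          _ ≤ 32 * N ^ 2 * (2 * N) ^ 2 := Nat.mul_le_mul_left _ (Nat.pow_le_pow_left h3 2)
          _ = 128 * N ^ 4 := by ring
    _ = 128 * N ^ 4 * (Nat.log 2 N + 1) := by
        rw [Finset.sum_const, Finset.card_range, smul_eq_mul, hT]; ring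

/-- Ordered pairs `(x, y)` of elements of `A` with `y < x`. -/
def upairs : Finset (ℕ × ℕ) := (A ×ˢ A).filter (fun p => p.2 < p.1)

lemma mem_upairs {p : ℕ × ℕ} : p ∈ upairs A ↔ (p.1 ∈ A ∧ p.2 ∈ A) ∧ p.2 < p.1 := by
  unfold upairs
  rw [Finset.mem_filter, Finset.mem_product]

/-- Slope attached to two pairs. -/
def slope (z : (ℕ × ℕ) × (ℕ × ℕ)) : ℚ := ((z.1.1 : ℚ) - z.1.2) / ((z.2.1 : ℚ) - z.2.2)

/-- The line attached to two pairs. -/
def lineOf (z : (ℕ × ℕ) × (ℕ × ℕ)) : ℚ × ℚ := (slope z, (z.1.1 : ℚ) - slope z * z.2.1)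

lemma slope_pos {z : (ℕ × ℕ) × (ℕ × ℕ)} (hz : z ∈ upairs A ×ˢ upairs A) : 0 < slope z := by
  rw [Finset.mem_product, mem_upairs, mem_upairs] at hz
  have h1 : (z.1.2 : ℚ) < z.1.1 := by exact_mod_cast hz.1.2
  have h2 : (z.2.2 : ℚ) < z.2.1 := by exact_mod_cast hz.2.2
  unfold slope
  apply div_pos <;> linarith

lemma mem_pts_lineOf {z : (ℕ × ℕ) × (ℕ × ℕ)} (hz : z ∈ upairs A ×ˢ upairs A) :
    (z.2.1, z.1.1) ∈ pts A (lineOf z) ∧ (z.2.2, z.1.2) ∈ pts A (lineOf z) := by
  rw [Finset.mem_product, mem_upairs, mem_upairs] at hz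
  have h2 : (z.2.2 : ℚ) < z.2.1 := by exact_mod_cast hz.2.2
  rw [mem_pts, mem_pts]
  refine ⟨⟨⟨hz.2.1.1, hz.1.1.1⟩, ?_⟩, ⟨⟨hz.2.1.2, hz.1.1.2⟩, ?_⟩⟩
  · simp only [lineOf]; ring
  · have h3 : slope z * ((z.2.1 : ℚ) - z.2.2) = (z.1.1 : ℚ) - z.1.2 := by
      unfold slope
      rw [div_mul_cancel₀]
      intro h; linarith
    simp only [lineOf]
    linear_combination h3

lemma card_fiber_lineOf_le (l : ℚ × ℚ) :
    ((upairs A ×ˢ upairs A).filter (fun z => lineOf z = l)).card ≤ (pts A l).card ^ 2 := by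
  rw [sq, ← Finset.card_product]
  refine Finset.card_le_card_of_injOn (fun z => ((z.2.1, z.1.1), (z.2.2, z.1.2))) ?_ ?_
  · intro z hz
    rw [Finset.mem_coe, Finset.mem_filter] at hz
    have := mem_pts_lineOf A hz.1
    rw [hz.2] at this
    rw [Finset.mem_coe, Finset.mem_product]
    exact this
  · intro z _ z' _ h
    simp only [Prod.mk.injEq] at h
    obtain ⟨⟨h1, h2⟩, h3, h4⟩ := h
    exact Prod.ext (Prod.ext h2 h4) (Prod.ext h1 h3)

/-- **Multiplicative energy of the difference set**, with multiplicities: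
`∑_λ #{(p, p') : slope = λ}² ≤ 128 N⁶ (log₂ N + 1)`. -/
theorem energy_le (Λ : Finset ℚ) :
    ∑ lam ∈ Λ, ((upairs A ×ˢ upairs A).filter (fun z => slope z = lam)).card ^ 2 ≤
      128 * A.card ^ 6 * (Nat.log 2 A.card + 1) := by
  classical
  set PP := upairs A ×ˢ upairs A with hPP
  set L := PP.image lineOf with hL
  have hLprop : ∀ l ∈ L, 0 < l.1 ∧ 2 ≤ (pts A l).card := by
    intro l hl
    rw [hL, Finset.mem_image] at hl
    obtain ⟨z, hz, rfl⟩ := hl
    refine ⟨slope_pos A hz, ?_⟩
    have h1 := mem_pts_lineOf A hz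
    have h2 : z.2.2 < z.2.1 := by
      rw [hPP, Finset.mem_product, mem_upairs, mem_upairs] at hz
      exact hz.2.2
    have : 1 < (pts A (lineOf z)).card := by
      rw [Finset.one_lt_card]
      refine ⟨_, h1.1, _, h1.2, ?_⟩
      intro h
      have := congrArg Prod.fst h
      simp only at this
      omega
    omega
  -- the count of parallel points
  have hpar : ∀ lam : ℚ, ∑ l ∈ L.filter (fun l => l.1 = lam), (pts A l).card ≤ A.card ^ 2 := by
    intro lam
    rw [← Finset.card_biUnion]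
    · calc _ ≤ (A ×ˢ A).card := by
            apply Finset.card_le_card
            intro u hu
            rw [Finset.mem_biUnion] at hu
            obtain ⟨l, _, hl⟩ := hu
            exact (Finset.mem_filter.1 hl).1
        _ = A.card ^ 2 := by rw [Finset.card_product, sq]
    · intro l hl l' hl' hne
      rw [Function.onFun, Finset.disjoint_left]
      intro u hu hu'
      apply hne
      rw [Finset.mem_coe, Finset.mem_filter] at hl hl'
      rw [mem_pts] at hu hu'
      have h1 : l.1 = l'.1 := hl.2.trans hl'.2.symm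
      refine Prod.ext h1 ?_
      have e1 := hu.2
      have e2 := hu'.2
      rw [h1] at e1
      linarith
  have hfib : ∀ lam : ℚ, (PP.filter (fun z => slope z = lam)).card =
      ∑ l ∈ L.filter (fun l => l.1 = lam), (PP.filter (fun z => lineOf z = l)).card := by
    intro lam
    have hm : ∀ z ∈ PP.filter (fun z => slope z = lam), lineOf z ∈ L.filter (fun l => l.1 = lam) := by
      intro z hz
      rw [Finset.mem_filter] at hz ⊢
      exact ⟨Finset.mem_image_of_mem _ hz.1, hz.2⟩
    rw [Finset.card_eq_sum_card_fiberwise hm]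
    refine Finset.sum_congr rfl fun l hl => ?_
    congr 1
    ext z
    rw [Finset.mem_filter] at hl
    simp only [Finset.mem_filter]
    constructor
    · rintro ⟨⟨h1, _⟩, h3⟩; exact ⟨h1, h3⟩
    · rintro ⟨h1, h3⟩
      refine ⟨⟨h1, ?_⟩, h3⟩
      rw [← hl.2, ← h3]; rfl
  have hstep : ∀ lam : ℚ, (PP.filter (fun z => slope z = lam)).card ^ 2 ≤
      (∑ l ∈ L.filter (fun l => l.1 = lam), (pts A l).card ^ 3) * A.card ^ 2 := by
    intro lam
    rw [hfib lam]
    calc (∑ l ∈ L.filter (fun l => l.1 = lam), (PP.filter (fun z => lineOf z = l)).card) ^ 2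
        ≤ (∑ l ∈ L.filter (fun l => l.1 = lam), (pts A l).card ^ 2) ^ 2 := by
          refine Nat.pow_le_pow_left (Finset.sum_le_sum fun l _ => ?_) 2
          exact card_fiber_lineOf_le A l
      _ ≤ (∑ l ∈ L.filter (fun l => l.1 = lam), (pts A l).card ^ 3) *
          (∑ l ∈ L.filter (fun l => l.1 = lam), (pts A l).card) := by
          apply Finset.sum_sq_le_sum_mul_sum_of_sq_le_mul
          · intro i _; exact Nat.zero_le _
          · intro i _; exact Nat.zero_le _
          · intro i _; exact le_of_eq (by ring)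
      _ ≤ _ := Nat.mul_le_mul_left _ (hpar lam)
  calc ∑ lam ∈ Λ, (PP.filter (fun z => slope z = lam)).card ^ 2
      ≤ ∑ lam ∈ Λ, (∑ l ∈ L.filter (fun l => l.1 = lam), (pts A l).card ^ 3) * A.card ^ 2 :=
        Finset.sum_le_sum fun lam _ => hstep lam
    _ = (∑ lam ∈ Λ, ∑ l ∈ L.filter (fun l => l.1 = lam), (pts A l).card ^ 3) * A.card ^ 2 := by
        rw [Finset.sum_mul]
    _ ≤ (∑ l ∈ L, (pts A l).card ^ 3) * A.card ^ 2 := by
        refine Nat.mul_le_mul_right _ ?_
        simp_rw [Finset.sum_filter]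
        rw [Finset.sum_comm]
        refine Finset.sum_le_sum fun l _ => ?_
        rw [Finset.sum_ite_eq]
        split_ifs
        · exact le_refl _
        · exact Nat.zero_le _
    _ ≤ (128 * A.card ^ 4 * (Nat.log 2 A.card + 1)) * A.card ^ 2 :=
        Nat.mul_le_mul_right _ (sum_cube_le A L hLprop)
    _ = _ := by ring

end Lines

end Pool.Agent.Helper29.PPC
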