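import Mathlib
import Pool.Agent.Helper29.PpcAlg
import Pool.Agent.Helper29.PpcDiv
import Pool.Agent.Helper29.PpcLines

set_option autoImplicit false

open Finset

namespace Pool.Agent.Helper29.PPC

/-- The group of positive rationals. -/
abbrev QP : Type := {q : ℚ // 0 < q}

/-- Embedding of the positive integers into the positive rationals. -/
def evP : ℕ+ →* QP where
  toFun n := ⟨(n : ℕ), by exact_mod_cast n.pos⟩
  map_one' := by apply Subtype.ext; simp
  map_mul' a b := by apply Subtype.ext; simp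

lemma evP_inj : Function.Injective evP := by
  intro a b h
  have h1 : ((a : ℕ) : ℚ) = ((b : ℕ) : ℚ) := congrArg Subtype.val h
  apply PNat.coe_injective
  exact_mod_cast h1

/-- `v` as a positive rational (`1` when `v = 0`). -/
def evN (v : ℕ) : QP := if h : 0 < v then ⟨(v : ℚ), by exact_mod_cast h⟩ else 1

lemma evN_val {v : ℕ} (h : 0 < v) : ((evN v : QP) : ℚ) = v := by
  unfold evN; rw [dif_pos h]

lemma evN_inj {v w : ℕ} (hv : 0 < v) (hw : 0 < w) (h : evN v = evN w) : v = w := by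
  have := congrArg Subtype.val h
  rw [evN_val hv, evN_val hw] at this
  exact_mod_cast this

/-- The element of the group algebra attached to a function on a finite set of integers. -/
noncomputable def FF (D : Finset ℕ) (f : ℕ → ℝ) : MonoidAlgebra ℝ QP :=
  ∑ v ∈ D, MonoidAlgebra.single (evN v) (f v)

lemma ip_FF_FF (D : Finset ℕ) (hD : ∀ v ∈ D, 0 < v) (f : ℕ → ℝ) :
    ip (FF D f) (FF D f) = ∑ v ∈ D, f v ^ 2 := by
  classical
  unfold FF
  rw [ip_sum_left]
  refine Finset.sum_congr rfl fun v hv => ?_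
  rw [ip_sum_right, Finset.sum_eq_single v]
  · rw [ip_single_single, if_pos rfl, sq]
  · intro w hw hne
    rw [ip_single_single, if_neg]
    intro h
    exact hne (evN_inj (hD v hv) (hD w hw) h).symm
  · intro h; exact absurd hv h

/-- Number of representations of `v` as a difference of elements of `A`. -/
def rr (A : Finset ℕ) (v : ℕ) : ℕ := ((upairs A).filter (fun p => p.1 = p.2 + v)).card

lemma coeff_FF_mul_adj (D : Finset ℕ) (f : ℕ → ℝ) (lam : QP) :
    (FF D f * adj (FF D f)).coeff lam =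
      ∑ p ∈ (D ×ˢ D).filter (fun p => evN p.1 * (evN p.2)⁻¹ = lam), f p.1 * f p.2 := by
  classical
  unfold FF
  rw [map_sum, Finset.sum_mul_sum, MonoidAlgebra.coeff_sum, Finsupp.finsetSum_apply]
  rw [Finset.sum_filter, Finset.sum_product]
  refine Finset.sum_congr rfl fun v _ => ?_
  rw [MonoidAlgebra.coeff_sum, Finsupp.finsetSum_apply]
  refine Finset.sum_congr rfl fun w _ => ?_
  rw [adj_single, MonoidAlgebra.single_mul_single, MonoidAlgebra.coeff_single, Finsupp.single_apply]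

lemma sum_rr_le (A : Finset ℕ) (D : Finset ℕ) (hD : ∀ v ∈ D, 0 < v) (lam : QP) :
    ∑ p ∈ (D ×ˢ D).filter (fun p => evN p.1 * (evN p.2)⁻¹ = lam), rr A p.1 * rr A p.2 ≤
      ((upairs A ×ˢ upairs A).filter (fun z => slope z = (lam : ℚ))).card := by
  classical
  have h1 : ∀ p : ℕ × ℕ, rr A p.1 * rr A p.2 =
      (((upairs A).filter (fun z => z.1 = z.2 + p.1)) ×ˢ
        ((upairs A).filter (fun z => z.1 = z.2 + p.2))).card := by
    intro p
    rw [Finset.card_product]; rfl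
  simp_rw [h1]
  rw [← Finset.card_biUnion]
  · apply Finset.card_le_card
    intro z hz
    rw [Finset.mem_biUnion] at hz
    obtain ⟨p, hp, hz⟩ := hz
    rw [Finset.mem_filter, Finset.mem_product] at hp
    rw [Finset.mem_product, Finset.mem_filter, Finset.mem_filter] at hz
    rw [Finset.mem_filter, Finset.mem_product]
    refine ⟨⟨hz.1.1, hz.2.1⟩, ?_⟩
    have hv := hD _ hp.1.1
    have hw := hD _ hp.1.2
    have h2 : (lam : ℚ) = (p.1 : ℚ) / p.2 := by
      rw [← hp.2]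
      have : ((evN p.1 * (evN p.2)⁻¹ : QP) : ℚ) = ((evN p.1 : QP) : ℚ) * (((evN p.2 : QP) : ℚ))⁻¹ := rfl
      rw [this, evN_val hv, evN_val hw, div_eq_mul_inv]
    unfold slope
    rw [h2]
    have e1 : ((z.1.1 : ℕ) : ℚ) = z.1.2 + p.1 := by rw [hz.1.2]; push_cast; rfl
    have e2 : ((z.2.1 : ℕ) : ℚ) = z.2.2 + p.2 := by rw [hz.2.2]; push_cast; rfl
    rw [e1, e2]
    congr 1 <;> ring
  · intro p _ p' _ hne
    rw [Function.onFun, Finset.disjoint_left]
    intro z hz hz'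
    apply hne
    rw [Finset.mem_product, Finset.mem_filter, Finset.mem_filter] at hz hz'
    refine Prod.ext ?_ ?_
    · have := hz.1.2; have := hz'.1.2; omega
    · have := hz.2.2; have := hz'.2.2; omega

lemma ip_FFadj_le (A : Finset ℕ) (D : Finset ℕ) (hD : ∀ v ∈ D, 0 < v) (f : ℕ → ℝ)
    (hf0 : ∀ v, 0 ≤ f v) (hf : ∀ v, f v ≤ rr A v) :
    ip (FF D f * adj (FF D f)) (FF D f * adj (FF D f)) ≤
      128 * (A.card : ℝ) ^ 6 * (Nat.log 2 A.card + 1) := by
  classical
  set x := FF D f * adj (FF D f) with hx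
  rw [ip_eq_sum]
  have h1 : ∀ lam ∈ x.coeff.support, x.coeff lam * x.coeff lam ≤
      ((((upairs A ×ˢ upairs A).filter (fun z => slope z = (lam : ℚ))).card ^ 2 : ℕ) : ℝ) := by
    intro lam _
    have h2 : 0 ≤ x.coeff lam := by
      rw [hx, coeff_FF_mul_adj]
      exact Finset.sum_nonneg fun p _ => mul_nonneg (hf0 _) (hf0 _)
    have h3 : x.coeff lam ≤ (((upairs A ×ˢ upairs A).filter (fun z => slope z = (lam : ℚ))).card : ℝ) := by
      rw [hx, coeff_FF_mul_adj]
      calc _ ≤ ∑ p ∈ (D ×ˢ D).filter (fun p => evN p.1 * (evN p.2)⁻¹ = lam),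
            ((rr A p.1 : ℝ) * rr A p.2) := by
            refine Finset.sum_le_sum fun p _ => ?_
            exact mul_le_mul (hf _) (hf _) (hf0 _) (Nat.cast_nonneg _)
        _ ≤ _ := by
            exact_mod_cast sum_rr_le A D hD lam
    push_cast
    rw [sq]
    exact mul_le_mul h3 h3 h2 (Nat.cast_nonneg _)
  refine (Finset.sum_le_sum h1).trans ?_
  have h4 := energy_le A (x.coeff.support.image (fun l : QP => (l : ℚ)))
  rw [Finset.sum_image (fun a _ b _ h => Subtype.ext h)] at h4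
  exact_mod_cast h4

/-- `m_Z = ∑_{u ≤ Z} u^{-1/2} [u]` in the group algebra of the positive rationals. -/
noncomputable def mG (Z : ℕ) : MonoidAlgebra ℝ QP := MonoidAlgebra.mapDomainRingHom ℝ evP (mN Z)

lemma mG_eq (Z : ℕ) : mG Z = ∑ u ∈ Finset.range Z,
    MonoidAlgebra.single (evN (u + 1)) (1 / Real.sqrt ((u : ℝ) + 1)) := by
  unfold mG mN
  rw [map_sum]
  refine Finset.sum_congr rfl fun u _ => ?_
  have h0 : MonoidAlgebra.mapDomainRingHom ℝ evP
      (MonoidAlgebra.single (pn u) (1 / Real.sqrt ((u : ℝ) + 1))) =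
      MonoidAlgebra.single (evP (pn u)) (1 / Real.sqrt ((u : ℝ) + 1)) := by simp
  rw [h0]
  congr 1

/-- The height of `v/w`. -/
def ht (v w : ℕ) : ℕ := max v w / Nat.gcd v w

lemma ht_comm (v w : ℕ) : ht v w = ht w v := by
  unfold ht; rw [max_comm, Nat.gcd_comm]

lemma ip_mG_single_ge (Z : ℕ) {v w : ℕ} (hv : 0 < v) (hw : 0 < w) (hh : ht v w ≤ Z) :
    1 / (ht v w : ℝ) ≤ ip (mG Z * MonoidAlgebra.single (evN v) 1)
      (mG Z * MonoidAlgebra.single (evN w) 1) := by
  classical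
  set d := Nat.gcd v w with hd
  have hd0 : 0 < d := Nat.gcd_pos_of_pos_left _ hv
  obtain ⟨a, ha⟩ : d ∣ v := Nat.gcd_dvd_left v w
  obtain ⟨b, hb⟩ : d ∣ w := Nat.gcd_dvd_right v w
  have ha0 : 0 < a := by
    rcases Nat.eq_zero_or_pos a with h | h
    · rw [h] at ha; omega
    · exact h
  have hb0 : 0 < b := by
    rcases Nat.eq_zero_or_pos b with h | h
    · rw [h] at hb; omega
    · exact h
  have hht : ht v w = max a b := by
    have h1 : max v w = d * max a b := by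
      rw [ha, hb]
      exact (Nat.mul_max_mul_left d a b).symm ▸ rfl
    unfold ht
    rw [← hd, h1, Nat.mul_div_cancel_left _ hd0]
  have haZ : a ≤ Z := (le_max_left a b).trans (hht ▸ hh)
  have hbZ : b ≤ Z := (le_max_right a b).trans (hht ▸ hh)
  rw [mG_eq, Finset.sum_mul, Finset.sum_mul, ip_sum_left]
  have hnn : ∀ u u' : ℕ, 0 ≤ ip (MonoidAlgebra.single (evN (u + 1)) (1 / Real.sqrt ((u : ℝ) + 1)) *
      MonoidAlgebra.single (evN v) 1) (MonoidAlgebra.single (evN (u' + 1)) (1 / Real.sqrt ((u' : ℝ) + 1)) *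
      MonoidAlgebra.single (evN w) 1) := by
    intro u u'
    rw [MonoidAlgebra.single_mul_single, MonoidAlgebra.single_mul_single, ip_single_single]
    split_ifs
    · positivity
    · exact le_refl _
  have h1 : ∀ u ∈ Finset.range Z, 0 ≤ ip (MonoidAlgebra.single (evN (u + 1)) (1 / Real.sqrt ((u : ℝ) + 1)) *
      MonoidAlgebra.single (evN v) 1) (∑ u' ∈ Finset.range Z,
        MonoidAlgebra.single (evN (u' + 1)) (1 / Real.sqrt ((u' : ℝ) + 1)) *
      MonoidAlgebra.single (evN w) 1) := by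
    intro u _
    rw [ip_sum_right]
    exact Finset.sum_nonneg fun u' _ => hnn u u'
  have hbm : b - 1 ∈ Finset.range Z := by rw [Finset.mem_range]; omega
  have ham : a - 1 ∈ Finset.range Z := by rw [Finset.mem_range]; omega
  refine le_trans ?_ (Finset.single_le_sum h1 hbm)
  rw [ip_sum_right]
  refine le_trans ?_ (Finset.single_le_sum (fun u' _ => hnn (b - 1) u') ham)
  rw [MonoidAlgebra.single_mul_single, MonoidAlgebra.single_mul_single, ip_single_single, if_pos]
  · have e1 : (((b - 1 : ℕ) : ℝ) + 1) = b := by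
      have : b - 1 + 1 = b := by omega
      exact_mod_cast this
    have e2 : (((a - 1 : ℕ) : ℝ) + 1) = a := by
      have : a - 1 + 1 = a := by omega
      exact_mod_cast this
    rw [e1, e2, hht, mul_one, mul_one, one_div_mul_one_div, ← Real.sqrt_mul (Nat.cast_nonneg b)]
    have hab : (0 : ℝ) < (b : ℝ) * a := by positivity
    apply one_div_le_one_div_of_le (Real.sqrt_pos.2 hab)
    rw [Real.sqrt_le_left (Nat.cast_nonneg _)]
    push_cast
    have h5 : (a : ℝ) ≤ max (a : ℝ) b := le_max_left _ _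
    have h6 : (b : ℝ) ≤ max (a : ℝ) b := le_max_right _ _
    rw [sq]
    exact mul_le_mul h6 h5 (Nat.cast_nonneg _) ((Nat.cast_nonneg _).trans h5)
  · have e1 : b - 1 + 1 = b := by omega
    have e2 : a - 1 + 1 = a := by omega
    rw [e1, e2]
    apply Subtype.ext
    have m1 : ((evN b * evN v : QP) : ℚ) = ((evN b : QP) : ℚ) * ((evN v : QP) : ℚ) := rfl
    have m2 : ((evN a * evN w : QP) : ℚ) = ((evN a : QP) : ℚ) * ((evN w : QP) : ℚ) := rfl
    rw [m1, m2, evN_val hb0, evN_val hv, evN_val ha0, evN_val hw, ha, hb]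
    push_cast
    ring

/-- The truncated GCD sum. -/
noncomputable def gcdSum (Z : ℕ) (D : Finset ℕ) (f g : ℕ → ℝ) : ℝ :=
  ∑ p ∈ (D ×ˢ D).filter (fun p => ht p.1 p.2 ≤ Z), f p.1 * g p.2 / (ht p.1 p.2 : ℝ)

/-- The quadratic form dominating the truncated GCD sum. -/
noncomputable def TT (Z : ℕ) (D : Finset ℕ) (f : ℕ → ℝ) : ℝ := ip (mG Z * FF D f) (mG Z * FF D f)

lemma TT_nonneg (Z : ℕ) (D : Finset ℕ) (f : ℕ → ℝ) : 0 ≤ TT Z D f := ip_self_nonneg _

lemma gcdSum_le_ip (Z : ℕ) (D : Finset ℕ) (hD : ∀ v ∈ D, 0 < v) (f g : ℕ → ℝ)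
    (hf0 : ∀ v, 0 ≤ f v) (hg0 : ∀ v, 0 ≤ g v) :
    gcdSum Z D f g ≤ ip (mG Z * FF D f) (mG Z * FF D g) := by
  classical
  have hexp : ip (mG Z * FF D f) (mG Z * FF D g) =
      ∑ p ∈ D ×ˢ D, f p.1 * g p.2 * ip (mG Z * MonoidAlgebra.single (evN p.1) 1)
        (mG Z * MonoidAlgebra.single (evN p.2) 1) := by
    unfold FF
    rw [Finset.mul_sum, Finset.mul_sum, ip_sum_left, Finset.sum_product]
    refine Finset.sum_congr rfl fun v _ => ?_
    rw [ip_sum_right]
    refine Finset.sum_congr rfl fun w _ => ?_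
    have e1 : MonoidAlgebra.single (evN v) (f v) =
        MonoidAlgebra.single (1 : QP) (f v) * MonoidAlgebra.single (evN v) 1 := by
      rw [MonoidAlgebra.single_mul_single, one_mul, mul_one]
    have e2 : MonoidAlgebra.single (evN w) (g w) =
        MonoidAlgebra.single (1 : QP) (g w) * MonoidAlgebra.single (evN w) 1 := by
      rw [MonoidAlgebra.single_mul_single, one_mul, mul_one]
    rw [e1, e2]
    unfold ip
    rw [map_mul, map_mul, map_mul, adj_single (1 : QP) (g w)]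
    have e3 : mG Z * (MonoidAlgebra.single 1 (f v) * MonoidAlgebra.single (evN v) 1) *
        (adj (mG Z) * (MonoidAlgebra.single (1 : QP)⁻¹ (g w) * adj (MonoidAlgebra.single (evN w) 1))) =
        (MonoidAlgebra.single 1 (f v) * MonoidAlgebra.single (1 : QP)⁻¹ (g w)) *
          (mG Z * MonoidAlgebra.single (evN v) 1 * (adj (mG Z) * adj (MonoidAlgebra.single (evN w) 1))) := by
      ring
    rw [e3, MonoidAlgebra.single_mul_single, inv_one, one_mul, MonoidAlgebra.coeff_single_one_mul]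
  rw [hexp]
  unfold gcdSum
  rw [Finset.sum_filter]
  refine Finset.sum_le_sum fun p hp => ?_
  rw [Finset.mem_product] at hp
  have hpos : 0 ≤ ip (mG Z * MonoidAlgebra.single (evN p.1) 1)
        (mG Z * MonoidAlgebra.single (evN p.2) 1) := by
    rw [mG_eq, Finset.sum_mul, Finset.sum_mul, ip_sum_left]
    refine Finset.sum_nonneg fun u _ => ?_
    rw [ip_sum_right]
    refine Finset.sum_nonneg fun u' _ => ?_
    rw [MonoidAlgebra.single_mul_single, MonoidAlgebra.single_mul_single, ip_single_single]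
    split_ifs
    · positivity
    · exact le_refl _
  split_ifs with h
  · have := ip_mG_single_ge Z (hD _ hp.1) (hD _ hp.2) h
    rw [div_eq_mul_one_div]
    exact mul_le_mul_of_nonneg_left this (mul_nonneg (hf0 _) (hg0 _))
  · exact mul_nonneg (mul_nonneg (hf0 _) (hg0 _)) hpos

lemma gcdSum_nonneg (Z : ℕ) (D : Finset ℕ) (f g : ℕ → ℝ)
    (hf0 : ∀ v, 0 ≤ f v) (hg0 : ∀ v, 0 ≤ g v) : 0 ≤ gcdSum Z D f g := by
  unfold gcdSum
  exact Finset.sum_nonneg fun p _ => div_nonneg (mul_nonneg (hf0 _) (hg0 _)) (Nat.cast_nonneg _)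

lemma gcdSum_sq_le (Z : ℕ) (D : Finset ℕ) (hD : ∀ v ∈ D, 0 < v) (f g : ℕ → ℝ)
    (hf0 : ∀ v, 0 ≤ f v) (hg0 : ∀ v, 0 ≤ g v) :
    gcdSum Z D f g ^ 2 ≤ TT Z D f * TT Z D g := by
  calc gcdSum Z D f g ^ 2 ≤ ip (mG Z * FF D f) (mG Z * FF D g) ^ 2 :=
        pow_le_pow_left₀ (gcdSum_nonneg Z D f g hf0 hg0) (gcdSum_le_ip Z D hD f g hf0 hg0) 2
    _ ≤ _ := ip_sq_le _ _

/-- The harmonic number. -/
noncomputable def HH (Z : ℕ) : ℝ := ∑ n ∈ Finset.Icc 1 Z, (1 : ℝ) / n

lemma HH_nonneg (Z : ℕ) : 0 ≤ HH Z := Finset.sum_nonneg fun n _ => by positivity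

lemma norm_mG_pow (i Z : ℕ) : ip (mG Z ^ (2 ^ i)) (mG Z ^ (2 ^ i)) ≤ HH Z ^ (2 ^ i * 2 ^ i) := by
  have : mG Z ^ (2 ^ i) = MonoidAlgebra.mapDomainRingHom ℝ evP (mN Z ^ (2 ^ i)) := by
    unfold mG; rw [map_pow]
  rw [this, ip_map evP evP_inj]
  exact NN_mN_pow i Z

/-- **Hölder interpolation** for the truncated GCD sum. -/
theorem TT_pow_le (A : Finset ℕ) (Z j : ℕ) (D : Finset ℕ) (hD : ∀ v ∈ D, 0 < v) (f : ℕ → ℝ)
    (hf0 : ∀ v, 0 ≤ f v) (hf : ∀ v, f v ≤ rr A v) :
    TT Z D f ^ (2 ^ j) ≤ (∑ v ∈ D, f v ^ 2) ^ (2 ^ j - 1) *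
      Real.sqrt (HH Z ^ (2 ^ (j + 1) * 2 ^ (j + 1)) *
        (128 * (A.card : ℝ) ^ 6 * (Nat.log 2 A.card + 1))) := by
  have h1 : TT Z D f = ip ((mG Z * adj (mG Z)) * FF D f) (FF D f) := by
    unfold TT
    rw [show mG Z * adj (mG Z) * FF D f = adj (mG Z) * (mG Z * FF D f) by ring, ip_mul_left, ip_comm]
  rw [h1]
  refine (moment_pow_le (mG Z) (FF D f) j).trans ?_
  rw [ip_FF_FF D hD]
  refine mul_le_mul_of_nonneg_left ?_ (pow_nonneg (Finset.sum_nonneg fun v _ => sq_nonneg _) _)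
  apply Real.le_sqrt_of_sq_le
  refine (top_moment_sq_le (mG Z) (FF D f) (2 ^ j)).trans ?_
  have e : 2 * 2 ^ j = 2 ^ (j + 1) := by rw [pow_succ, mul_comm]
  rw [e]
  exact mul_le_mul (norm_mG_pow (j + 1) Z) (ip_FFadj_le A D hD f hf0 hf) (ip_self_nonneg _)
    (pow_nonneg (HH_nonneg Z) _)

end Pool.Agent.Helper29.PPC
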