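import Mathlib
import Pool.Agent.Helper29.PpcHolder

set_option autoImplicit false

open Finset

namespace Pool.Agent.Helper29.PPC

/-- A numerator `z` for the denominator `v` is bad when `gcd(v, z)` has a large divisor built
from primes of `P`. -/
def bad (P : Finset ℕ) (Z v : ℕ) (z : ℤ) : Prop :=
  ∃ g : ℕ, Z < g ∧ g ∣ v ∧ (g : ℤ) ∣ z ∧ g ∈ Nat.factoredNumbers P

lemma bad_add_mul (P : Finset ℕ) (Z v : ℕ) (z m : ℤ) :
    bad P Z v (z + m * v) ↔ bad P Z v z := by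
  unfold bad
  constructor
  · rintro ⟨g, h1, h2, h3, h4⟩
    refine ⟨g, h1, h2, ?_, h4⟩
    have : (g : ℤ) ∣ m * v := Dvd.dvd.mul_left (by exact_mod_cast h2) m
    exact (dvd_add_left this).1 h3
  · rintro ⟨g, h1, h2, h3, h4⟩
    refine ⟨g, h1, h2, ?_, h4⟩
    have : (g : ℤ) ∣ m * v := Dvd.dvd.mul_left (by exact_mod_cast h2) m
    exact (dvd_add_left this).2 h3

/-- `n ↦ n^(σ-1)` as a monoid homomorphism. -/
noncomputable def powHom (σ : ℝ) (_hσ : σ < 1) : ℕ →* ℝ where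
  toFun n := (n : ℝ) ^ (σ - 1)
  map_one' := by simp
  map_mul' m n := by
    push_cast
    exact Real.mul_rpow (Nat.cast_nonneg _) (Nat.cast_nonneg _)

lemma powHom_apply (σ : ℝ) (hσ : σ < 1) (n : ℕ) : powHom σ hσ n = (n : ℝ) ^ (σ - 1) := rfl

lemma prime_pow_le {σ : ℝ} (hσ : σ ≤ 1 / 2) {p : ℕ} (hp : p.Prime) :
    (p : ℝ) ^ (σ - 1) ≤ 3 / 4 := by
  have h2 : (2 : ℝ) ≤ p := by exact_mod_cast hp.two_le
  calc (p : ℝ) ^ (σ - 1) ≤ (2 : ℝ) ^ (σ - 1) :=
        Real.rpow_le_rpow_of_nonpos (by norm_num) h2 (by linarith)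
    _ ≤ (2 : ℝ) ^ (-(1 / 2) : ℝ) := by
        apply Real.rpow_le_rpow_of_exponent_le (by norm_num); linarith
    _ ≤ 3 / 4 := by
        rw [Real.rpow_neg (by norm_num), ← Real.sqrt_eq_rpow]
        have : (4 / 3 : ℝ) ≤ Real.sqrt 2 := by
          apply Real.le_sqrt_of_sq_le; norm_num
        calc (Real.sqrt 2)⁻¹ ≤ (4 / 3 : ℝ)⁻¹ := by
              apply inv_anti₀ (by norm_num) this
          _ = 3 / 4 := by norm_num

lemma sum_factored_le (P S : Finset ℕ) (σ : ℝ) (hσ : σ ≤ 1 / 2)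
    (hS : ∀ g ∈ S, g ∈ Nat.factoredNumbers P) (hP : ∀ p ∈ P, p.Prime) :
    ∑ g ∈ S, (g : ℝ) ^ (σ - 1) ≤ Real.exp (4 * ∑ p ∈ P, (p : ℝ) ^ (σ - 1)) := by
  classical
  have hσ1 : σ < 1 := by linarith
  have hlt : ∀ {p : ℕ}, p.Prime → ‖powHom σ hσ1 p‖ < 1 := by
    intro p hp
    rw [powHom_apply, Real.norm_of_nonneg (Real.rpow_nonneg (Nat.cast_nonneg _) _)]
    linarith [prime_pow_le hσ hp]
  have h := (EulerProduct.summable_and_hasSum_factoredNumbers_prod_filter_prime_geometric hlt P).2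
  have h1 : ∑ g ∈ S, (g : ℝ) ^ (σ - 1) ≤ ∏ p ∈ P with p.Prime, (1 - powHom σ hσ1 p)⁻¹ := by
    have h2 := (hasSum_subtype_iff_indicator (f := fun n : ℕ => powHom σ hσ1 n)
      (s := Nat.factoredNumbers P)).1 h
    have h3 := sum_le_hasSum S (fun i _ => ?_) h2
    · refine le_trans (le_of_eq ?_) h3
      refine Finset.sum_congr rfl fun g hg => ?_
      rw [Set.indicator_of_mem (hS g hg), powHom_apply]
    · apply Set.indicator_nonneg
      intro n _
      rw [powHom_apply]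
      exact Real.rpow_nonneg (Nat.cast_nonneg _) _
  refine h1.trans ?_
  rw [Finset.filter_true_of_mem hP, Finset.mul_sum, Real.exp_sum]
  refine Finset.prod_le_prod ?_ ?_
  · intro p hp
    have := prime_pow_le hσ (hP p hp)
    rw [powHom_apply, inv_nonneg]; linarith
  · intro p hp
    have h4 := prime_pow_le hσ (hP p hp)
    have h5 : 0 ≤ (p : ℝ) ^ (σ - 1) := Real.rpow_nonneg (Nat.cast_nonneg _) _
    rw [powHom_apply]
    set x := (p : ℝ) ^ (σ - 1)
    have h6 : 0 < 1 - x := by linarith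
    rw [inv_le_comm₀ h6 (Real.exp_pos _), ← Real.exp_neg]
    have h7 : 1 + 4 * x ≤ Real.exp (4 * x) := by linarith [Real.add_one_le_exp (4 * x)]
    rw [Real.exp_neg, inv_le_comm₀ (Real.exp_pos _) h6]
    refine le_trans ?_ h7
    rw [inv_le_iff_one_le_mul₀ h6]
    nlinarith

lemma HH_le (Z : ℕ) (_hZ : 1 ≤ Z) : HH Z ≤ 1 + Real.log Z := by
  have h := harmonic_le_one_add_log Z
  have h2 : HH Z = (harmonic Z : ℝ) := by
    unfold HH
    rw [harmonic_eq_sum_Icc]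
    push_cast
    exact Finset.sum_congr rfl fun n _ => by rw [one_div]
  rw [h2]; exact h

lemma sum_prime_pow_le (P : Finset ℕ) (hP : ∀ p ∈ P, p.Prime) (k : ℕ) (hk : 1 ≤ k)
    (hPk : P.card ≤ k) (σ : ℝ) (hσ0 : 0 ≤ σ) (hσ : σ ≤ 1) :
    ∑ p ∈ P, (p : ℝ) ^ (σ - 1) ≤ (k : ℝ) ^ σ * (2 + Real.log k) := by
  classical
  have hk0 : (0 : ℝ) < k := by exact_mod_cast hk
  rw [← Finset.sum_filter_add_sum_filter_not P (fun p => p ≤ k)]
  have h1 : ∑ p ∈ P with p ≤ k, (p : ℝ) ^ (σ - 1) ≤ (k : ℝ) ^ σ * (1 + Real.log k) := by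
    calc ∑ p ∈ P with p ≤ k, (p : ℝ) ^ (σ - 1) ≤ ∑ n ∈ Finset.Icc 1 k, (n : ℝ) ^ (σ - 1) := by
          refine Finset.sum_le_sum_of_subset_of_nonneg ?_ ?_
          · intro p hp
            rw [Finset.mem_filter] at hp
            rw [Finset.mem_Icc]
            exact ⟨(hP p hp.1).one_le, hp.2⟩
          · intro n _ _
            exact Real.rpow_nonneg (Nat.cast_nonneg _) _
      _ ≤ ∑ n ∈ Finset.Icc 1 k, (k : ℝ) ^ σ * (1 / n) := by
          refine Finset.sum_le_sum fun n hn => ?_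
          rw [Finset.mem_Icc] at hn
          have hn0 : (0 : ℝ) < n := by exact_mod_cast hn.1
          rw [Real.rpow_sub hn0, Real.rpow_one, mul_one_div]
          have : (n : ℝ) ^ σ ≤ (k : ℝ) ^ σ :=
            Real.rpow_le_rpow hn0.le (by exact_mod_cast hn.2) hσ0
          gcongr
      _ = (k : ℝ) ^ σ * HH k := by rw [← Finset.mul_sum]; rfl
      _ ≤ _ := mul_le_mul_of_nonneg_left (HH_le k hk) (Real.rpow_nonneg hk0.le _)
  have h2 : ∑ p ∈ P with ¬ p ≤ k, (p : ℝ) ^ (σ - 1) ≤ (k : ℝ) ^ σ := by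
    calc ∑ p ∈ P with ¬ p ≤ k, (p : ℝ) ^ (σ - 1) ≤ ∑ p ∈ P with ¬ p ≤ k, (k : ℝ) ^ (σ - 1) := by
          refine Finset.sum_le_sum fun p hp => ?_
          rw [Finset.mem_filter, not_le] at hp
          apply Real.rpow_le_rpow_of_nonpos hk0 (by exact_mod_cast hp.2.le) (by linarith)
      _ = (P.filter (fun p => ¬ p ≤ k)).card * (k : ℝ) ^ (σ - 1) := by
          rw [Finset.sum_const, nsmul_eq_mul]
      _ ≤ k * (k : ℝ) ^ (σ - 1) := by
          have h3 : (P.filter (fun p => ¬ p ≤ k)).card ≤ k :=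
            (Finset.card_filter_le _ _).trans hPk
          have h4 : ((P.filter (fun p => ¬ p ≤ k)).card : ℝ) ≤ k := by exact_mod_cast h3
          exact mul_le_mul_of_nonneg_right h4 (Real.rpow_nonneg hk0.le _)
      _ = (k : ℝ) ^ σ := by
          rw [Real.rpow_sub hk0, Real.rpow_one]
          field_simp
  calc _ ≤ (k : ℝ) ^ σ * (1 + Real.log k) + (k : ℝ) ^ σ := add_le_add h1 h2
    _ = _ := by ring

lemma card_multiples_le (v g : ℕ) (hg : g ∣ v) (_hg0 : 0 < g) :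
    ((Finset.range v).filter (fun k : ℕ => g ∣ k)).card ≤ v / g := by
  have : ((Finset.range v).filter (fun k : ℕ => g ∣ k)).card ≤ (Finset.range (v / g)).card := by
    refine Finset.card_le_card_of_injOn (fun k => k / g) ?_ ?_
    · intro k hk
      rw [Finset.mem_coe, Finset.mem_filter, Finset.mem_range] at hk
      rw [Finset.mem_coe, Finset.mem_range]
      exact Nat.div_lt_div_of_lt_of_dvd hg hk.1
    · intro k hk k' hk' h
      rw [Finset.mem_coe, Finset.mem_filter] at hk hk'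
      simp only at h
      rw [← Nat.div_mul_cancel hk.2, ← Nat.div_mul_cancel hk'.2, h]
  simpa using this

open Classical in
/-- **Rankin bound** for the number of bad numerators. -/
theorem card_bad_le (P : Finset ℕ) (hP : ∀ p ∈ P, p.Prime) (Z v : ℕ) (hZ : 1 ≤ Z) (hv : 0 < v)
    (σ : ℝ) (hσ0 : 0 ≤ σ) (hσ : σ ≤ 1 / 2) :
    (((Finset.range v).filter (fun k : ℕ => bad P Z v (k : ℤ))).card : ℝ) ≤
      v * (Z : ℝ) ^ (-σ) * Real.exp (4 * ∑ p ∈ P, (p : ℝ) ^ (σ - 1)) := by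
  set S := v.divisors.filter (fun g => Z < g ∧ g ∈ Nat.factoredNumbers P) with hS
  have hZ0 : (0 : ℝ) < Z := by exact_mod_cast hZ
  have h1 : (Finset.range v).filter (fun k : ℕ => bad P Z v (k : ℤ)) ⊆
      S.biUnion (fun g => (Finset.range v).filter (fun k : ℕ => g ∣ k)) := by
    intro k hk
    rw [Finset.mem_filter] at hk
    obtain ⟨hk1, g, h1, h2, h3, h4⟩ := hk
    rw [Finset.mem_biUnion]
    refine ⟨g, ?_, ?_⟩
    · rw [hS, Finset.mem_filter, Nat.mem_divisors]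
      exact ⟨⟨h2, hv.ne'⟩, h1, h4⟩
    · rw [Finset.mem_filter]
      exact ⟨hk1, by exact_mod_cast h3⟩
  have h2 : (((Finset.range v).filter (fun k : ℕ => bad P Z v (k : ℤ))).card : ℝ) ≤
      ∑ g ∈ S, ((((Finset.range v).filter (fun k : ℕ => g ∣ k)).card : ℕ) : ℝ) := by
    exact_mod_cast (Finset.card_le_card h1).trans Finset.card_biUnion_le
  refine h2.trans ?_
  have h3 : ∀ g ∈ S, ((((Finset.range v).filter (fun k : ℕ => g ∣ k)).card : ℕ) : ℝ) ≤
      v * (Z : ℝ) ^ (-σ) * (g : ℝ) ^ (σ - 1) := by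
    intro g hg
    rw [hS, Finset.mem_filter, Nat.mem_divisors] at hg
    obtain ⟨⟨hgv, _⟩, hZg, _⟩ := hg
    have hg0 : 0 < g := by omega
    have hg0' : (0 : ℝ) < g := by exact_mod_cast hg0
    have e1 : ((v / g : ℕ) : ℝ) = (v : ℝ) / g := Nat.cast_div hgv hg0'.ne'
    have e2 : ((((Finset.range v).filter (fun k : ℕ => g ∣ k)).card : ℕ) : ℝ) ≤ (v : ℝ) / g := by
      rw [← e1]
      exact_mod_cast card_multiples_le v g hgv hg0
    refine e2.trans ?_
    rw [Real.rpow_neg hZ0.le, Real.rpow_sub hg0', Real.rpow_one]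
    have e3 : (Z : ℝ) ^ σ ≤ (g : ℝ) ^ σ :=
      Real.rpow_le_rpow hZ0.le (by exact_mod_cast hZg.le) hσ0
    have e4 : 0 < (Z : ℝ) ^ σ := Real.rpow_pos_of_pos hZ0 _
    have e5 : (1 : ℝ) ≤ ((Z : ℝ) ^ σ)⁻¹ * (g : ℝ) ^ σ := by
      rw [inv_mul_eq_div, one_le_div e4]; exact e3
    calc (v : ℝ) / g = (v : ℝ) / g * 1 := by ring
      _ ≤ (v : ℝ) / g * (((Z : ℝ) ^ σ)⁻¹ * (g : ℝ) ^ σ) := by gcongr
      _ = _ := by ring
  refine (Finset.sum_le_sum h3).trans ?_
  rw [← Finset.mul_sum]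
  refine mul_le_mul_of_nonneg_left ?_ (by positivity)
  apply sum_factored_le P S σ hσ _ hP
  intro g hg
  rw [hS, Finset.mem_filter] at hg
  exact hg.2.2

end Pool.Agent.Helper29.PPC
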