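import Mathlib
import Pool.Agent.Helper29.PpcHolder

set_option autoImplicit false

open Finset

namespace Pool.Agent.Helper29.PPC

/-- The entropy-like function `n ↦ n log₂ n`. -/
noncomputable def Phi (n : ℕ) : ℝ := n * Real.logb 2 n

lemma Phi_nonneg (n : ℕ) : 0 ≤ Phi n := by
  unfold Phi
  rcases Nat.eq_zero_or_pos n with h | h
  · subst h; simp
  · apply mul_nonneg (Nat.cast_nonneg _)
    exact Real.logb_nonneg (by norm_num) (by exact_mod_cast h)

lemma rr_empty (w : ℕ) : rr ∅ w = 0 := by
  unfold rr upairs; simp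

/-- Differences divisible by `M` stay inside the residue classes modulo `M`. -/
lemma rr_le_sum_classes (A : Finset ℕ) (M w : ℕ) (h : M ∣ w) :
    rr A w ≤ ∑ c ∈ A.image (· % M), rr (A.filter (fun x => x % M = c)) w := by
  classical
  unfold rr
  have hm : ∀ p ∈ (upairs A).filter (fun p => p.1 = p.2 + w), p.2 % M ∈ A.image (· % M) := by
    intro p hp
    rw [Finset.mem_filter, mem_upairs] at hp
    exact Finset.mem_image_of_mem _ hp.1.1.2
  rw [Finset.card_eq_sum_card_fiberwise hm]
  refine Finset.sum_le_sum fun c _ => Finset.card_le_card ?_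
  intro p hp
  rw [Finset.mem_filter, Finset.mem_filter, mem_upairs] at hp
  obtain ⟨⟨⟨⟨h1, h2⟩, h3⟩, h4⟩, h5⟩ := hp
  rw [Finset.mem_filter, mem_upairs, Finset.mem_filter, Finset.mem_filter]
  refine ⟨⟨⟨⟨h1, ?_⟩, ⟨h2, h5⟩⟩, h3⟩, h4⟩
  rw [h4]
  obtain ⟨k, rfl⟩ := h
  rw [Nat.add_mul_mod_self_left]
  exact h5

/-- Differences not divisible by `M` leave every residue class. -/
lemma rr_le_outside (A : Finset ℕ) (M w c : ℕ) (h : ¬ M ∣ w) :
    rr A w ≤ 2 * (A.filter (fun x => ¬ x % M = c)).card := by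
  classical
  unfold rr
  have hsub : (upairs A).filter (fun p => p.1 = p.2 + w) ⊆
      ((A.filter (fun x => ¬ x % M = c)).image (fun x => (x, x - w))) ∪
      ((A.filter (fun x => ¬ x % M = c)).image (fun x => (x + w, x))) := by
    intro p hp
    rw [Finset.mem_filter, mem_upairs] at hp
    obtain ⟨⟨⟨h1, h2⟩, h3⟩, h4⟩ := hp
    rw [Finset.mem_union, Finset.mem_image, Finset.mem_image]
    by_cases hx : p.1 % M = c
    · right
      refine ⟨p.2, ?_, Prod.ext h4.symm rfl⟩
      rw [Finset.mem_filter]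
      refine ⟨h2, fun hy => h ?_⟩
      have h5 : p.2 ≡ p.2 + w [MOD M] := by
        unfold Nat.ModEq
        rw [← h4, hx, hy]
      have h6 : p.2 + 0 ≡ p.2 + w [MOD M] := by simpa using h5
      have h7 := Nat.ModEq.add_left_cancel' p.2 h6
      exact (Nat.modEq_zero_iff_dvd).1 h7.symm
    · left
      refine ⟨p.1, ?_, Prod.ext rfl ?_⟩
      · rw [Finset.mem_filter]; exact ⟨h1, hx⟩
      · simp only; omega
  calc _ ≤ _ := Finset.card_le_card hsub
    _ ≤ _ := Finset.card_union_le _ _
    _ ≤ (A.filter (fun x => ¬ x % M = c)).card + (A.filter (fun x => ¬ x % M = c)).card :=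
        Nat.add_le_add Finset.card_image_le Finset.card_image_le
    _ = _ := by ring

/-- Entropy inequality for a partition into residue classes. -/
lemma entropy_ineq (A : Finset ℕ) (M c₀ : ℕ) (hc₀ : c₀ ∈ A.image (· % M))
    (hmax : ∀ c ∈ A.image (· % M), (A.filter (fun x => x % M = c)).card ≤
      (A.filter (fun x => x % M = c₀)).card) :
    ((A.filter (fun x => ¬ x % M = c₀)).card : ℝ) +
      ∑ c ∈ A.image (· % M), Phi (A.filter (fun x => x % M = c)).card ≤ Phi A.card := by
  classical
  set C := A.image (· % M) with hC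
  set n : ℕ → ℕ := fun c => (A.filter (fun x => x % M = c)).card with hn
  have hsum : A.card = ∑ c ∈ C, n c :=
    Finset.card_eq_sum_card_fiberwise (fun x hx => Finset.mem_image_of_mem _ hx)
  have hpos : ∀ c ∈ C, 0 < n c := by
    intro c hc
    rw [hC, Finset.mem_image] at hc
    obtain ⟨x, hx, rfl⟩ := hc
    exact Finset.card_pos.2 ⟨x, by rw [Finset.mem_filter]; exact ⟨hx, rfl⟩⟩
  have hout : (A.filter (fun x => ¬ x % M = c₀)).card = ∑ c ∈ C.erase c₀, n c := by
    have h1 := Finset.card_filter_add_card_filter_not (s := A) (fun x => x % M = c₀)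
    have h2 := Finset.add_sum_erase C n hc₀
    have h3 : n c₀ = (A.filter (fun x => x % M = c₀)).card := rfl
    omega
  have hPhi : Phi A.card = ∑ c ∈ C, (n c : ℝ) * Real.logb 2 A.card := by
    unfold Phi
    rw [← Finset.sum_mul]
    congr 1
    rw [hsum]; push_cast; rfl
  have hNpos : 0 < A.card := by
    rw [hsum]
    exact lt_of_lt_of_le (hpos c₀ hc₀) (Finset.single_le_sum (fun _ _ => Nat.zero_le _) hc₀)
  rw [hout, hPhi, ← Finset.add_sum_erase C _ hc₀, ← Finset.add_sum_erase C _ hc₀]
  push_cast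
  have h0 : Phi (n c₀) ≤ (n c₀ : ℝ) * Real.logb 2 A.card := by
    unfold Phi
    refine mul_le_mul_of_nonneg_left ?_ (Nat.cast_nonneg _)
    apply Real.logb_le_logb_of_le (by norm_num)
    · exact_mod_cast hpos c₀ hc₀
    · rw [hsum]
      exact_mod_cast Finset.single_le_sum (fun _ _ => Nat.zero_le _) hc₀
  have h1 : ∑ c ∈ C.erase c₀, (n c : ℝ) + ∑ c ∈ C.erase c₀, Phi (n c) ≤
      ∑ c ∈ C.erase c₀, (n c : ℝ) * Real.logb 2 A.card := by
    rw [← Finset.sum_add_distrib]
    refine Finset.sum_le_sum fun c hc => ?_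
    have hcC := Finset.mem_of_mem_erase hc
    have hne := Finset.ne_of_mem_erase hc
    have h2 : n c + n c₀ ≤ A.card := by
      rw [hsum, ← Finset.add_sum_erase C n hc₀]
      have := Finset.single_le_sum (f := n) (fun _ _ => Nat.zero_le _) hc
      omega
    have h3 : n c ≤ n c₀ := hmax c hcC
    have h4 : 2 * n c ≤ A.card := by omega
    have h5 : 1 + Real.logb 2 (n c) ≤ Real.logb 2 A.card := by
      have hc0 : (0 : ℝ) < n c := by exact_mod_cast hpos c hcC
      have : 1 + Real.logb 2 (n c) = Real.logb 2 (2 * n c) := by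
        rw [Real.logb_mul (by norm_num) hc0.ne', Real.logb_self_eq_one (by norm_num)]
      rw [this]
      apply Real.logb_le_logb_of_le (by norm_num) (by positivity)
      exact_mod_cast h4
    unfold Phi
    have hc0 : (0 : ℝ) ≤ n c := Nat.cast_nonneg _
    nlinarith
  linarith

/-- **Triangular lemma.** -/
theorem triangular (T : List (ℕ × ℕ)) (h1 : ∀ a ∈ T, ¬ a.2 ∣ a.1)
    (h2 : T.Pairwise (fun a b => a.2 ∣ b.1)) (A : Finset ℕ) :
    (T.map (fun a => (rr A a.1 : ℝ))).sum ≤ 2 * Phi A.card := by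
  classical
  induction T generalizing A with
  | nil => simpa using Phi_nonneg _
  | cons a t ih =>
    rw [List.pairwise_cons] at h2
    obtain ⟨h3, h4⟩ := h2
    have h1' : ∀ b ∈ t, ¬ b.2 ∣ b.1 := fun b hb => h1 b (List.mem_cons_of_mem _ hb)
    rcases A.eq_empty_or_nonempty with hA | hA
    · subst hA
      have : ((a :: t).map (fun a => (rr ∅ a.1 : ℝ))) = (a :: t).map (fun _ => (0 : ℝ)) := by
        refine List.map_congr_left fun b _ => ?_
        rw [rr_empty]; simp
      rw [this]
      have h0 := Phi_nonneg (∅ : Finset ℕ).card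
      rw [List.map_const', List.sum_replicate]
      simpa using h0
    · set M := a.2 with hM
      set C := A.image (· % M) with hC
      have hCne : C.Nonempty := hA.image _
      obtain ⟨c₀, hc₀, hmax⟩ := Finset.exists_max_image C
        (fun c => (A.filter (fun x => x % M = c)).card) hCne
      have hent := entropy_ineq A M c₀ hc₀ hmax
      rw [← hC] at hent
      have hhead : (rr A a.1 : ℝ) ≤ 2 * ((A.filter (fun x => ¬ x % M = c₀)).card : ℝ) := by
        exact_mod_cast rr_le_outside A M a.1 c₀ (h1 a List.mem_cons_self)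
      have htail : (t.map (fun b => (rr A b.1 : ℝ))).sum ≤
          ∑ c ∈ C, 2 * Phi (A.filter (fun x => x % M = c)).card := by
        have e1 : (t.map (fun b => (rr A b.1 : ℝ))).sum ≤
            (t.map (fun b => ∑ c ∈ C, (rr (A.filter (fun x => x % M = c)) b.1 : ℝ))).sum := by
          apply List.sum_le_sum
          intro b hb
          exact_mod_cast rr_le_sum_classes A M b.1 (h3 b hb)
        have e2 : (t.map (fun b => ∑ c ∈ C, (rr (A.filter (fun x => x % M = c)) b.1 : ℝ))).sum =
            ∑ c ∈ C, (t.map (fun b => (rr (A.filter (fun x => x % M = c)) b.1 : ℝ))).sum := by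
          clear e1 ih h3 h4 h1 h1'
          induction t with
          | nil => simp
          | cons b t ih2 => simp only [List.map_cons, List.sum_cons]; rw [ih2, Finset.sum_add_distrib]
        rw [e2] at e1
        refine e1.trans (Finset.sum_le_sum fun c _ => ?_)
        exact ih h1' h4 _
      rw [List.map_cons, List.sum_cons]
      rw [← Finset.mul_sum] at htail
      linarith

/-- Greedy selection of a triangular system. -/
lemma greedy (W : Finset ℕ) (DD : ℕ → Finset ℕ) (B : ℕ) (hB : ∀ w ∈ W, (DD w).card ≤ B)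
    (Q : Finset ℕ) (hQ : ∀ p ∈ Q, ∃ w ∈ W, p ∈ DD w) :
    ∃ T : List (ℕ × ℕ), (∀ a ∈ T, a.1 ∈ W ∧ a.2 ∈ Q ∧ a.2 ∈ DD a.1) ∧
      T.Pairwise (fun a b => a.2 ∉ DD b.1) ∧ Q.card ≤ B * T.length := by
  classical
  induction Q using Finset.strongInduction with
  | H Q ih =>
    rcases Q.eq_empty_or_nonempty with hQe | ⟨p, hp⟩
    · refine ⟨[], by simp, List.Pairwise.nil, ?_⟩
      rw [hQe]; simp
    · obtain ⟨w, hw, hpw⟩ := hQ p hp
      have hss : Q \ DD w ⊂ Q := by
        rw [Finset.ssubset_iff_of_subset Finset.sdiff_subset]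
        exact ⟨p, hp, by rw [Finset.mem_sdiff]; exact fun h => h.2 hpw⟩
      obtain ⟨T, hT1, hT2, hT3⟩ := ih (Q \ DD w) hss
        (fun q hq => hQ q (Finset.mem_sdiff.1 hq).1)
      refine ⟨T ++ [(w, p)], ?_, ?_, ?_⟩
      · intro a ha
        rw [List.mem_append, List.mem_singleton] at ha
        rcases ha with ha | rfl
        · obtain ⟨e1, e2, e3⟩ := hT1 a ha
          exact ⟨e1, (Finset.mem_sdiff.1 e2).1, e3⟩
        · exact ⟨hw, hp, hpw⟩
      · rw [List.pairwise_append]
        refine ⟨hT2, List.pairwise_singleton _ _, ?_⟩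
        intro a ha b hb
        rw [List.mem_singleton] at hb
        subst hb
        exact (Finset.mem_sdiff.1 (hT1 a ha).2.1).2
      · rw [List.length_append, List.length_singleton]
        have h5 : Q.card ≤ (Q \ DD w).card + (DD w).card := by
          have := Finset.card_le_card_sdiff_add_card (s := Q) (t := DD w)
          omega
        have h6 := hB w hw
        calc Q.card ≤ (Q \ DD w).card + (DD w).card := h5
          _ ≤ B * T.length + B := Nat.add_le_add hT3 h6
          _ = B * (T.length + 1) := by ring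

/-- `p ∣ v / gcd(v, w)` iff `p ^ v_p(v)` does not divide `w`. -/
lemma mem_primeFactors_iff {v w p : ℕ} (hv : 0 < v) (hp : p.Prime) :
    p ∈ (v / Nat.gcd v w).primeFactors ↔ ¬ p ^ (v.factorization p) ∣ w := by
  set g := Nat.gcd v w with hg
  have hg0 : 0 < g := Nat.gcd_pos_of_pos_left _ hv
  have hgv : g ∣ v := Nat.gcd_dvd_left v w
  have hgw : g ∣ w := Nat.gcd_dvd_right v w
  have hmul : g * (v / g) = v := Nat.mul_div_cancel' hgv
  have hne : v / g ≠ 0 := by
    intro h; rw [h] at hmul; omega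
  rw [Nat.mem_primeFactors]
  constructor
  · rintro ⟨_, h1, _⟩ h2
    have h3 : p ^ (v.factorization p) ∣ g := Nat.dvd_gcd (Nat.ordProj_dvd v p) h2
    have h4 : p ^ (v.factorization p) * p ∣ g * (v / g) := Nat.mul_dvd_mul h3 h1
    rw [hmul, ← pow_succ] at h4
    exact Nat.pow_succ_factorization_not_dvd hv.ne' hp h4
  · intro h
    refine ⟨hp, ?_, hne⟩
    by_contra h1
    apply h
    have h2 : Nat.Coprime (p ^ (v.factorization p)) (v / g) :=
      Nat.Coprime.pow_left _ ((Nat.Prime.coprime_iff_not_dvd hp).2 h1)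
    have h3 : p ^ (v.factorization p) ∣ g * (v / g) := by
      rw [hmul]; exact Nat.ordProj_dvd v p
    exact (h2.dvd_of_dvd_mul_right h3).trans hgw

lemma card_primeFactors_le (n : ℕ) (hn : 0 < n) : 2 ^ n.primeFactors.card ≤ n := by
  calc 2 ^ n.primeFactors.card = ∏ _p ∈ n.primeFactors, 2 := by rw [Finset.prod_const]
    _ ≤ ∏ p ∈ n.primeFactors, p := by
        refine Finset.prod_le_prod' fun p hp => ?_
        exact (Nat.prime_of_mem_primeFactors hp).two_le
    _ ≤ n := Nat.le_of_dvd hn (Nat.prod_primeFactors_dvd n)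

/-- The exceptional primes of `v` with respect to a set `W` of differences. -/
def PP (W : Finset ℕ) (v : ℕ) : Finset ℕ := W.biUnion (fun w => (v / Nat.gcd v w).primeFactors)

lemma mem_PP {W : Finset ℕ} {v p : ℕ} :
    p ∈ PP W v ↔ ∃ w ∈ W, p ∈ (v / Nat.gcd v w).primeFactors := by
  unfold PP; rw [Finset.mem_biUnion]

/-- The number of exceptional primes is polylogarithmic. -/
theorem card_PP_le (A : Finset ℕ) (W : Finset ℕ) (v : ℕ) (hv : 0 < v) (B : ℕ)
    (hB : ∀ w ∈ W, v / Nat.gcd v w ≤ 2 ^ B) (ρ : ℝ) (hρ : ∀ w ∈ W, ρ ≤ (rr A w : ℝ)) :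
    ∃ n : ℕ, (PP W v).card ≤ B * n ∧ (n : ℝ) * ρ ≤ 2 * Phi A.card := by
  classical
  obtain ⟨T, hT1, hT2, hT3⟩ := greedy W (fun w => (v / Nat.gcd v w).primeFactors) B
    (by
      intro w hw
      have h1 : 0 < v / Nat.gcd v w := Nat.div_pos (Nat.gcd_le_left _ hv)
        (Nat.gcd_pos_of_pos_left _ hv)
      have h2 := card_primeFactors_le _ h1
      exact (Nat.pow_le_pow_iff_right (by norm_num)).1 (h2.trans (hB w hw)))
    (PP W v) (fun p hp => mem_PP.1 hp)
  refine ⟨T.length, hT3, ?_⟩
  have htri := triangular (T.map (fun a => (a.1, a.2 ^ (v.factorization a.2)))) (by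
      intro b hb
      rw [List.mem_map] at hb
      obtain ⟨a, ha, rfl⟩ := hb
      have h3 := (hT1 a ha).2.2
      exact (mem_primeFactors_iff hv (Nat.prime_of_mem_primeFactors h3)).1 h3) (by
      rw [List.pairwise_map]
      refine List.Pairwise.imp_of_mem ?_ hT2
      intro a b ha _ hab
      have hp := Nat.prime_of_mem_primeFactors (hT1 a ha).2.2
      have h4 := (not_congr (mem_primeFactors_iff (w := b.1) hv hp)).1 hab
      exact Classical.not_not.1 h4) A
  refine le_trans ?_ htri
  rw [List.map_map]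
  have : ∀ T : List (ℕ × ℕ), (∀ a ∈ T, a.1 ∈ W) → (T.length : ℝ) * ρ ≤
      (T.map ((fun a => (rr A a.1 : ℝ)) ∘ fun a => (a.1, a.2 ^ (v.factorization a.2)))).sum := by
    intro T hT
    induction T with
    | nil => simp
    | cons a t ih =>
      rw [List.map_cons, List.sum_cons, List.length_cons]
      have h1 := ih (fun b hb => hT b (List.mem_cons_of_mem _ hb))
      have h2 := hρ a.1 (hT a List.mem_cons_self)
      push_cast
      simp only [Function.comp] at h1 ⊢
      linarith
  exact this T (fun a ha => (hT1 a ha).1)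

end Pool.Agent.Helper29.PPC
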