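import Mathlib
import Pool.Agent.Helper29.PpcHit
import Pool.Agent.Helper29.PpcTri
import Pool.Agent.Helper29.PpcRankin

set_option autoImplicit false

open Finset MeasureTheory

namespace Pool.Agent.Helper29.PPC

section Var

variable (A : Finset ℕ)

/-- The positive differences of `A`. -/
def Df : Finset ℕ := (upairs A).image (fun p => p.1 - p.2)

lemma Df_pos {v : ℕ} (hv : v ∈ Df A) : 0 < v := by
  unfold Df at hv
  rw [Finset.mem_image] at hv
  obtain ⟨p, hp, rfl⟩ := hv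
  rw [mem_upairs] at hp
  omega

lemma sum_rr_mul (F : ℕ → ℝ) :
    ∑ v ∈ Df A, (rr A v : ℝ) * F v = ∑ p ∈ upairs A, F (p.1 - p.2) := by
  classical
  rw [← Finset.sum_fiberwise_of_maps_to (s := upairs A) (t := Df A) (g := fun p => p.1 - p.2)
    (fun p hp => Finset.mem_image_of_mem _ hp)]
  refine Finset.sum_congr rfl fun v hv => ?_
  have h1 : ∑ p ∈ upairs A with p.1 - p.2 = v, F (p.1 - p.2) =
      ∑ p ∈ upairs A with p.1 - p.2 = v, F v := by
    refine Finset.sum_congr rfl fun p hp => ?_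
    rw [(Finset.mem_filter.1 hp).2]
  rw [h1, Finset.sum_const, nsmul_eq_mul]
  congr 2
  unfold rr
  congr 1
  ext p
  have h0 := Df_pos A hv
  simp only [Finset.mem_filter, mem_upairs]
  constructor
  · rintro ⟨h2, h3⟩; exact ⟨h2, by omega⟩
  · rintro ⟨h2, h3⟩; exact ⟨h2, by omega⟩

lemma card_upairs : 2 * (upairs A).card = A.card * (A.card - 1) := by
  classical
  have h1 : A.offDiag.card = A.card * A.card - A.card := Finset.offDiag_card A
  have h2 : A.offDiag = upairs A ∪ (upairs A).image Prod.swap := by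
    ext p
    rw [Finset.mem_offDiag, Finset.mem_union, Finset.mem_image, mem_upairs]
    constructor
    · rintro ⟨h3, h4, h5⟩
      rcases lt_or_gt_of_ne h5 with h | h
      · right
        refine ⟨(p.2, p.1), ?_, rfl⟩
        rw [mem_upairs]
        exact ⟨⟨h4, h3⟩, h⟩
      · left; exact ⟨⟨h3, h4⟩, h⟩
    · rintro (⟨⟨h3, h4⟩, h5⟩ | ⟨p', hp', rfl⟩)
      · exact ⟨h3, h4, by omega⟩
      · rw [mem_upairs] at hp'
        exact ⟨hp'.1.2, hp'.1.1, by simp only [Prod.fst_swap, Prod.snd_swap]; omega⟩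
  have h3 : Disjoint (upairs A) ((upairs A).image Prod.swap) := by
    rw [Finset.disjoint_left]
    intro p hp hp'
    rw [Finset.mem_image] at hp'
    obtain ⟨p', hp', rfl⟩ := hp'
    rw [mem_upairs] at hp hp'
    simp only [Prod.fst_swap, Prod.snd_swap] at hp
    omega
  rw [h2, Finset.card_union_of_disjoint h3,
    Finset.card_image_of_injective _ Prod.swap_injective] at h1
  rw [two_mul, h1, Nat.mul_sub, mul_one]

lemma sum_rr : ∑ v ∈ Df A, (rr A v : ℝ) = (A.card : ℝ) * (A.card - 1) / 2 := by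
  have h := sum_rr_mul A (fun _ => 1)
  simp only [mul_one] at h
  rw [h, Finset.sum_const, nsmul_eq_mul, mul_one]
  have h2 := card_upairs A
  rcases Nat.eq_zero_or_pos A.card with h0 | h0
  · rw [h0] at h2
    have : (upairs A).card = 0 := by omega
    rw [this, h0]; simp
  · have h3 : (2 : ℝ) * (upairs A).card = A.card * ((A.card - 1 : ℕ) : ℝ) := by exact_mod_cast h2
    rw [Nat.cast_sub h0] at h3
    push_cast at h3
    linarith

lemma sum_rr_le_sq : ∑ v ∈ Df A, (rr A v : ℝ) ≤ (A.card : ℝ) ^ 2 / 2 := by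
  rw [sum_rr]
  have : (0 : ℝ) ≤ A.card := Nat.cast_nonneg _
  nlinarith

lemma rr_le_card (v : ℕ) : rr A v ≤ A.card := by
  unfold rr
  refine Finset.card_le_card_of_injOn (fun p => p.2) ?_ ?_
  · intro p hp
    rw [Finset.mem_coe, Finset.mem_filter, mem_upairs] at hp
    exact hp.1.1.2
  · intro p hp p' hp' h
    rw [Finset.mem_coe, Finset.mem_filter] at hp hp'
    simp only at h
    exact Prod.ext (by rw [hp.2, hp'.2, h]) h

/-- The rich differences. -/
noncomputable def VV (ρ : ℝ) : Finset ℕ := (Df A).filter (fun v => ρ ≤ (rr A v : ℝ))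

/-- The exceptional primes attached to `w`. -/
noncomputable def Pset (ρ : ℝ) (w : ℕ) : Finset ℕ :=
  if w ∈ VV A ρ then PP ((VV A ρ).filter (fun v => ht v w ≤ A.card ^ 2)) w else ∅

lemma Pset_prime (ρ : ℝ) (w p : ℕ) (hp : p ∈ Pset A ρ w) : p.Prime := by
  unfold Pset at hp
  split_ifs at hp with h
  · obtain ⟨w', _, h2⟩ := mem_PP.1 hp
    exact Nat.prime_of_mem_primeFactors h2
  · exact absurd hp (Finset.notMem_empty _)

/-- Predicate of bad numerators. -/
def qb (ρ : ℝ) (Z w : ℕ) (z : ℤ) : Prop := bad (Pset A ρ w) Z w z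

/-- Predicate of good numerators. -/
def qg (ρ : ℝ) (Z w : ℕ) (z : ℤ) : Prop := ¬ qb A ρ Z w z

lemma qb_periodic (ρ : ℝ) (Z w : ℕ) (z m : ℤ) : qb A ρ Z w (z + m * w) ↔ qb A ρ Z w z :=
  bad_add_mul _ _ _ _ _

lemma qg_periodic (ρ : ℝ) (Z w : ℕ) (z m : ℤ) : qg A ρ Z w (z + m * w) ↔ qg A ρ Z w z :=
  not_congr (qb_periodic A ρ Z w z m)

lemma chi_split (ρ : ℝ) (Z w : ℕ) (δ : ℝ) (hδ : δ ≤ 1 / 2) (α : ℝ) :
    chi w δ (fun _ => True) α = chi w δ (qg A ρ Z w) α + chi w δ (qb A ρ Z w) α := by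
  unfold chi
  by_cases h : α ∈ hitSet w δ (fun _ => True)
  · rw [Set.indicator_of_mem h]
    obtain ⟨z, hz, _⟩ := h
    have huniq : ∀ z' : ℤ, |(w : ℝ) * α - z'| < δ → z' = z := by
      intro z' hz'
      have h1 : |((z' : ℝ)) - z| < 1 := by
        have e : ((z' : ℝ)) - z = ((w : ℝ) * α - z) - ((w : ℝ) * α - z') := by ring
        rw [e]
        calc _ ≤ |(w : ℝ) * α - z| + |(w : ℝ) * α - z'| := abs_sub _ _
          _ < 1 := by linarith
      have h2 : |(z' - z : ℤ)| < 1 := by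
        have : ((|(z' - z : ℤ)| : ℤ) : ℝ) < 1 := by push_cast; exact h1
        exact_mod_cast this
      have := Int.abs_lt_one_iff.1 h2
      omega
    by_cases hb : qb A ρ Z w z
    · have h1 : α ∈ hitSet w δ (qb A ρ Z w) := ⟨z, hz, hb⟩
      have h2 : α ∉ hitSet w δ (qg A ρ Z w) := by
        rintro ⟨z', hz', hg⟩
        rw [huniq z' hz'] at hg
        exact hg hb
      rw [Set.indicator_of_mem h1, Set.indicator_of_notMem h2]; ring
    · have h1 : α ∈ hitSet w δ (qg A ρ Z w) := ⟨z, hz, hb⟩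
      have h2 : α ∉ hitSet w δ (qb A ρ Z w) := by
        rintro ⟨z', hz', hg⟩
        rw [huniq z' hz'] at hg
        exact hb hg
      rw [Set.indicator_of_mem h1, Set.indicator_of_notMem h2]; ring
  · have h1 : α ∉ hitSet w δ (qb A ρ Z w) := fun ⟨z, hz, _⟩ => h ⟨z, hz, trivial⟩
    have h2 : α ∉ hitSet w δ (qg A ρ Z w) := fun ⟨z, hz, _⟩ => h ⟨z, hz, trivial⟩
    rw [Set.indicator_of_notMem h, Set.indicator_of_notMem h1, Set.indicator_of_notMem h2]; ring

/-- The full counting function, the good part and the bad part. -/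
noncomputable def RR (δ : ℝ) (α : ℝ) : ℝ :=
  2 / (A.card : ℝ) * ∑ v ∈ Df A, (rr A v : ℝ) * chi v δ (fun _ => True) α

noncomputable def ff (ρ : ℝ) (Z : ℕ) (δ : ℝ) (α : ℝ) : ℝ :=
  2 / (A.card : ℝ) * ∑ v ∈ Df A, (rr A v : ℝ) * chi v δ (qg A ρ Z v) α

noncomputable def hh (ρ : ℝ) (Z : ℕ) (δ : ℝ) (α : ℝ) : ℝ :=
  2 / (A.card : ℝ) * ∑ v ∈ Df A, (rr A v : ℝ) * chi v δ (qb A ρ Z v) α

lemma RR_eq (ρ : ℝ) (Z : ℕ) (δ : ℝ) (hδ : δ ≤ 1 / 2) (α : ℝ) :
    RR A δ α = ff A ρ Z δ α + hh A ρ Z δ α := by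
  unfold RR ff hh
  rw [← mul_add, ← Finset.sum_add_distrib]
  congr 1
  refine Finset.sum_congr rfl fun v _ => ?_
  rw [chi_split A ρ Z v δ hδ, mul_add]

lemma measurable_ff (ρ : ℝ) (Z : ℕ) (δ : ℝ) : Measurable (ff A ρ Z δ) := by
  unfold ff
  apply Measurable.const_mul
  apply Finset.measurable_fun_sum
  intro v _
  exact (measurable_chi _ _ _).const_mul _

lemma measurable_hh (ρ : ℝ) (Z : ℕ) (δ : ℝ) : Measurable (hh A ρ Z δ) := by
  unfold hh
  apply Measurable.const_mul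
  apply Finset.measurable_fun_sum
  intro v _
  exact (measurable_chi _ _ _).const_mul _

lemma hh_nonneg (ρ : ℝ) (Z : ℕ) (δ : ℝ) (α : ℝ) : 0 ≤ hh A ρ Z δ α := by
  unfold hh
  refine mul_nonneg (by positivity) (Finset.sum_nonneg fun v _ => ?_)
  exact mul_nonneg (Nat.cast_nonneg _) (chi_nonneg _ _ _ _)

lemma integral_sum_chi (r : ℕ → ℝ) (q : ℕ → ℤ → Prop) (δ : ℝ) (c : ℝ) :
    ∫ α in (0 : ℝ)..1, c * ∑ v ∈ Df A, r v * chi v δ (q v) α =
      c * ∑ v ∈ Df A, r v * ∫ α in (0 : ℝ)..1, chi v δ (q v) α := by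
  rw [intervalIntegral.integral_const_mul, intervalIntegral.integral_finsetSum]
  · congr 1
    refine Finset.sum_congr rfl fun v _ => ?_
    rw [intervalIntegral.integral_const_mul]
  · intro v _
    exact (chi_intervalIntegrable v δ (q v) 0 1).const_mul _

open Classical in
lemma integral_hh_le (ρ : ℝ) (Z : ℕ) (s : ℝ) (hs : 0 < s) (hA : 0 < A.card)
    (hδ : s / A.card ≤ 1 / 2) (η : ℝ) (hη0 : 0 ≤ η)
    (hη : ∀ v ∈ Df A, (((Finset.range v).filter (fun k : ℕ => qb A ρ Z v (k : ℤ))).card : ℝ) ≤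
      v * η) :
    ∫ α in (0 : ℝ)..1, hh A ρ Z (s / A.card) α ≤ 2 * s * η := by
  have hA0 : (0 : ℝ) < A.card := by exact_mod_cast hA
  have hδ0 : 0 < s / A.card := by positivity
  unfold hh
  rw [integral_sum_chi A (fun v => (rr A v : ℝ)) (fun v => qb A ρ Z v)]
  have h1 : ∀ v ∈ Df A, (rr A v : ℝ) * ∫ α in (0 : ℝ)..1, chi v (s / A.card) (qb A ρ Z v) α ≤
      (rr A v : ℝ) * (2 * (s / A.card) * η) := by
    intro v hv
    refine mul_le_mul_of_nonneg_left ?_ (Nat.cast_nonneg _)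
    have hv0 := Df_pos A hv
    have hv0' : (0 : ℝ) < v := by exact_mod_cast hv0
    rw [integral_chi v hv0 _ hδ0 hδ _ (fun z m => qb_periodic A ρ Z v z m)]
    rw [div_le_iff₀ hv0']
    have := hη v hv
    calc 2 * (s / A.card) * (((Finset.range v).filter (fun k : ℕ => qb A ρ Z v (k : ℤ))).card : ℝ)
        ≤ 2 * (s / A.card) * (v * η) := by gcongr
      _ = _ := by ring
  calc 2 / (A.card : ℝ) * ∑ v ∈ Df A, (rr A v : ℝ) *
        ∫ α in (0 : ℝ)..1, chi v (s / A.card) (qb A ρ Z v) α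
      ≤ 2 / (A.card : ℝ) * ∑ v ∈ Df A, (rr A v : ℝ) * (2 * (s / A.card) * η) := by
        exact mul_le_mul_of_nonneg_left (Finset.sum_le_sum h1) (by positivity)
    _ = 2 / (A.card : ℝ) * ((∑ v ∈ Df A, (rr A v : ℝ)) * (2 * (s / A.card) * η)) := by
        rw [Finset.sum_mul]
    _ ≤ 2 / (A.card : ℝ) * (((A.card : ℝ) ^ 2 / 2) * (2 * (s / A.card) * η)) := by
        gcongr
        exact sum_rr_le_sq A
    _ = 2 * s * η := by field_simp

/-- The exact mean of the full counting function. -/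
lemma integral_RR (s : ℝ) (hs : 0 < s) (hA : 0 < A.card) (hδ : s / A.card ≤ 1 / 2) :
    ∫ α in (0 : ℝ)..1, RR A (s / A.card) α = 2 * s * (A.card - 1) / A.card := by
  classical
  have hA0 : (0 : ℝ) < A.card := by exact_mod_cast hA
  have hδ0 : 0 < s / A.card := by positivity
  unfold RR
  rw [integral_sum_chi A (fun v => (rr A v : ℝ)) (fun _ _ => True)]
  have h1 : ∀ v ∈ Df A, (rr A v : ℝ) * ∫ α in (0 : ℝ)..1, chi v (s / A.card) (fun _ => True) α =
      (rr A v : ℝ) * (2 * (s / A.card)) := by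
    intro v hv
    have hv0 := Df_pos A hv
    have hv0' : (v : ℝ) ≠ 0 := by exact_mod_cast hv0.ne'
    rw [integral_chi v hv0 _ hδ0 hδ (fun _ => True) (fun z m => Iff.rfl)]
    have hc : ((Finset.range v).filter (fun _ : ℕ => True)).card = v := by
      rw [Finset.filter_true_of_mem (fun _ _ => trivial), Finset.card_range]
    simp only [Finset.filter_true, Finset.card_range]
    field_simp
  rw [Finset.sum_congr rfl h1, ← Finset.sum_mul, sum_rr]
  field_simp

lemma integral_ff (ρ : ℝ) (Z : ℕ) (s : ℝ) (hs : 0 < s) (hA : 0 < A.card)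
    (hδ : s / A.card ≤ 1 / 2) :
    ∫ α in (0 : ℝ)..1, ff A ρ Z (s / A.card) α =
      2 * s * (A.card - 1) / A.card - ∫ α in (0 : ℝ)..1, hh A ρ Z (s / A.card) α := by
  rw [← integral_RR A s hs hA hδ]
  have h1 : ∫ α in (0 : ℝ)..1, RR A (s / A.card) α =
      ∫ α in (0 : ℝ)..1, (ff A ρ Z (s / A.card) α + hh A ρ Z (s / A.card) α) := by
    apply intervalIntegral.integral_congr
    intro α _
    exact RR_eq A ρ Z _ hδ α
  have hbddf : IntervalIntegrable (ff A ρ Z (s / A.card)) volume 0 1 := by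
    unfold ff
    apply IntervalIntegrable.const_mul
    have := IntervalIntegrable.sum (μ := volume) (a := (0 : ℝ)) (b := 1) (Df A)
      (f := fun v : ℕ => fun α : ℝ => (rr A v : ℝ) * chi v (s / A.card) (qg A ρ Z v) α) (by
        intro v _
        exact (chi_intervalIntegrable v _ _ 0 1).const_mul _)
    have e : (∑ v ∈ Df A, fun α : ℝ => (rr A v : ℝ) * chi v (s / A.card) (qg A ρ Z v) α) =
        fun α : ℝ => ∑ v ∈ Df A, (rr A v : ℝ) * chi v (s / A.card) (qg A ρ Z v) α := by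
      ext α; simp
    rw [e] at this
    exact this
  have hbddh : IntervalIntegrable (hh A ρ Z (s / A.card)) volume 0 1 := by
    unfold hh
    apply IntervalIntegrable.const_mul
    have := IntervalIntegrable.sum (μ := volume) (a := (0 : ℝ)) (b := 1) (Df A)
      (f := fun v : ℕ => fun α : ℝ => (rr A v : ℝ) * chi v (s / A.card) (qb A ρ Z v) α) (by
        intro v _
        exact (chi_intervalIntegrable v _ _ 0 1).const_mul _)
    have e : (∑ v ∈ Df A, fun α : ℝ => (rr A v : ℝ) * chi v (s / A.card) (qb A ρ Z v) α) =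
        fun α : ℝ => ∑ v ∈ Df A, (rr A v : ℝ) * chi v (s / A.card) (qb A ρ Z v) α := by
      ext α; simp
    rw [e] at this
    exact this
  rw [h1, intervalIntegral.integral_add hbddf hbddh]
  ring

/-- A pair is alive when it is not removed by the bad-hit surgery. -/
def alive (ρ : ℝ) (Z : ℕ) (p : ℕ × ℕ) : Prop :=
  ¬ (p.1 ∈ VV A ρ ∧ p.2 ∈ VV A ρ ∧ Z < ht p.1 p.2 ∧ ht p.1 p.2 ≤ A.card ^ 2)

lemma alive_symm (ρ : ℝ) (Z : ℕ) (v w : ℕ) : alive A ρ Z (v, w) ↔ alive A ρ Z (w, v) := by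
  unfold alive
  simp only [ht_comm v w]
  tauto

open Classical in
lemma joint_bound (ρ : ℝ) (Z : ℕ) (δ : ℝ) (hδ0 : 0 < δ) (hδ : δ ≤ 1 / 2) (v w : ℕ)
    (hv : 0 < v) (hw : 0 < w) :
    ∫ α in (0 : ℝ)..1, chi v δ (qg A ρ Z v) α * chi w δ (qg A ρ Z w) α ≤
      4 * δ ^ 2 + 2 * δ * (if alive A ρ Z (v, w) then 1 / (ht v w : ℝ) else 0) := by
  wlog hvw : v ≤ w generalizing v w
  · have h := this w v hw hv (by omega)
    have e1 : ∫ α in (0 : ℝ)..1, chi v δ (qg A ρ Z v) α * chi w δ (qg A ρ Z w) α =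
        ∫ α in (0 : ℝ)..1, chi w δ (qg A ρ Z w) α * chi v δ (qg A ρ Z v) α := by
      apply intervalIntegral.integral_congr
      intro α _
      exact mul_comm _ _
    rw [e1, ht_comm v w]
    refine h.trans (le_of_eq ?_)
    congr 2
    by_cases ha : alive A ρ Z (v, w)
    · rw [if_pos ha, if_pos ((alive_symm A ρ Z v w).1 ha)]
    · rw [if_neg ha, if_neg (fun h2 => ha ((alive_symm A ρ Z v w).2 h2))]
  have hd0 : 0 < Nat.gcd v w := Nat.gcd_pos_of_pos_left _ hv
  have hwb : Nat.gcd v w * (w / Nat.gcd v w) = w := Nat.mul_div_cancel' (Nat.gcd_dvd_right v w)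
  have hb0 : 0 < w / Nat.gcd v w := Nat.div_pos (Nat.gcd_le_right _ hw) hd0
  have hht : ht v w = w / Nat.gcd v w := by unfold ht; rw [max_eq_right hvw]
  have hw0 : (0 : ℝ) < w := by exact_mod_cast hw
  by_cases ha : alive A ρ Z (v, w)
  · rw [if_pos ha]
    have he : ((Finset.range w).filter
        (fun k : ℕ => w / Nat.gcd v w ∣ k ∧ qg A ρ Z w (k : ℤ))).card ≤ Nat.gcd v w := by
      have h1 : ((Finset.range w).filter
        (fun k : ℕ => w / Nat.gcd v w ∣ k ∧ qg A ρ Z w (k : ℤ))) ⊆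
          (Finset.range w).filter (fun k : ℕ => w / Nat.gcd v w ∣ k) := by
        intro k hk
        rw [Finset.mem_filter] at hk ⊢
        exact ⟨hk.1, hk.2.1⟩
      refine (Finset.card_le_card h1).trans ?_
      refine (card_multiples_le w _ ⟨Nat.gcd v w, by rw [mul_comm]; exact hwb.symm⟩ hb0).trans ?_
      rw [Nat.div_le_iff_le_mul_add_pred hb0]
      have : w ≤ (w / Nat.gcd v w) * Nat.gcd v w := by rw [mul_comm]; exact hwb.ge
      omega
    have h := joint_le v w hv hvw δ hδ0 hδ (qg A ρ Z v) (qg A ρ Z w) (qg_periodic A ρ Z v)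
      (qg_periodic A ρ Z w) (Nat.gcd v w) he
    refine h.trans (le_of_eq ?_)
    rw [hht]
    have hb0' : ((w / Nat.gcd v w : ℕ) : ℝ) ≠ 0 := by exact_mod_cast hb0.ne'
    have hd0' : ((Nat.gcd v w : ℕ) : ℝ) ≠ 0 := by exact_mod_cast hd0.ne'
    have e2 : (w : ℝ) = (Nat.gcd v w : ℕ) * ((w / Nat.gcd v w : ℕ) : ℝ) := by exact_mod_cast hwb.symm
    have e3 : 2 * δ * ((Nat.gcd v w : ℕ) : ℝ) / w = 2 * δ * (1 / ((w / Nat.gcd v w : ℕ) : ℝ)) := by
      rw [mul_div_assoc]
      congr 1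
      rw [div_eq_div_iff hw0.ne' hb0', one_mul]
      exact e2.symm
    rw [e3]
  · rw [if_neg ha]
    have ha' : v ∈ VV A ρ ∧ w ∈ VV A ρ ∧ Z < ht v w ∧ ht v w ≤ A.card ^ 2 := by
      unfold alive at ha
      exact not_not.1 ha
    obtain ⟨hvV, hwV, hZ, hN⟩ := ha'
    have he : ((Finset.range w).filter
        (fun k : ℕ => w / Nat.gcd v w ∣ k ∧ qg A ρ Z w (k : ℤ))).card ≤ 0 := by
      rw [Nat.le_zero, Finset.card_eq_zero, Finset.filter_eq_empty_iff]
      rintro k _ ⟨hk1, hk2⟩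
      apply hk2
      refine ⟨w / Nat.gcd v w, by rw [← hht]; exact hZ, Nat.div_dvd_of_dvd (Nat.gcd_dvd_right v w),
        by exact_mod_cast hk1, ?_⟩
      rw [Nat.mem_factoredNumbers_iff_primeFactors_subset]
      refine ⟨hb0.ne', ?_⟩
      intro p hp
      unfold Pset
      rw [if_pos hwV, mem_PP]
      refine ⟨v, ?_, ?_⟩
      · rw [Finset.mem_filter]; exact ⟨hvV, hN⟩
      · rw [Nat.gcd_comm w v]; exact hp
    have h := joint_le v w hv hvw δ hδ0 hδ (qg A ρ Z v) (qg A ρ Z w) (qg_periodic A ρ Z v)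
      (qg_periodic A ρ Z w) 0 he
    simpa using h

end Var

end Pool.Agent.Helper29.PPC
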