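import Mathlib
import Pool.Agent.Helper29.PpcVar

set_option autoImplicit false

open Finset MeasureTheory

namespace Pool.Agent.Helper29.PPC

section Var

variable (A : Finset ℕ)

lemma ff_intervalIntegrable (ρ : ℝ) (Z : ℕ) (δ : ℝ) (a b : ℝ) :
    IntervalIntegrable (ff A ρ Z δ) volume a b := by
  unfold ff
  apply IntervalIntegrable.const_mul
  have := IntervalIntegrable.sum (μ := volume) (a := a) (b := b) (Df A)
    (f := fun v : ℕ => fun α : ℝ => (rr A v : ℝ) * chi v δ (qg A ρ Z v) α) (by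
      intro v _
      exact (chi_intervalIntegrable v _ _ a b).const_mul _)
  have e : (∑ v ∈ Df A, fun α : ℝ => (rr A v : ℝ) * chi v δ (qg A ρ Z v) α) =
      fun α : ℝ => ∑ v ∈ Df A, (rr A v : ℝ) * chi v δ (qg A ρ Z v) α := by
    ext α; simp
  rw [e] at this
  exact this

lemma ff_sq_eq (ρ : ℝ) (Z : ℕ) (δ : ℝ) (α : ℝ) :
    ff A ρ Z δ α ^ 2 = 4 / (A.card : ℝ) ^ 2 * ∑ p ∈ Df A ×ˢ Df A,
      ((rr A p.1 : ℝ) * rr A p.2) * (chi p.1 δ (qg A ρ Z p.1) α * chi p.2 δ (qg A ρ Z p.2) α) := by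
  unfold ff
  rw [mul_pow, sq (∑ v ∈ Df A, _), Finset.sum_mul_sum, Finset.sum_product]
  congr 1
  · ring
  · refine Finset.sum_congr rfl fun v _ => Finset.sum_congr rfl fun w _ => ?_
    ring

lemma ff_sq_intervalIntegrable (ρ : ℝ) (Z : ℕ) (δ : ℝ) (a b : ℝ) :
    IntervalIntegrable (fun α => ff A ρ Z δ α ^ 2) volume a b := by
  simp_rw [ff_sq_eq]
  apply IntervalIntegrable.const_mul
  have := IntervalIntegrable.sum (μ := volume) (a := a) (b := b) (Df A ×ˢ Df A)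
    (f := fun p : ℕ × ℕ => fun α : ℝ => ((rr A p.1 : ℝ) * rr A p.2) *
      (chi p.1 δ (qg A ρ Z p.1) α * chi p.2 δ (qg A ρ Z p.2) α)) (by
      intro p _
      exact (chi_mul_intervalIntegrable p.1 p.2 δ _ _ a b).const_mul _)
  have e : (∑ p ∈ Df A ×ˢ Df A, fun α : ℝ => ((rr A p.1 : ℝ) * rr A p.2) *
      (chi p.1 δ (qg A ρ Z p.1) α * chi p.2 δ (qg A ρ Z p.2) α)) =
      fun α : ℝ => ∑ p ∈ Df A ×ˢ Df A, ((rr A p.1 : ℝ) * rr A p.2) *
      (chi p.1 δ (qg A ρ Z p.1) α * chi p.2 δ (qg A ρ Z p.2) α) := by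
    ext α; simp
  rw [e] at this
  exact this

open Classical in
/-- The alive GCD sum. -/
noncomputable def aliveSum (ρ : ℝ) (Z : ℕ) : ℝ := ∑ p ∈ Df A ×ˢ Df A,
  ((rr A p.1 : ℝ) * rr A p.2) * (if alive A ρ Z p then 1 / (ht p.1 p.2 : ℝ) else 0)

lemma integral_ff_sq_le (ρ : ℝ) (Z : ℕ) (s : ℝ) (hs : 0 < s) (hA : 0 < A.card)
    (hδ : s / A.card ≤ 1 / 2) :
    ∫ α in (0 : ℝ)..1, ff A ρ Z (s / A.card) α ^ 2 ≤
      4 * s ^ 2 + 8 * s / (A.card : ℝ) ^ 3 * aliveSum A ρ Z := by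
  classical
  have hA0 : (0 : ℝ) < A.card := by exact_mod_cast hA
  have hδ0 : 0 < s / A.card := by positivity
  set δ := s / (A.card : ℝ) with hδdef
  have h1 : ∫ α in (0 : ℝ)..1, ff A ρ Z δ α ^ 2 = 4 / (A.card : ℝ) ^ 2 * ∑ p ∈ Df A ×ˢ Df A,
      ((rr A p.1 : ℝ) * rr A p.2) *
        ∫ α in (0 : ℝ)..1, (chi p.1 δ (qg A ρ Z p.1) α * chi p.2 δ (qg A ρ Z p.2) α) := by
    simp_rw [ff_sq_eq]
    rw [intervalIntegral.integral_const_mul, intervalIntegral.integral_finsetSum]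
    · congr 1
      refine Finset.sum_congr rfl fun p _ => ?_
      rw [intervalIntegral.integral_const_mul]
    · intro p _
      exact (chi_mul_intervalIntegrable p.1 p.2 δ _ _ 0 1).const_mul _
  rw [h1]
  have h2 : ∑ p ∈ Df A ×ˢ Df A, ((rr A p.1 : ℝ) * rr A p.2) *
        ∫ α in (0 : ℝ)..1, (chi p.1 δ (qg A ρ Z p.1) α * chi p.2 δ (qg A ρ Z p.2) α) ≤
      ∑ p ∈ Df A ×ˢ Df A, ((rr A p.1 : ℝ) * rr A p.2) *
        (4 * δ ^ 2 + 2 * δ * (if alive A ρ Z p then 1 / (ht p.1 p.2 : ℝ) else 0)) := by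
    refine Finset.sum_le_sum fun p hp => ?_
    rw [Finset.mem_product] at hp
    refine mul_le_mul_of_nonneg_left ?_ (by positivity)
    exact joint_bound A ρ Z δ hδ0 hδ p.1 p.2 (Df_pos A hp.1) (Df_pos A hp.2)
  have h3 : ∑ p ∈ Df A ×ˢ Df A, ((rr A p.1 : ℝ) * rr A p.2) *
        (4 * δ ^ 2 + 2 * δ * (if alive A ρ Z p then 1 / (ht p.1 p.2 : ℝ) else 0)) =
      4 * δ ^ 2 * (∑ v ∈ Df A, (rr A v : ℝ)) ^ 2 + 2 * δ * aliveSum A ρ Z := by
    unfold aliveSum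
    rw [sq (∑ v ∈ Df A, (rr A v : ℝ)), Finset.sum_mul_sum, ← Finset.sum_product', Finset.mul_sum,
      Finset.mul_sum, ← Finset.sum_add_distrib]
    refine Finset.sum_congr rfl fun p _ => ?_
    ring
  rw [h3] at h2
  have h4 := sum_rr_le_sq A
  have h5 : 0 ≤ ∑ v ∈ Df A, (rr A v : ℝ) := Finset.sum_nonneg fun _ _ => Nat.cast_nonneg _
  have h6 : (∑ v ∈ Df A, (rr A v : ℝ)) ^ 2 ≤ ((A.card : ℝ) ^ 2 / 2) ^ 2 :=
    pow_le_pow_left₀ h5 h4 2
  calc 4 / (A.card : ℝ) ^ 2 * _ ≤ 4 / (A.card : ℝ) ^ 2 *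
        (4 * δ ^ 2 * (∑ v ∈ Df A, (rr A v : ℝ)) ^ 2 + 2 * δ * aliveSum A ρ Z) := by
        gcongr
    _ ≤ 4 / (A.card : ℝ) ^ 2 *
        (4 * δ ^ 2 * ((A.card : ℝ) ^ 2 / 2) ^ 2 + 2 * δ * aliveSum A ρ Z) := by
        gcongr
    _ = 4 * s ^ 2 + 8 * s / (A.card : ℝ) ^ 3 * aliveSum A ρ Z := by
        rw [hδdef]; field_simp; ring

/-- **Variance bound.** -/
theorem variance_le (ρ : ℝ) (Z : ℕ) (s : ℝ) (hs : 0 < s) (hA : 0 < A.card)
    (hδ : s / A.card ≤ 1 / 2) :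
    ∫ α in (0 : ℝ)..1, (ff A ρ Z (s / A.card) α - 2 * s) ^ 2 ≤
      8 * s / (A.card : ℝ) ^ 3 * aliveSum A ρ Z + 8 * s ^ 2 / A.card +
        4 * s * ∫ α in (0 : ℝ)..1, hh A ρ Z (s / A.card) α := by
  have hA0 : (0 : ℝ) < A.card := by exact_mod_cast hA
  have h1 := integral_ff_sq_le A ρ Z s hs hA hδ
  have h2 := integral_ff A ρ Z s hs hA hδ
  have h3 : ∫ α in (0 : ℝ)..1, (ff A ρ Z (s / A.card) α - 2 * s) ^ 2 =
      (∫ α in (0 : ℝ)..1, ff A ρ Z (s / A.card) α ^ 2) -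
        4 * s * (∫ α in (0 : ℝ)..1, ff A ρ Z (s / A.card) α) + 4 * s ^ 2 := by
    have e1 : ∫ α in (0 : ℝ)..1, (ff A ρ Z (s / A.card) α - 2 * s) ^ 2 =
        ∫ α in (0 : ℝ)..1, ((ff A ρ Z (s / A.card) α ^ 2 - 4 * s * ff A ρ Z (s / A.card) α) +
          4 * s ^ 2) := by
      apply intervalIntegral.integral_congr
      intro α _
      simp only
      ring
    rw [e1, intervalIntegral.integral_add, intervalIntegral.integral_sub,
      intervalIntegral.integral_const_mul, intervalIntegral.integral_const]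
    · simp
    · exact ff_sq_intervalIntegrable A ρ Z _ 0 1
    · exact (ff_intervalIntegrable A ρ Z _ 0 1).const_mul _
    · exact (ff_sq_intervalIntegrable A ρ Z _ 0 1).sub
        ((ff_intervalIntegrable A ρ Z _ 0 1).const_mul _)
    · exact intervalIntegrable_const
  rw [h3, h2]
  have h4 : 4 * s * (2 * s * ((A.card : ℝ) - 1) / A.card) = 8 * s ^ 2 - 8 * s ^ 2 / A.card := by
    field_simp
    ring
  have h5 : 4 * s * (2 * s * ((A.card : ℝ) - 1) / A.card -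
      ∫ α in (0 : ℝ)..1, hh A ρ Z (s / A.card) α) = 8 * s ^ 2 - 8 * s ^ 2 / A.card -
        4 * s * ∫ α in (0 : ℝ)..1, hh A ρ Z (s / A.card) α := by
    rw [mul_sub, h4]
  rw [h5]
  linarith

/-- The poor part of the representation function. -/
noncomputable def rlow (ρ : ℝ) (v : ℕ) : ℝ := if (rr A v : ℝ) < ρ then (rr A v : ℝ) else 0

lemma rlow_nonneg (ρ : ℝ) (v : ℕ) : 0 ≤ rlow A ρ v := by
  unfold rlow; split_ifs
  · exact Nat.cast_nonneg _
  · exact le_refl _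

lemma rlow_le (ρ : ℝ) (v : ℕ) : rlow A ρ v ≤ rr A v := by
  unfold rlow; split_ifs
  · exact le_refl _
  · exact Nat.cast_nonneg _

lemma aliveSum_le (ρ : ℝ) (Z : ℕ) (hA : 0 < A.card) :
    aliveSum A ρ Z ≤ gcdSum Z (Df A) (fun v => (rr A v : ℝ)) (fun v => (rr A v : ℝ)) +
      2 * gcdSum (A.card ^ 2) (Df A) (rlow A ρ) (fun v => (rr A v : ℝ)) + (A.card : ℝ) ^ 2 / 4 := by
  classical
  have hA0 : (0 : ℝ) < A.card := by exact_mod_cast hA
  have hsymm : gcdSum (A.card ^ 2) (Df A) (rlow A ρ) (fun v => (rr A v : ℝ)) =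
      gcdSum (A.card ^ 2) (Df A) (fun v => (rr A v : ℝ)) (rlow A ρ) := by
    unfold gcdSum
    rw [Finset.sum_filter, Finset.sum_filter, Finset.sum_product, Finset.sum_product_right]
    refine Finset.sum_congr rfl fun v _ => Finset.sum_congr rfl fun w _ => ?_
    simp only [ht_comm v w]
    split_ifs
    · ring
    · rfl
  have hlast : ∑ p ∈ Df A ×ˢ Df A, ((rr A p.1 : ℝ) * rr A p.2) / (A.card : ℝ) ^ 2 ≤
      (A.card : ℝ) ^ 2 / 4 := by
    have e0 : ∑ p ∈ Df A ×ˢ Df A, ((rr A p.1 : ℝ) * rr A p.2) =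
        (∑ v ∈ Df A, (rr A v : ℝ)) ^ 2 := by
      rw [sq, Finset.sum_mul_sum, ← Finset.sum_product']
    rw [← Finset.sum_div, e0]
    have h4 := sum_rr_le_sq A
    have h5 : 0 ≤ ∑ v ∈ Df A, (rr A v : ℝ) := Finset.sum_nonneg fun _ _ => Nat.cast_nonneg _
    have h6 : (∑ v ∈ Df A, (rr A v : ℝ)) ^ 2 ≤ ((A.card : ℝ) ^ 2 / 2) ^ 2 :=
      pow_le_pow_left₀ h5 h4 2
    rw [div_le_iff₀ (by positivity)]
    calc _ ≤ _ := h6
      _ = _ := by ring
  have hmain : aliveSum A ρ Z ≤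
      ∑ p ∈ Df A ×ˢ Df A,
        ((if ht p.1 p.2 ≤ Z then (rr A p.1 : ℝ) * rr A p.2 / (ht p.1 p.2 : ℝ) else 0) +
        (if ht p.1 p.2 ≤ A.card ^ 2 then rlow A ρ p.1 * rr A p.2 / (ht p.1 p.2 : ℝ) else 0) +
        (if ht p.1 p.2 ≤ A.card ^ 2 then (rr A p.1 : ℝ) * rlow A ρ p.2 / (ht p.1 p.2 : ℝ) else 0) +
        ((rr A p.1 : ℝ) * rr A p.2) / (A.card : ℝ) ^ 2) := by
    unfold aliveSum
    refine Finset.sum_le_sum fun p hp => ?_
    rw [Finset.mem_product] at hp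
    have n1 : (0 : ℝ) ≤ (if ht p.1 p.2 ≤ Z then (rr A p.1 : ℝ) * rr A p.2 / (ht p.1 p.2 : ℝ) else 0) := by
      split_ifs
      · positivity
      · exact le_refl _
    have hl1 := rlow_nonneg A ρ p.1
    have hl2 := rlow_nonneg A ρ p.2
    have n2 : (0 : ℝ) ≤ (if ht p.1 p.2 ≤ A.card ^ 2 then
        rlow A ρ p.1 * rr A p.2 / (ht p.1 p.2 : ℝ) else 0) := by
      split_ifs
      · positivity
      · exact le_refl _
    have n3 : (0 : ℝ) ≤ (if ht p.1 p.2 ≤ A.card ^ 2 then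
        (rr A p.1 : ℝ) * rlow A ρ p.2 / (ht p.1 p.2 : ℝ) else 0) := by
      split_ifs
      · positivity
      · exact le_refl _
    have n4 : (0 : ℝ) ≤ ((rr A p.1 : ℝ) * rr A p.2) / (A.card : ℝ) ^ 2 := by positivity
    by_cases ha : alive A ρ Z p
    · rw [if_pos ha, mul_one_div]
      by_cases h1 : ht p.1 p.2 ≤ Z
      · rw [if_pos h1] at n1 ⊢
        linarith
      · by_cases h2 : ht p.1 p.2 ≤ A.card ^ 2
        · rw [if_pos h2] at n2 n3 ⊢
          rw [if_pos h2]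
          have h3 : ¬ (p.1 ∈ VV A ρ ∧ p.2 ∈ VV A ρ) := by
            intro h3
            exact ha ⟨h3.1, h3.2, not_le.1 h1, h2⟩
          by_cases h4 : p.1 ∈ VV A ρ
          · have h5 : p.2 ∉ VV A ρ := fun h5 => h3 ⟨h4, h5⟩
            have h6 : rlow A ρ p.2 = rr A p.2 := by
              unfold rlow
              rw [if_pos]
              by_contra h7
              exact h5 (Finset.mem_filter.2 ⟨hp.2, not_lt.1 h7⟩)
            rw [h6] at n3 ⊢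
            linarith
          · have h6 : rlow A ρ p.1 = rr A p.1 := by
              unfold rlow
              rw [if_pos]
              by_contra h7
              exact h4 (Finset.mem_filter.2 ⟨hp.1, not_lt.1 h7⟩)
            rw [h6] at n2 ⊢
            linarith
        · have h7 : (A.card : ℝ) ^ 2 ≤ ht p.1 p.2 := by
            have : A.card ^ 2 ≤ ht p.1 p.2 := (not_le.1 h2).le
            exact_mod_cast this
          have h8 : (rr A p.1 : ℝ) * rr A p.2 / (ht p.1 p.2 : ℝ) ≤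
              ((rr A p.1 : ℝ) * rr A p.2) / (A.card : ℝ) ^ 2 :=
            div_le_div_of_nonneg_left (mul_nonneg (Nat.cast_nonneg _) (Nat.cast_nonneg _))
              (pow_pos hA0 2) h7
          linarith
    · rw [if_neg ha, mul_zero]
      linarith
  refine hmain.trans ?_
  rw [Finset.sum_add_distrib, Finset.sum_add_distrib, Finset.sum_add_distrib]
  have e1 : gcdSum Z (Df A) (fun v => (rr A v : ℝ)) (fun v => (rr A v : ℝ)) =
      ∑ p ∈ Df A ×ˢ Df A,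
        (if ht p.1 p.2 ≤ Z then (rr A p.1 : ℝ) * rr A p.2 / (ht p.1 p.2 : ℝ) else 0) := by
    unfold gcdSum; rw [Finset.sum_filter]
  have e2 : gcdSum (A.card ^ 2) (Df A) (rlow A ρ) (fun v => (rr A v : ℝ)) =
      ∑ p ∈ Df A ×ˢ Df A,
        (if ht p.1 p.2 ≤ A.card ^ 2 then rlow A ρ p.1 * rr A p.2 / (ht p.1 p.2 : ℝ) else 0) := by
    unfold gcdSum; rw [Finset.sum_filter]
  have e3 : gcdSum (A.card ^ 2) (Df A) (fun v => (rr A v : ℝ)) (rlow A ρ) =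
      ∑ p ∈ Df A ×ˢ Df A,
        (if ht p.1 p.2 ≤ A.card ^ 2 then (rr A p.1 : ℝ) * rlow A ρ p.2 / (ht p.1 p.2 : ℝ) else 0) := by
    unfold gcdSum; rw [Finset.sum_filter]
  rw [← e1, ← e2, ← e3, ← hsymm]
  linarith

end Var

end Pool.Agent.Helper29.PPC
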