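import Mathlib
import Pool.Agent.Helper29.PpcVar2

set_option autoImplicit false

open Finset MeasureTheory

namespace Pool.Agent.Helper29.PPC

lemma natlog_le (N : ℕ) (hN : 1 ≤ N) : (Nat.log 2 N : ℝ) ≤ 2 * Real.log N := by
  have h1 : 2 ^ Nat.log 2 N ≤ N := Nat.pow_log_le_self 2 (by omega)
  have h2 : ((2 : ℝ)) ^ Nat.log 2 N ≤ N := by exact_mod_cast h1
  have h3 := Real.log_le_log (by positivity) h2
  rw [Real.log_pow] at h3
  have h4 : (0.5 : ℝ) ≤ Real.log 2 := by linarith [Real.log_two_gt_d9]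
  have h5 : (0 : ℝ) ≤ (Nat.log 2 N : ℝ) := Nat.cast_nonneg _
  nlinarith

lemma gcdSum_le_TT (Z : ℕ) (D : Finset ℕ) (hD : ∀ v ∈ D, 0 < v) (f : ℕ → ℝ)
    (hf0 : ∀ v, 0 ≤ f v) : gcdSum Z D f f ≤ TT Z D f := by
  have h := gcdSum_sq_le Z D hD f f hf0 hf0
  rw [← sq] at h
  exact le_of_sq_le_sq h (TT_nonneg Z D f)

/-- The main range: `H ≤ exp((log N)^c)`. -/
lemma main_range (C C₀ : ℝ) (hC : 1 < C) (hC₀ : 0 ≤ C₀) :
    ∃ c η C₄ : ℝ, 0 < c ∧ c ≤ 1 ∧ 0 < η ∧ η ≤ 1 ∧ 0 ≤ C₄ ∧ ∀ A : Finset ℕ,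
      1 ≤ Real.log A.card →
      ∑ v ∈ Df A, (rr A v : ℝ) ^ 2 ≤ C₀ * (A.card : ℝ) ^ 3 / Real.log A.card ^ C →
      gcdSum ⌈Real.exp (Real.log A.card ^ c)⌉₊ (Df A) (fun v => (rr A v : ℝ))
        (fun v => (rr A v : ℝ)) ≤ C₄ * (A.card : ℝ) ^ 3 * Real.log A.card ^ (-(1 + η)) := by
  obtain ⟨j, hj⟩ := exists_nat_ge (2 * (C + 1 / 2) / (C - 1))
  set Q : ℕ := 2 ^ j with hQ
  have hQ1 : 1 ≤ Q := Nat.one_le_two_pow
  have hQ1' : (1 : ℝ) ≤ Q := by exact_mod_cast hQ1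
  have hjQ : (j : ℝ) ≤ Q := by
    have : j < 2 ^ j := Nat.lt_two_pow_self
    exact_mod_cast this.le
  have hC1 : 0 < C - 1 := by linarith
  have hQC : C + 1 / 2 ≤ (C - 1) * Q / 2 := by
    have h1 : 2 * (C + 1 / 2) / (C - 1) ≤ Q := hj.trans hjQ
    rw [div_le_iff₀ hC1] at h1
    linarith
  set c : ℝ := min 1 ((C - 1) / (8 * Q)) with hc
  have hc0 : 0 < c := lt_min one_pos (by positivity)
  have hc1 : c ≤ 1 := min_le_left _ _
  have hcQ : 2 * c * Q ^ 2 ≤ (C - 1) * Q / 4 := by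
    have h1 : c ≤ (C - 1) / (8 * Q) := min_le_right _ _
    rw [le_div_iff₀ (by positivity)] at h1
    nlinarith
  set η : ℝ := min 1 ((C - 1) / 4) with hη
  have hη0 : 0 < η := lt_min one_pos (by positivity)
  have hη1 : η ≤ 1 := min_le_left _ _
  have hη2 : η ≤ (C - 1) / 4 := min_le_right _ _
  have hexp : -C * ((Q : ℝ) - 1) + (2 * c * Q ^ 2 + 1 / 2) ≤ -(1 + η) * Q := by
    nlinarith
  set C₅ : ℝ := 20 * 3 ^ (2 * Q ^ 2) with hC₅
  have hC₅1 : 1 ≤ C₅ := by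
    have : (1 : ℝ) ≤ 3 ^ (2 * Q ^ 2) := one_le_pow₀ (by norm_num)
    linarith
  refine ⟨c, η, (C₀ + 1) * C₅, hc0, hc1, hη0, hη1, by positivity, ?_⟩
  intro A hl hE
  set N : ℝ := (A.card : ℝ) with hN
  set l := Real.log N with hldef
  have hl0 : 0 < l := by linarith
  have hN1 : 1 ≤ N := by
    by_contra h
    have h0 : 0 ≤ N := Nat.cast_nonneg _
    have := Real.log_nonpos h0 (not_le.1 h).le
    linarith
  have hN0 : 0 < N := by linarith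
  have hcard1 : 1 ≤ A.card := by
    have h1 := hN1
    rw [hN] at h1
    exact_mod_cast h1
  have hlc : 1 ≤ l ^ c := Real.one_le_rpow hl hc0.le
  set Z := ⌈Real.exp (l ^ c)⌉₊ with hZ
  have hZ1 : 1 ≤ Z := by
    rw [hZ, Nat.one_le_ceil_iff]; positivity
  have hZle : (Z : ℝ) ≤ 2 * Real.exp (l ^ c) := by
    have h1 := (Nat.ceil_lt_add_one (Real.exp_pos (l ^ c)).le).le
    have h2 : 1 ≤ Real.exp (l ^ c) := Real.one_le_exp (by positivity)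
    linarith
  have hHZ : HH Z ≤ 3 * l ^ c := by
    have h1 := HH_le Z hZ1
    have h2 : Real.log Z ≤ Real.log (2 * Real.exp (l ^ c)) :=
      Real.log_le_log (by exact_mod_cast hZ1) hZle
    rw [Real.log_mul (by norm_num) (Real.exp_pos _).ne', Real.log_exp] at h2
    have h3 : Real.log 2 ≤ 1 := by linarith [Real.log_two_lt_d9]
    linarith
  refine (gcdSum_le_TT Z (Df A) (fun v hv => Df_pos A hv) _ (fun v => Nat.cast_nonneg _)).trans ?_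
  have hTT := TT_pow_le A Z j (Df A) (fun v hv => Df_pos A hv) (fun v => (rr A v : ℝ))
    (fun v => Nat.cast_nonneg _) (fun v => le_refl _)
  rw [← hQ] at hTT
  have hsqrt : Real.sqrt (HH Z ^ (2 ^ (j + 1) * 2 ^ (j + 1)) *
        (128 * (A.card : ℝ) ^ 6 * (Nat.log 2 A.card + 1))) ≤
      C₅ * N ^ 3 * l ^ (2 * c * Q ^ 2 + 1 / 2) := by
    apply Real.sqrt_le_iff.2
    refine ⟨by positivity, ?_⟩
    have e1 : 2 ^ (j + 1) * 2 ^ (j + 1) = 4 * Q ^ 2 := by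
      rw [hQ, pow_succ]; ring
    rw [e1]
    have e2 : HH Z ^ (4 * Q ^ 2) ≤ (3 * l ^ c) ^ (4 * Q ^ 2) :=
      pow_le_pow_left₀ (HH_nonneg Z) hHZ _
    have e3 : (Nat.log 2 A.card : ℝ) + 1 ≤ 3 * l := by
      have := natlog_le A.card hcard1
      linarith
    have e4 : (l ^ c) ^ (4 * Q ^ 2) = l ^ (4 * c * Q ^ 2) := by
      rw [← Real.rpow_natCast, ← Real.rpow_mul hl0.le]
      congr 1
      push_cast
      ring
    have e5 : (C₅ * N ^ 3 * l ^ (2 * c * Q ^ 2 + 1 / 2)) ^ 2 =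
        400 * 3 ^ (4 * Q ^ 2) * N ^ 6 * (l ^ (4 * c * Q ^ 2) * l) := by
      have e6 : (l ^ (2 * c * Q ^ 2 + 1 / 2)) ^ 2 = l ^ (4 * c * Q ^ 2) * l := by
        rw [← Real.rpow_natCast, ← Real.rpow_mul hl0.le]
        have e7 : (2 * c * (Q : ℝ) ^ 2 + 1 / 2) * ((2 : ℕ) : ℝ) = 4 * c * Q ^ 2 + 1 := by
          push_cast; ring
        rw [e7, Real.rpow_add hl0, Real.rpow_one]
      rw [mul_pow, mul_pow, e6, hC₅, mul_pow]
      have e8 : ((3 : ℝ) ^ (2 * Q ^ 2)) ^ 2 = 3 ^ (4 * Q ^ 2) := by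
        rw [← pow_mul]; congr 1; ring
      rw [e8]; ring
    rw [e5]
    calc HH Z ^ (4 * Q ^ 2) * (128 * N ^ 6 * ((Nat.log 2 A.card : ℝ) + 1))
        ≤ (3 * l ^ c) ^ (4 * Q ^ 2) * (128 * N ^ 6 * (3 * l)) := by gcongr
      _ = 384 * 3 ^ (4 * Q ^ 2) * N ^ 6 * (l ^ (4 * c * Q ^ 2) * l) := by
          rw [mul_pow, e4]; ring
      _ ≤ 400 * 3 ^ (4 * Q ^ 2) * N ^ 6 * (l ^ (4 * c * Q ^ 2) * l) := by
          gcongr
          norm_num
  have hTTQ : TT Z (Df A) (fun v => (rr A v : ℝ)) ^ Q ≤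
      ((C₀ + 1) * C₅ * N ^ 3 * l ^ (-(1 + η))) ^ Q := by
    have e1 : (∑ v ∈ Df A, (rr A v : ℝ) ^ 2) ^ (Q - 1) ≤ (C₀ * N ^ 3 * l ^ (-C)) ^ (Q - 1) := by
      apply pow_le_pow_left₀ (Finset.sum_nonneg fun _ _ => by positivity)
      refine hE.trans (le_of_eq ?_)
      rw [Real.rpow_neg hl0.le]; ring
    calc TT Z (Df A) (fun v => (rr A v : ℝ)) ^ Q ≤ _ := hTT
      _ ≤ (C₀ * N ^ 3 * l ^ (-C)) ^ (Q - 1) * (C₅ * N ^ 3 * l ^ (2 * c * Q ^ 2 + 1 / 2)) :=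
          mul_le_mul e1 hsqrt (Real.sqrt_nonneg _) (by positivity)
      _ = (C₀ ^ (Q - 1) * C₅) * (N ^ 3) ^ Q * l ^ (-C * ((Q : ℝ) - 1) + (2 * c * Q ^ 2 + 1 / 2)) := by
          have e2 : (l ^ (-C)) ^ (Q - 1) = l ^ (-C * ((Q : ℝ) - 1)) := by
            rw [← Real.rpow_natCast, ← Real.rpow_mul hl0.le]
            congr 1
            rw [Nat.cast_sub hQ1]; push_cast; ring
          have e3 : (N ^ 3) ^ Q = (N ^ 3) ^ (Q - 1) * N ^ 3 := by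
            rw [← pow_succ]; congr 1; omega
          rw [mul_pow, mul_pow, e2, e3,
            Real.rpow_add hl0 (-C * ((Q : ℝ) - 1)) (2 * c * Q ^ 2 + 1 / 2)]
          ring
      _ ≤ ((C₀ + 1) * C₅) ^ Q * (N ^ 3) ^ Q * l ^ (-(1 + η) * Q) := by
          have e4 : C₀ ^ (Q - 1) * C₅ ≤ ((C₀ + 1) * C₅) ^ Q := by
            rw [mul_pow]
            have f1 : C₀ ^ (Q - 1) ≤ (C₀ + 1) ^ Q := by
              calc C₀ ^ (Q - 1) ≤ (C₀ + 1) ^ (Q - 1) := pow_le_pow_left₀ hC₀ (by linarith) _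
                _ ≤ (C₀ + 1) ^ Q := pow_le_pow_right₀ (by linarith) (by omega)
            have f2 : C₅ ≤ C₅ ^ Q := by
              calc C₅ = C₅ ^ 1 := (pow_one _).symm
                _ ≤ C₅ ^ Q := pow_le_pow_right₀ hC₅1 hQ1
            exact mul_le_mul f1 f2 (by linarith) (by positivity)
          have e5 : l ^ (-C * ((Q : ℝ) - 1) + (2 * c * Q ^ 2 + 1 / 2)) ≤ l ^ (-(1 + η) * Q) :=
            Real.rpow_le_rpow_of_exponent_le hl hexp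
          gcongr
      _ = ((C₀ + 1) * C₅ * N ^ 3 * l ^ (-(1 + η))) ^ Q := by
          have e6 : ((C₀ + 1) * C₅ * N ^ 3 * l ^ (-(1 + η))) ^ Q =
              ((C₀ + 1) * C₅) ^ Q * (N ^ 3) ^ Q * (l ^ (-(1 + η))) ^ Q := by
            rw [mul_pow, mul_pow]
          rw [e6]
          congr 1
          rw [← Real.rpow_natCast (l ^ (-(1 + η))), ← Real.rpow_mul hl0.le]
  exact le_of_pow_le_pow_left₀ (by omega) (by positivity) hTTQ

end Pool.Agent.Helper29.PPC
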