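import Mathlib
import Pool.Agent.Helper29.PpcAsym

set_option autoImplicit false

open Finset MeasureTheory Filter

namespace Pool.Agent.Helper29.PPC

/-- The threshold for rich differences. -/
noncomputable def rhoN (A : Finset ℕ) : ℝ := (A.card : ℝ) / (1 + 2 * Real.log A.card) ^ 26

/-- The poor range. -/
lemma low_range (A : Finset ℕ) (hl : 1 ≤ Real.log A.card) :
    gcdSum (A.card ^ 2) (Df A) (rlow A (rhoN A)) (fun v => (rr A v : ℝ)) ≤
      3 * (A.card : ℝ) ^ 3 * (1 + 2 * Real.log A.card) ^ (-2 : ℤ) := by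
  set N : ℝ := (A.card : ℝ) with hN
  set l := Real.log N with hldef
  set L := 1 + 2 * l with hL
  have hl0 : 0 < l := by linarith
  have hL1 : 1 ≤ L := by linarith
  have hL0 : 0 < L := by linarith
  have hN1 : 1 ≤ N := by
    by_contra h
    have h0 : 0 ≤ N := Nat.cast_nonneg _
    have := Real.log_nonpos h0 (not_le.1 h).le
    linarith
  have hN0 : 0 < N := by linarith
  have hcard1 : 1 ≤ A.card := by
    have h1 := hN1
    rw [hN] at h1
    exact_mod_cast h1
  have hρ : rhoN A = N / L ^ 26 := rfl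
  have hρ0 : 0 ≤ rhoN A := by rw [hρ]; positivity
  set X := gcdSum (A.card ^ 2) (Df A) (rlow A (rhoN A)) (fun v => (rr A v : ℝ)) with hX
  have hX0 : 0 ≤ X := gcdSum_nonneg _ _ _ _ (rlow_nonneg A _) (fun v => Nat.cast_nonneg _)
  have h1 : X ^ 2 ≤ TT (A.card ^ 2) (Df A) (rlow A (rhoN A)) *
      TT (A.card ^ 2) (Df A) (fun v => (rr A v : ℝ)) :=
    gcdSum_sq_le _ _ (fun v hv => Df_pos A hv) _ _ (rlow_nonneg A _) (fun v => Nat.cast_nonneg _)
  set S : ℝ := Real.sqrt (HH (A.card ^ 2) ^ (2 ^ (1 + 1) * 2 ^ (1 + 1)) *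
        (128 * (A.card : ℝ) ^ 6 * (Nat.log 2 A.card + 1))) with hS
  have hSle : S ≤ 12 * L ^ 9 * N ^ 3 := by
    rw [hS]
    apply Real.sqrt_le_iff.2
    refine ⟨by positivity, ?_⟩
    have e1 : HH (A.card ^ 2) ≤ L := by
      have h2 := HH_le (A.card ^ 2) (Nat.one_le_pow _ _ hcard1)
      push_cast at h2
      rw [Real.log_pow] at h2
      exact h2
    have e2 : (Nat.log 2 A.card : ℝ) + 1 ≤ L := by
      have := natlog_le A.card hcard1
      linarith
    calc HH (A.card ^ 2) ^ (2 ^ (1 + 1) * 2 ^ (1 + 1)) * (128 * N ^ 6 * ((Nat.log 2 A.card : ℝ) + 1))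
        ≤ L ^ (2 ^ (1 + 1) * 2 ^ (1 + 1)) * (128 * N ^ 6 * L) := by
          have := HH_nonneg (A.card ^ 2)
          gcongr
      _ = 128 * L ^ 17 * N ^ 6 := by norm_num; ring
      _ ≤ 144 * L ^ 18 * N ^ 6 := by
          have : L ^ 17 ≤ L ^ 18 := pow_le_pow_right₀ hL1 (by norm_num)
          have h17 : 0 < L ^ 17 := by positivity
          have : 128 * L ^ 17 ≤ 144 * L ^ 18 := by linarith
          gcongr
      _ = (12 * L ^ 9 * N ^ 3) ^ 2 := by ring
  have hsum1 : ∑ v ∈ Df A, rlow A (rhoN A) v ^ 2 ≤ N ^ 3 / (2 * L ^ 26) := by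
    calc ∑ v ∈ Df A, rlow A (rhoN A) v ^ 2 ≤ ∑ v ∈ Df A, rhoN A * (rr A v : ℝ) := by
          refine Finset.sum_le_sum fun v _ => ?_
          unfold rlow
          have h0 : (0 : ℝ) ≤ rr A v := Nat.cast_nonneg _
          split_ifs with h
          · rw [sq]; exact mul_le_mul_of_nonneg_right h.le h0
          · rw [zero_pow two_ne_zero]; exact mul_nonneg hρ0 h0
      _ = rhoN A * ∑ v ∈ Df A, (rr A v : ℝ) := by rw [Finset.mul_sum]
      _ ≤ rhoN A * (N ^ 2 / 2) := mul_le_mul_of_nonneg_left (sum_rr_le_sq A) hρ0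
      _ = N ^ 3 / (2 * L ^ 26) := by rw [hρ]; field_simp
  have hsum2 : ∑ v ∈ Df A, (rr A v : ℝ) ^ 2 ≤ N ^ 3 / 2 := by
    calc ∑ v ∈ Df A, (rr A v : ℝ) ^ 2 ≤ ∑ v ∈ Df A, N * (rr A v : ℝ) := by
          refine Finset.sum_le_sum fun v _ => ?_
          rw [sq]
          refine mul_le_mul_of_nonneg_right ?_ (Nat.cast_nonneg _)
          rw [hN]
          exact_mod_cast rr_le_card A v
      _ = N * ∑ v ∈ Df A, (rr A v : ℝ) := by rw [Finset.mul_sum]
      _ ≤ N * (N ^ 2 / 2) := mul_le_mul_of_nonneg_left (sum_rr_le_sq A) hN0.le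
      _ = N ^ 3 / 2 := by ring
  have hT1 : TT (A.card ^ 2) (Df A) (rlow A (rhoN A)) ^ 2 ≤ (N ^ 3 / (2 * L ^ 26)) * (12 * L ^ 9 * N ^ 3) := by
    have := TT_pow_le A (A.card ^ 2) 1 (Df A) (fun v hv => Df_pos A hv) (rlow A (rhoN A))
      (rlow_nonneg A _) (rlow_le A _)
    rw [← hS] at this
    simp only [pow_one, show 2 - 1 = 1 from rfl] at this
    exact this.trans (mul_le_mul hsum1 hSle (Real.sqrt_nonneg _) (by positivity))
  have hT2 : TT (A.card ^ 2) (Df A) (fun v => (rr A v : ℝ)) ^ 2 ≤ (N ^ 3 / 2) * (12 * L ^ 9 * N ^ 3) := by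
    have := TT_pow_le A (A.card ^ 2) 1 (Df A) (fun v hv => Df_pos A hv) (fun v => (rr A v : ℝ))
      (fun v => Nat.cast_nonneg _) (fun v => le_refl _)
    rw [← hS] at this
    simp only [pow_one, show 2 - 1 = 1 from rfl] at this
    exact this.trans (mul_le_mul hsum2 hSle (Real.sqrt_nonneg _) (by positivity))
  have h4 : X ^ 4 ≤ (3 * N ^ 3 * L ^ (-2 : ℤ)) ^ 4 := by
    calc X ^ 4 = (X ^ 2) ^ 2 := by ring
      _ ≤ (TT (A.card ^ 2) (Df A) (rlow A (rhoN A)) *
          TT (A.card ^ 2) (Df A) (fun v => (rr A v : ℝ))) ^ 2 := pow_le_pow_left₀ (sq_nonneg _) h1 2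
      _ = TT (A.card ^ 2) (Df A) (rlow A (rhoN A)) ^ 2 *
          TT (A.card ^ 2) (Df A) (fun v => (rr A v : ℝ)) ^ 2 := by rw [mul_pow]
      _ ≤ ((N ^ 3 / (2 * L ^ 26)) * (12 * L ^ 9 * N ^ 3)) * ((N ^ 3 / 2) * (12 * L ^ 9 * N ^ 3)) :=
          mul_le_mul hT1 hT2 (sq_nonneg _) (by positivity)
      _ = 36 * N ^ 12 / L ^ 8 := by field_simp; ring
      _ ≤ 81 * N ^ 12 / L ^ 8 := by gcongr; norm_num
      _ = (3 * N ^ 3 * L ^ (-2 : ℤ)) ^ 4 := by
          rw [zpow_neg]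
          field_simp
          norm_cast
  exact le_of_pow_le_pow_left₀ (by norm_num) (by positivity) h4

/-- The elementary growth facts. -/
lemma growth (c : ℝ) (hc0 : 0 < c) :
    ∃ x₀ : ℝ, 1 ≤ x₀ ∧ ∀ x : ℝ, x₀ ≤ x →
      4 * (x ^ (29 : ℝ)) ^ (c / 58) * (2 + Real.log (x ^ (29 : ℝ))) ≤ (c / 116) * x ^ c ∧
      Real.exp (-(c / 116) * x ^ c) ≤ x ^ (-2 : ℝ) ∧ 4 * (1 + 2 * x) ^ 28 ≤ x ^ (29 : ℝ) := by
  have hlog : ∀ᶠ x : ℝ in atTop, Real.log x ≤ (c / 116 / 4 / 58) * x ^ (c / 2) := by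
    have h := (isLittleO_log_rpow_atTop (r := c / 2) (by positivity)).def
      (show (0 : ℝ) < c / 116 / 4 / 58 by positivity)
    filter_upwards [h, eventually_ge_atTop (1 : ℝ)] with x hx hx1
    rw [Real.norm_of_nonneg (Real.log_nonneg hx1), Real.norm_of_nonneg (by positivity)] at hx
    exact hx
  have htend : Tendsto (fun x : ℝ => x ^ (c / 2)) atTop atTop := tendsto_rpow_atTop (by positivity)
  have hconst : ∀ᶠ x : ℝ in atTop, 2 * (4 * 116 * 2 / c) ≤ x ^ (c / 2) :=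
    htend.eventually_ge_atTop _
  have hexp : ∀ᶠ x : ℝ in atTop, Real.exp (-(c / 116) * x ^ c) ≤ x ^ (-2 : ℝ) := by
    have h := (isLittleO_rpow_exp_pos_mul_atTop (2 / c) (show (0 : ℝ) < c / 116 by positivity)).def
      (show (0 : ℝ) < 1 by norm_num)
    have h2 := (tendsto_rpow_atTop hc0).eventually h
    filter_upwards [h2, eventually_ge_atTop (1 : ℝ)] with x hx hx1
    have hx0 : 0 < x := by linarith
    rw [Real.norm_of_nonneg (by positivity), Real.norm_of_nonneg (Real.exp_pos _).le, one_mul,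
      ← Real.rpow_mul hx0.le] at hx
    have e : c * (2 / c) = 2 := by field_simp
    rw [e] at hx
    rw [Real.rpow_neg hx0.le, neg_mul, Real.exp_neg]
    exact inv_anti₀ (by positivity) hx
  have hall := hlog.and (hconst.and (hexp.and (eventually_ge_atTop (4 * (3 : ℝ) ^ 28))))
  obtain ⟨x₀, hx₀⟩ := eventually_atTop.1 hall
  refine ⟨max 1 x₀, le_max_left _ _, ?_⟩
  intro x hx
  obtain ⟨h1, h2, h3, h4⟩ := hx₀ x ((le_max_right _ _).trans hx)
  have hx1 : 1 ≤ x := (le_max_left _ _).trans hx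
  have hx0 : 0 < x := by linarith
  refine ⟨?_, h3, ?_⟩
  · have e1 : (x ^ (29 : ℝ)) ^ (c / 58) = x ^ (c / 2) := by
      rw [← Real.rpow_mul hx0.le]; congr 1; ring
    have e2 : Real.log (x ^ (29 : ℝ)) = 29 * Real.log x := Real.log_rpow hx0 _
    have e3 : x ^ c = x ^ (c / 2) * x ^ (c / 2) := by
      rw [← Real.rpow_add hx0]; congr 1; ring
    rw [e1, e2, e3]
    set y := x ^ (c / 2) with hy
    have hy0 : 0 < y := Real.rpow_pos_of_pos hx0 _
    have h5 : 4 * (2 + 29 * Real.log x) ≤ (c / 116) * y := by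
      have h6 : 4 * (29 * Real.log x) ≤ (c / 116) * y / 2 := by
        calc 4 * (29 * Real.log x) ≤ 4 * (29 * ((c / 116 / 4 / 58) * y)) := by gcongr
          _ = (c / 116) * y / 2 := by ring
      have h7 : 4 * 2 ≤ (c / 116) * y / 2 := by
        have : (c / 116) * (2 * (4 * 116 * 2 / c)) / 2 ≤ (c / 116) * y / 2 := by gcongr
        have e : (c / 116) * (2 * (4 * 116 * 2 / c)) / 2 = 8 := by field_simp; norm_num
        rw [e] at this
        linarith
      linarith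
    calc 4 * y * (2 + 29 * Real.log x) = y * (4 * (2 + 29 * Real.log x)) := by ring
      _ ≤ y * ((c / 116) * y) := by gcongr
      _ = c / 116 * (y * y) := by ring
  · calc 4 * (1 + 2 * x) ^ 28 ≤ 4 * (3 * x) ^ 28 := by gcongr; linarith
      _ = (4 * 3 ^ 28) * x ^ 28 := by ring
      _ ≤ x * x ^ 28 := by gcongr
      _ = x ^ (29 : ℝ) := by
          rw [← pow_succ']
          norm_cast

open Classical in
/-- The fraction of bad numerators is negligible. -/
lemma bad_fraction (c : ℝ) (hc0 : 0 < c) (hc1 : c ≤ 1) :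
    ∃ x₀ : ℝ, 1 ≤ x₀ ∧ ∀ A : Finset ℕ, x₀ ≤ Real.log A.card → ∀ v ∈ Df A,
      (((Finset.range v).filter (fun k : ℕ => qb A (rhoN A)
        ⌈Real.exp (Real.log A.card ^ c)⌉₊ v (k : ℤ))).card : ℝ) ≤
          v * (Real.log A.card) ^ (-2 : ℝ) := by
  obtain ⟨x₀, hx1, hx₀⟩ := growth c hc0
  refine ⟨x₀, hx1, ?_⟩
  intro A hA v hv
  obtain ⟨g1, g2, g3⟩ := hx₀ _ hA
  set N : ℝ := (A.card : ℝ) with hN
  set l := Real.log N with hldef
  set L := 1 + 2 * l with hL
  have hl : 1 ≤ l := hx1.trans hA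
  have hl0 : 0 < l := by linarith
  have hL1 : 1 ≤ L := by linarith
  have hL0 : 0 < L := by linarith
  have hN1 : 1 ≤ N := by
    by_contra h
    have h0 : 0 ≤ N := Nat.cast_nonneg _
    have := Real.log_nonpos h0 (not_le.1 h).le
    linarith
  have hN0 : 0 < N := by linarith
  have hcard1 : 1 ≤ A.card := by
    have h1 := hN1
    rw [hN] at h1
    exact_mod_cast h1
  set Z := ⌈Real.exp (l ^ c)⌉₊ with hZ
  have hZ1 : 1 ≤ Z := by
    rw [hZ, Nat.one_le_ceil_iff]; positivity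
  have hv0 := Df_pos A hv
  set σ : ℝ := c / 58 with hσ
  have hσ0 : 0 ≤ σ := by positivity
  have hσ1 : σ ≤ 1 / 2 := by rw [hσ]; linarith
  have hbad := card_bad_le (Pset A (rhoN A) v) (fun p hp => Pset_prime A _ v p hp) Z v hZ1 hv0 σ
    hσ0 hσ1
  have hρ : rhoN A = N / L ^ 26 := rfl
  have hρ0 : 0 < rhoN A := by rw [hρ]; positivity
  -- the size of the exceptional set
  have hcardP : ((Pset A (rhoN A) v).card : ℝ) ≤ 4 * L ^ 28 := by
    unfold Pset
    split_ifs with hvV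
    · set B := 2 * (Nat.log 2 A.card + 1) with hB
      obtain ⟨n, hn1, hn2⟩ := card_PP_le A ((VV A (rhoN A)).filter (fun v' => ht v' v ≤ A.card ^ 2)) v
        hv0 B (by
          intro w hw
          rw [Finset.mem_filter] at hw
          have h1 : v / Nat.gcd v w ≤ ht w v := by
            unfold ht
            rw [Nat.gcd_comm v w]
            exact Nat.div_le_div_right (le_max_right _ _)
          refine (h1.trans hw.2).trans ?_
          rw [hB, mul_comm 2, pow_mul]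
          exact Nat.pow_le_pow_left (Nat.lt_pow_succ_log_self (by norm_num) _).le 2) (rhoN A) (by
          intro w hw
          rw [Finset.mem_filter] at hw
          exact (Finset.mem_filter.1 hw.1).2)
      have h1 : (n : ℝ) ≤ 2 * L ^ 27 := by
        have h2 : Phi A.card ≤ N * L := by
          unfold Phi
          refine mul_le_mul_of_nonneg_left ?_ hN0.le
          unfold Real.logb
          rw [div_le_iff₀ (Real.log_pos (by norm_num))]
          have h4 : (0.5 : ℝ) ≤ Real.log 2 := by linarith [Real.log_two_gt_d9]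
          have h5 : Real.log (A.card : ℝ) = l := rfl
          rw [h5]
          nlinarith
        have h3 : (n : ℝ) * (N / L ^ 26) ≤ 2 * (N * L) := by
          rw [← hρ]; linarith
        have h6 : (n : ℝ) * (N / L ^ 26) * (L ^ 26 / N) ≤ 2 * (N * L) * (L ^ 26 / N) := by gcongr
        have e1 : (n : ℝ) * (N / L ^ 26) * (L ^ 26 / N) = n := by field_simp
        have e2 : 2 * (N * L) * (L ^ 26 / N) = 2 * L ^ 27 := by field_simp
        rw [e1, e2] at h6
        exact h6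
      have h2 : (B : ℝ) ≤ 2 * L := by
        rw [hB]
        push_cast
        have := natlog_le A.card hcard1
        have h5 : Real.log (A.card : ℝ) = l := rfl
        rw [h5] at this
        linarith
      calc (((PP ((VV A (rhoN A)).filter (fun v' => ht v' v ≤ A.card ^ 2)) v).card : ℕ) : ℝ)
          ≤ ((B * n : ℕ) : ℝ) := by exact_mod_cast hn1
        _ = B * n := by push_cast; ring
        _ ≤ (2 * L) * (2 * L ^ 27) := by gcongr
        _ = 4 * L ^ 28 := by ring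
    · simp only [Finset.card_empty, Nat.cast_zero]
      positivity
  set k := max 1 (Pset A (rhoN A) v).card with hk
  have hk1 : 1 ≤ k := le_max_left _ _
  have hkle : (k : ℝ) ≤ l ^ (29 : ℝ) := by
    refine le_trans ?_ g3
    rw [hk]
    push_cast
    apply max_le
    · have : (1 : ℝ) ≤ L ^ 28 := one_le_pow₀ hL1
      linarith
    · exact hcardP
  have hsum := sum_prime_pow_le (Pset A (rhoN A) v) (fun p hp => Pset_prime A _ v p hp) k hk1
    (le_max_right _ _) σ hσ0 (by linarith)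
  have hk0 : (0 : ℝ) < k := by exact_mod_cast hk1
  have hsum2 : 4 * ∑ p ∈ Pset A (rhoN A) v, (p : ℝ) ^ (σ - 1) ≤ (c / 116) * l ^ c := by
    refine le_trans ?_ g1
    have e1 : (k : ℝ) ^ σ ≤ (l ^ (29 : ℝ)) ^ (c / 58) := Real.rpow_le_rpow hk0.le hkle hσ0
    have e2 : Real.log k ≤ Real.log (l ^ (29 : ℝ)) := Real.log_le_log hk0 hkle
    have e3 : 0 ≤ Real.log k := Real.log_nonneg (by exact_mod_cast hk1)
    calc 4 * ∑ p ∈ Pset A (rhoN A) v, (p : ℝ) ^ (σ - 1) ≤ 4 * ((k : ℝ) ^ σ * (2 + Real.log k)) := by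
          gcongr
      _ ≤ 4 * ((l ^ (29 : ℝ)) ^ (c / 58) * (2 + Real.log (l ^ (29 : ℝ)))) := by gcongr
      _ = _ := by ring
  have hZσ : (Z : ℝ) ^ (-σ) ≤ Real.exp (-(c / 58) * l ^ c) := by
    have h1 : Real.exp (l ^ c) ≤ Z := Nat.le_ceil _
    calc (Z : ℝ) ^ (-σ) ≤ (Real.exp (l ^ c)) ^ (-σ) :=
          Real.rpow_le_rpow_of_nonpos (Real.exp_pos _) h1 (by linarith)
      _ = Real.exp (-(c / 58) * l ^ c) := by
          rw [← Real.exp_mul, hσ]; congr 1; ring
  have hfin : (v : ℝ) * (Z : ℝ) ^ (-σ) * Real.exp (4 * ∑ p ∈ Pset A (rhoN A) v, (p : ℝ) ^ (σ - 1)) ≤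
      v * l ^ (-2 : ℝ) := by
    have h1 : (Z : ℝ) ^ (-σ) * Real.exp (4 * ∑ p ∈ Pset A (rhoN A) v, (p : ℝ) ^ (σ - 1)) ≤
        l ^ (-2 : ℝ) := by
      calc _ ≤ Real.exp (-(c / 58) * l ^ c) * Real.exp ((c / 116) * l ^ c) := by
            gcongr
        _ = Real.exp (-(c / 116) * l ^ c) := by
            rw [← Real.exp_add]; congr 1; ring
        _ ≤ _ := g2
    calc _ = (v : ℝ) * ((Z : ℝ) ^ (-σ) *
          Real.exp (4 * ∑ p ∈ Pset A (rhoN A) v, (p : ℝ) ^ (σ - 1))) := by ring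
      _ ≤ _ := by gcongr
  exact hbad.trans hfin

end Pool.Agent.Helper29.PPC
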