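import Mathlib
import Pool.Agent.Helper29.PpcAsym2

set_option autoImplicit false

open Finset MeasureTheory Filter Topology

namespace Pool.Agent.Helper29.PPC

/-- The first `N` terms of the sequence. -/
def AN (a : ℕ → ℕ) (N : ℕ) : Finset ℕ := (Finset.range N).image a

lemma card_AN (a : ℕ → ℕ) (ha : StrictMono a) (N : ℕ) : (AN a N).card = N := by
  unfold AN
  rw [Finset.card_image_of_injective _ ha.injective, Finset.card_range]

/-- The additive energy counted on indices. -/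
def EN (a : ℕ → ℕ) (N : ℕ) : ℕ :=
  (((Finset.range N ×ˢ Finset.range N) ×ˢ (Finset.range N ×ˢ Finset.range N)).filter
    (fun p : (ℕ × ℕ) × (ℕ × ℕ) => a p.1.1 + a p.1.2 = a p.2.1 + a p.2.2)).card

lemma sum_rr_sq_le (a : ℕ → ℕ) (N : ℕ) :
    ∑ v ∈ Df (AN a N), rr (AN a N) v ^ 2 ≤ EN a N := by
  classical
  -- pairs of index pairs with equal positive difference
  set IP := (Finset.range N ×ˢ Finset.range N).filter (fun p : ℕ × ℕ => a p.2 < a p.1) with hIP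
  have hrr : ∀ v, rr (AN a N) v ≤ (IP.filter (fun p => a p.1 = a p.2 + v)).card := by
    intro v
    unfold rr
    have hsub : (upairs (AN a N)).filter (fun p => p.1 = p.2 + v) ⊆
        (IP.filter (fun p => a p.1 = a p.2 + v)).image (fun p => (a p.1, a p.2)) := by
      intro p hp
      rw [Finset.mem_filter, mem_upairs] at hp
      obtain ⟨⟨⟨h1, h2⟩, h3⟩, h4⟩ := hp
      unfold AN at h1 h2
      rw [Finset.mem_image] at h1 h2
      obtain ⟨i, hi, hi2⟩ := h1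
      obtain ⟨j, hj, hj2⟩ := h2
      rw [Finset.mem_image]
      refine ⟨(i, j), ?_, ?_⟩
      · rw [Finset.mem_filter, hIP, Finset.mem_filter, Finset.mem_product]
        refine ⟨⟨⟨hi, hj⟩, ?_⟩, ?_⟩
        · simp only; rw [hi2, hj2]; exact h3
        · simp only; rw [hi2, hj2]; exact h4
      · simp only; rw [hi2, hj2]
    exact (Finset.card_le_card hsub).trans Finset.card_image_le
  have h1 : ∑ v ∈ Df (AN a N), rr (AN a N) v ^ 2 ≤ ∑ v ∈ Df (AN a N),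
      ((IP.filter (fun p => a p.1 = a p.2 + v)) ×ˢ (IP.filter (fun p => a p.1 = a p.2 + v))).card := by
    refine Finset.sum_le_sum fun v _ => ?_
    rw [Finset.card_product, ← sq]
    exact Nat.pow_le_pow_left (hrr v) 2
  refine h1.trans ?_
  rw [← Finset.card_biUnion]
  · unfold EN
    refine Finset.card_le_card_of_injOn (fun z => ((z.1.1, z.2.2), (z.1.2, z.2.1))) ?_ ?_
    · intro z hz
      rw [Finset.mem_coe, Finset.mem_biUnion] at hz
      obtain ⟨v, _, hz⟩ := hz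
      rw [Finset.mem_product, Finset.mem_filter, Finset.mem_filter, hIP, Finset.mem_filter,
        Finset.mem_filter, Finset.mem_product, Finset.mem_product] at hz
      rw [Finset.mem_coe, Finset.mem_filter, Finset.mem_product, Finset.mem_product,
        Finset.mem_product]
      obtain ⟨⟨⟨⟨a1, a2⟩, a3⟩, a4⟩, ⟨⟨b1, b2⟩, b3⟩, b4⟩ := hz
      refine ⟨⟨⟨a1, b2⟩, ⟨a2, b1⟩⟩, ?_⟩
      simp only
      omega
    · intro z _ z' _ h
      simp only [Prod.mk.injEq] at h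
      obtain ⟨⟨c1, c2⟩, c3, c4⟩ := h
      exact Prod.ext (Prod.ext c1 c3) (Prod.ext c4 c2)
  · intro v _ v' _ hne
    rw [Function.onFun, Finset.disjoint_left]
    intro z hz hz'
    apply hne
    rw [Finset.mem_product, Finset.mem_filter] at hz hz'
    have e1 := hz.1.2
    have e2 := hz'.1.2
    omega

/-- All error terms, for one value of `s`. -/
theorem errors (a : ℕ → ℕ) (ha : StrictMono a) (C : ℝ) (hC : 1 < C)
    (hE : (fun N : ℕ => (EN a N : ℝ)) =O[atTop] (fun N : ℕ => (N : ℝ) ^ 3 / Real.log (N : ℝ) ^ C)) :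
    ∃ c η : ℝ, 0 < c ∧ 0 < η ∧ ∀ s : ℝ, 0 < s → ∃ (C' : ℝ) (N₀ : ℕ), 0 ≤ C' ∧ ∀ N : ℕ, N₀ ≤ N →
      2 ≤ N ∧ s / N ≤ 1 / 2 ∧
      ∫ α in (0 : ℝ)..1, (ff (AN a N) (rhoN (AN a N)) ⌈Real.exp (Real.log N ^ c)⌉₊ (s / N) α -
        2 * s) ^ 2 ≤ C' * Real.log N ^ (-(1 + η)) ∧
      ∫ α in (0 : ℝ)..1, hh (AN a N) (rhoN (AN a N)) ⌈Real.exp (Real.log N ^ c)⌉₊ (s / N) α ≤
        C' * Real.log N ^ (-(1 + η)) := by
  obtain ⟨C₀, hC₀⟩ := hE.bound
  obtain ⟨c, η, C₄, hc0, hc1, hη0, hη1, hC₄, hmain⟩ := main_range C |C₀| hC (abs_nonneg _)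
  obtain ⟨x₀, hx1, hbad⟩ := bad_fraction c hc0 hc1
  refine ⟨c, η, hc0, hη0, ?_⟩
  intro s hs
  -- eventual conditions
  have hlog : Tendsto (fun N : ℕ => Real.log (N : ℝ)) atTop atTop :=
    Real.tendsto_log_atTop.comp tendsto_natCast_atTop_atTop
  have hev : ∀ᶠ N : ℕ in atTop, (‖(EN a N : ℝ)‖ ≤ C₀ * ‖(N : ℝ) ^ 3 / Real.log (N : ℝ) ^ C‖) ∧
      x₀ ≤ Real.log (N : ℝ) ∧ 2 ≤ N ∧ 2 * s ≤ (N : ℝ) :=
    hC₀.and ((hlog.eventually_ge_atTop x₀).and ((eventually_ge_atTop 2).and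
      (tendsto_natCast_atTop_atTop.eventually_ge_atTop (2 * s))))
  obtain ⟨N₀, hN₀⟩ := eventually_atTop.1 hev
  refine ⟨8 * s * C₄ + 52 * s + 24 * s ^ 2 + 2 * s, N₀, by positivity, ?_⟩
  intro N hN
  obtain ⟨h1, h2, h3, h4⟩ := hN₀ N hN
  set A := AN a N with hA
  have hcard : A.card = N := card_AN a ha N
  have hl : 1 ≤ Real.log (N : ℝ) := hx1.trans h2
  set l := Real.log (N : ℝ) with hldef
  have hl0 : 0 < l := by linarith
  have hN0 : (0 : ℝ) < N := by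
    have : 0 < N := by omega
    exact_mod_cast this
  have hApos : 0 < A.card := by rw [hcard]; omega
  have hδ : s / N ≤ 1 / 2 := by
    rw [div_le_iff₀ hN0]; linarith
  refine ⟨h3, hδ, ?_⟩
  have hE2 : ∑ v ∈ Df A, (rr A v : ℝ) ^ 2 ≤ |C₀| * (A.card : ℝ) ^ 3 / Real.log A.card ^ C := by
    rw [hcard]
    have e1 : ∑ v ∈ Df A, (rr A v : ℝ) ^ 2 ≤ (EN a N : ℝ) := by
      exact_mod_cast sum_rr_sq_le a N
    have e2 : ‖(N : ℝ) ^ 3 / Real.log (N : ℝ) ^ C‖ = (N : ℝ) ^ 3 / Real.log (N : ℝ) ^ C :=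
      Real.norm_of_nonneg (by positivity)
    rw [e2, Real.norm_of_nonneg (Nat.cast_nonneg _)] at h1
    calc _ ≤ _ := e1
      _ ≤ _ := h1
      _ ≤ |C₀| * ((N : ℝ) ^ 3 / Real.log (N : ℝ) ^ C) :=
          mul_le_mul_of_nonneg_right (le_abs_self _) (by positivity)
      _ = _ := by ring
  have hlA : 1 ≤ Real.log A.card := by rw [hcard]; exact hl
  have g1 := hmain A hlA hE2
  have g2 := low_range A hlA
  have g3 := hbad A (by rw [hcard]; exact h2)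
  rw [hcard] at g1 g2 g3
  -- comparison of powers
  have p2 : l ^ (-2 : ℝ) ≤ l ^ (-(1 + η)) := Real.rpow_le_rpow_of_exponent_le hl (by linarith)
  have p1 : (1 + 2 * l) ^ (-2 : ℤ) ≤ l ^ (-(1 + η)) := by
    refine le_trans ?_ p2
    have e : l ^ (-2 : ℝ) = l ^ (-2 : ℤ) := by
      rw [← Real.rpow_intCast]; norm_num
    rw [e, zpow_neg, zpow_neg]
    apply inv_anti₀ (by positivity)
    have : l ≤ 1 + 2 * l := by linarith
    norm_cast
    gcongr
  have p3 : 1 / (N : ℝ) ≤ 2 * l ^ (-(1 + η)) := by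
    have e1 : l ^ 2 / 2 ≤ N := by
      have := Real.quadratic_le_exp_of_nonneg hl0.le
      rw [hldef, Real.exp_log hN0] at this
      rw [hldef] at hl0 ⊢
      linarith
    have e2 : 1 / (N : ℝ) ≤ 2 * l ^ (-2 : ℝ) := by
      have e : l ^ (-2 : ℝ) = (l ^ 2)⁻¹ := by
        rw [Real.rpow_neg hl0.le]; norm_num
      rw [e, div_le_iff₀ hN0]
      have hl2 : (0 : ℝ) < l ^ 2 := by positivity
      calc (1 : ℝ) = 2 * (l ^ 2)⁻¹ * (l ^ 2 / 2) := by field_simp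
        _ ≤ 2 * (l ^ 2)⁻¹ * N := by gcongr
    linarith
  set η' := l ^ (-(1 + η)) with hη'
  have hη'0 : 0 ≤ η' := by positivity
  have q1 := integral_hh_le A (rhoN A) ⌈Real.exp (l ^ c)⌉₊ s hs hApos (by rw [hcard]; exact hδ)
    (l ^ (-2 : ℝ)) (by positivity) g3
  rw [hcard] at q1
  have q2 := variance_le A (rhoN A) ⌈Real.exp (l ^ c)⌉₊ s hs hApos (by rw [hcard]; exact hδ)
  rw [hcard] at q2
  have q3 := aliveSum_le A (rhoN A) ⌈Real.exp (l ^ c)⌉₊ hApos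
  rw [hcard] at q3
  have q1' : ∫ α in (0 : ℝ)..1, hh A (rhoN A) ⌈Real.exp (l ^ c)⌉₊ (s / N) α ≤ 2 * s * η' := by
    refine q1.trans ?_
    gcongr
  constructor
  · refine q2.trans ?_
    have q4 : aliveSum A (rhoN A) ⌈Real.exp (l ^ c)⌉₊ ≤
        C₄ * (N : ℝ) ^ 3 * η' + 6 * (N : ℝ) ^ 3 * η' + (N : ℝ) ^ 2 / 4 := by
      refine q3.trans ?_
      have g2' : gcdSum (N ^ 2) (Df A) (rlow A (rhoN A)) (fun v => (rr A v : ℝ)) ≤
          3 * (N : ℝ) ^ 3 * η' := g2.trans (by gcongr)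
      linarith
    have q5 : 8 * s / (N : ℝ) ^ 3 * aliveSum A (rhoN A) ⌈Real.exp (l ^ c)⌉₊ ≤
        8 * s * C₄ * η' + 48 * s * η' + 2 * s * (1 / N) := by
      calc 8 * s / (N : ℝ) ^ 3 * aliveSum A (rhoN A) ⌈Real.exp (l ^ c)⌉₊
          ≤ 8 * s / (N : ℝ) ^ 3 * (C₄ * (N : ℝ) ^ 3 * η' + 6 * (N : ℝ) ^ 3 * η' + (N : ℝ) ^ 2 / 4) := by
            gcongr
        _ = _ := by field_simp; ring
    have q6 : 8 * s ^ 2 / (N : ℝ) ≤ 16 * s ^ 2 * η' := by
      calc 8 * s ^ 2 / (N : ℝ) = 8 * s ^ 2 * (1 / N) := by ring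
        _ ≤ 8 * s ^ 2 * (2 * η') := by gcongr
        _ = _ := by ring
    have q7 : 4 * s * ∫ α in (0 : ℝ)..1, hh A (rhoN A) ⌈Real.exp (l ^ c)⌉₊ (s / N) α ≤
        8 * s ^ 2 * η' := by
      calc _ ≤ 4 * s * (2 * s * η') := by gcongr
        _ = _ := by ring
    have q8 : 2 * s * (1 / (N : ℝ)) ≤ 4 * s * η' := by
      calc 2 * s * (1 / (N : ℝ)) ≤ 2 * s * (2 * η') := by gcongr
        _ = _ := by ring
    have q9 : 0 ≤ s * η' := by positivity
    nlinarith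
  · refine q1'.trans ?_
    have : 0 ≤ 8 * s * C₄ + 52 * s + 24 * s ^ 2 := by positivity
    nlinarith

end Pool.Agent.Helper29.PPC
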