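import Mathlib

set_option autoImplicit false

open Finset MeasureTheory Filter Topology

namespace Pool.Agent.Helper29.PPC

/-- The subsequence `⌈θ^k⌉`. -/
noncomputable def Nk (θ : ℝ) (k : ℕ) : ℕ := ⌈θ ^ k⌉₊

lemma Nk_ge (θ : ℝ) (k : ℕ) : θ ^ k ≤ (Nk θ k : ℝ) := Nat.le_ceil _

lemma Nk_le (θ : ℝ) (hθ : 1 < θ) (k : ℕ) : (Nk θ k : ℝ) ≤ θ ^ k + 1 :=
  (Nat.ceil_lt_add_one (by positivity)).le

lemma Nk_mono (θ : ℝ) (hθ : 1 < θ) : Monotone (Nk θ) := by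
  intro k l h
  exact Nat.ceil_le_ceil (pow_le_pow_right₀ hθ.le h)

lemma Nk_pos (θ : ℝ) (hθ : 1 < θ) (k : ℕ) : 0 < Nk θ k := Nat.ceil_pos.2 (by positivity)

lemma Nk_tendsto (θ : ℝ) (hθ : 1 < θ) : Tendsto (Nk θ) atTop atTop := by
  have h : Tendsto (fun k : ℕ => θ ^ k) atTop atTop := tendsto_pow_atTop_atTop_of_one_lt hθ
  exact tendsto_nat_ceil_atTop.comp h

lemma Nk_ratio (θ : ℝ) (hθ : 1 < θ) :
    ∀ᶠ k in atTop, (Nk θ (k + 1) : ℝ) ≤ θ ^ 2 * Nk θ k := by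
  have h : Tendsto (fun k : ℕ => θ ^ k) atTop atTop := tendsto_pow_atTop_atTop_of_one_lt hθ
  have h2 := h.eventually_ge_atTop (1 / (θ * (θ - 1)))
  filter_upwards [h2] with k hk
  have h3 := Nk_le θ hθ (k + 1)
  have h4 := Nk_ge θ k
  have h5 : 0 < θ * (θ - 1) := by
    have : 0 < θ - 1 := by linarith
    positivity
  rw [div_le_iff₀ h5] at hk
  calc (Nk θ (k + 1) : ℝ) ≤ θ ^ (k + 1) + 1 := h3
    _ ≤ θ ^ (k + 1) + θ ^ k * (θ * (θ - 1)) := by linarith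
    _ = θ ^ 2 * θ ^ k := by ring
    _ ≤ θ ^ 2 * Nk θ k := by gcongr

/-- Location of `N` between consecutive terms of the subsequence. -/
lemma exists_between_Nk (θ : ℝ) (hθ : 1 < θ) (k₀ N : ℕ) (hN : Nk θ k₀ ≤ N) :
    ∃ k, k₀ ≤ k ∧ Nk θ k ≤ N ∧ N ≤ Nk θ (k + 1) := by
  classical
  have hex : ∃ k, N < Nk θ (k + 1) := by
    have h := (Nk_tendsto θ hθ).eventually_gt_atTop N
    obtain ⟨k, hk⟩ := eventually_atTop.1 h
    exact ⟨k, hk (k + 1) (by omega)⟩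
  set k := Nat.find hex with hk
  have h1 : N < Nk θ (k + 1) := Nat.find_spec hex
  have h2 : k₀ ≤ k := by
    by_contra h
    have h3 : Nk θ (k + 1) ≤ Nk θ k₀ := Nk_mono θ hθ (by omega)
    omega
  refine ⟨k, h2, ?_, h1.le⟩
  rcases Nat.eq_zero_or_pos k with h0 | h0
  · have : k₀ = k := by omega
    rw [← this]; exact hN
  · have h3 := Nat.find_min hex (m := k - 1) (by omega)
    have h4 : k - 1 + 1 = k := by omega
    rw [h4] at h3
    omega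

/-- Interpolation along the subsequences. -/
theorem interp (u : ℕ → ℝ → ℝ) (hu0 : ∀ N t, 0 ≤ u N t)
    (humN : ∀ N N' : ℕ, N ≤ N' → ∀ t, u N t ≤ u N' t) (humt : ∀ N, Monotone (u N))
    (H : ∀ m : ℕ, ∀ q : ℚ, 0 < q → Tendsto (fun k : ℕ =>
      u (Nk (1 + 1 / ((m : ℝ) + 1)) k) ((q : ℝ) / (Nk (1 + 1 / ((m : ℝ) + 1)) k : ℝ)) /
        (Nk (1 + 1 / ((m : ℝ) + 1)) k : ℝ)) atTop (𝓝 (2 * q)))
    (s : ℝ) (hs : 0 < s) : Tendsto (fun N : ℕ => u N (s / N) / N) atTop (𝓝 (2 * s)) := by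
  have hθlim : Tendsto (fun m : ℕ => 1 + 1 / ((m : ℝ) + 1)) atTop (𝓝 (1 : ℝ)) := by
    have := tendsto_one_div_add_atTop_nhds_zero_nat (𝕜 := ℝ)
    simpa using this.const_add 1
  have hθ1 : ∀ m : ℕ, (1 : ℝ) < 1 + 1 / ((m : ℝ) + 1) := by
    intro m
    have : (0 : ℝ) < 1 / ((m : ℝ) + 1) := by positivity
    linarith
  rw [tendsto_order]
  constructor
  · -- lower bound
    intro b hb
    have h1 : Tendsto (fun m : ℕ => 2 * s / (1 + 1 / ((m : ℝ) + 1)) ^ 5) atTop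
        (𝓝 (2 * s / (1 : ℝ) ^ 5)) :=
      Tendsto.div tendsto_const_nhds (hθlim.pow 5) (by norm_num)
    rw [one_pow, div_one] at h1
    obtain ⟨m, hm⟩ := ((tendsto_order.1 h1).1 b hb).exists
    set θ : ℝ := 1 + 1 / ((m : ℝ) + 1) with hθ
    have hθ1' : 1 < θ := hθ1 m
    have hθ0 : 0 < θ := by linarith
    obtain ⟨q, hq1, hq2⟩ := exists_rat_btwn (show s / θ ^ 3 < s / θ ^ 2 from
      div_lt_div_of_pos_left hs (by positivity) (pow_lt_pow_right₀ hθ1' (by norm_num)))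
    have hq0' : (0 : ℝ) < q := lt_trans (by positivity) hq1
    have hq0 : 0 < q := by exact_mod_cast hq0'
    have h2 : Tendsto (fun k : ℕ => (u (Nk θ k) ((q : ℝ) / (Nk θ k : ℝ)) / (Nk θ k : ℝ)) / θ ^ 2)
        atTop (𝓝 (2 * q / θ ^ 2)) := (H m q hq0).div_const _
    have h3 : b < 2 * q / θ ^ 2 := by
      refine hm.trans ?_
      rw [div_lt_div_iff₀ (by positivity) (by positivity)]
      rw [div_lt_iff₀ (by positivity)] at hq1
      calc 2 * s * θ ^ 2 < 2 * (q * θ ^ 3) * θ ^ 2 := by gcongr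
        _ = 2 * q * θ ^ 5 := by ring
    have h4 := ((tendsto_order.1 h2).1 b h3).and (Nk_ratio θ hθ1')
    obtain ⟨k₀, hk₀⟩ := eventually_atTop.1 h4
    filter_upwards [eventually_ge_atTop (Nk θ k₀)] with N hN
    obtain ⟨k, hk1, hk2, hk3⟩ := exists_between_Nk θ hθ1' k₀ N hN
    obtain ⟨h5, h6⟩ := hk₀ k hk1
    have hNk0 : (0 : ℝ) < Nk θ k := by exact_mod_cast Nk_pos θ hθ1' k
    have hN0 : (0 : ℝ) < N := by
      have : (Nk θ k : ℝ) ≤ N := by exact_mod_cast hk2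
      linarith
    have hNle : (N : ℝ) ≤ θ ^ 2 * Nk θ k := by
      have : (N : ℝ) ≤ Nk θ (k + 1) := by exact_mod_cast hk3
      linarith
    refine lt_of_lt_of_le h5 ?_
    rw [div_div]
    have h7 : u (Nk θ k) ((q : ℝ) / (Nk θ k : ℝ)) ≤ u N (s / N) := by
      refine (humN _ _ hk2 _).trans (humt N ?_)
      rw [div_le_div_iff₀ hNk0 hN0]
      rw [lt_div_iff₀ (by positivity)] at hq2
      calc (q : ℝ) * N ≤ q * (θ ^ 2 * Nk θ k) := by gcongr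
        _ = (q * θ ^ 2) * Nk θ k := by ring
        _ ≤ s * Nk θ k := by gcongr
    rw [div_le_div_iff₀ (by positivity) hN0]
    have h8 := hu0 (Nk θ k) ((q : ℝ) / (Nk θ k : ℝ))
    calc u (Nk θ k) ((q : ℝ) / (Nk θ k : ℝ)) * N ≤ u N (s / N) * N := by gcongr
      _ ≤ u N (s / N) * (Nk θ k * θ ^ 2) := by
          have := hu0 N (s / N)
          gcongr
          linarith
  · -- upper bound
    intro b hb
    have h1 : Tendsto (fun m : ℕ => 2 * s * (1 + 1 / ((m : ℝ) + 1)) ^ 5) atTop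
        (𝓝 (2 * s * (1 : ℝ) ^ 5)) := (hθlim.pow 5).const_mul _
    rw [one_pow, mul_one] at h1
    obtain ⟨m, hm⟩ := ((tendsto_order.1 h1).2 b hb).exists
    set θ : ℝ := 1 + 1 / ((m : ℝ) + 1) with hθ
    have hθ1' : 1 < θ := hθ1 m
    have hθ0 : 0 < θ := by linarith
    obtain ⟨q, hq1, hq2⟩ := exists_rat_btwn (show s * θ ^ 2 < s * θ ^ 3 from
      mul_lt_mul_of_pos_left (pow_lt_pow_right₀ hθ1' (by norm_num)) hs)
    have hq0' : (0 : ℝ) < q := lt_trans (by positivity) hq1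
    have hq0 : 0 < q := by exact_mod_cast hq0'
    have h2 : Tendsto (fun k : ℕ => (u (Nk θ k) ((q : ℝ) / (Nk θ k : ℝ)) / (Nk θ k : ℝ)) * θ ^ 2)
        atTop (𝓝 (2 * q * θ ^ 2)) := (H m q hq0).mul_const _
    have h3 : 2 * q * θ ^ 2 < b := by
      refine lt_trans ?_ hm
      calc 2 * q * θ ^ 2 < 2 * (s * θ ^ 3) * θ ^ 2 := by gcongr
        _ = 2 * s * θ ^ 5 := by ring
    have h4 := (((tendsto_order.1 h2).2 b h3)).and (Nk_ratio θ hθ1')
    obtain ⟨k₀, hk₀⟩ := eventually_atTop.1 h4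
    filter_upwards [eventually_ge_atTop (Nk θ k₀)] with N hN
    obtain ⟨k, hk1, hk2, hk3⟩ := exists_between_Nk θ hθ1' k₀ N hN
    obtain ⟨h5, _⟩ := hk₀ (k + 1) (by omega)
    obtain ⟨_, h6⟩ := hk₀ k hk1
    have hNk0 : (0 : ℝ) < Nk θ k := by exact_mod_cast Nk_pos θ hθ1' k
    have hNk1 : (0 : ℝ) < Nk θ (k + 1) := by exact_mod_cast Nk_pos θ hθ1' (k + 1)
    have hNkN : (Nk θ k : ℝ) ≤ N := by exact_mod_cast hk2
    have hN0 : (0 : ℝ) < N := by linarith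
    have hle : (Nk θ (k + 1) : ℝ) ≤ θ ^ 2 * N := by
      calc (Nk θ (k + 1) : ℝ) ≤ θ ^ 2 * Nk θ k := h6
        _ ≤ θ ^ 2 * N := by gcongr
    refine lt_of_le_of_lt ?_ h5
    have h7 : u N (s / N) ≤ u (Nk θ (k + 1)) ((q : ℝ) / (Nk θ (k + 1) : ℝ)) := by
      refine (humN _ _ hk3 _).trans (humt _ ?_)
      rw [div_le_div_iff₀ hN0 hNk1]
      calc s * (Nk θ (k + 1) : ℝ) ≤ s * (θ ^ 2 * N) := by gcongr
        _ = (s * θ ^ 2) * N := by ring
        _ ≤ q * N := by gcongr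
    rw [div_mul_eq_mul_div, div_le_div_iff₀ hN0 hNk1]
    have h8 := hu0 N (s / N)
    calc u N (s / N) * (Nk θ (k + 1) : ℝ) ≤ u N (s / N) * (θ ^ 2 * N) := by gcongr
      _ ≤ u (Nk θ (k + 1)) ((q : ℝ) / (Nk θ (k + 1) : ℝ)) * (θ ^ 2 * N) := by gcongr
      _ = _ := by ring

/-- Borel–Cantelli in the integrated form. -/
lemma ae_tendsto_zero (g : ℕ → ℝ → ℝ) (hgm : ∀ k, Measurable (g k)) (hg0 : ∀ k x, 0 ≤ g k x)
    (hgi : ∀ k, IntervalIntegrable (g k) volume 0 1)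
    (b : ℕ → ℝ) (hb : Summable b) (hgb : ∀ k, ∫ x in (0 : ℝ)..1, g k x ≤ b k) :
    ∀ᵐ x ∂(volume.restrict (Set.Ioc (0 : ℝ) 1)), Tendsto (fun k => g k x) atTop (𝓝 0) := by
  have hb0 : ∀ k, 0 ≤ b k := fun k =>
    (intervalIntegral.integral_nonneg (by norm_num) (fun x _ => hg0 k x)).trans (hgb k)
  have h1 : ∫⁻ x in Set.Ioc (0 : ℝ) 1, ∑' k, ENNReal.ofReal (g k x) ≠ ⊤ := by
    rw [lintegral_tsum (fun k => (hgm k).ennreal_ofReal.aemeasurable)]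
    have h2 : ∀ k, ∫⁻ x in Set.Ioc (0 : ℝ) 1, ENNReal.ofReal (g k x) ≤ ENNReal.ofReal (b k) := by
      intro k
      have h3 : IntegrableOn (g k) (Set.Ioc (0 : ℝ) 1) volume :=
        (intervalIntegrable_iff_integrableOn_Ioc_of_le (by norm_num)).1 (hgi k)
      rw [← ofReal_integral_eq_lintegral_ofReal h3 (Filter.Eventually.of_forall (hg0 k))]
      apply ENNReal.ofReal_le_ofReal
      rw [← intervalIntegral.integral_of_le (by norm_num)]
      exact hgb k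
    have h4 : ∑' k, ENNReal.ofReal (b k) ≠ ⊤ := by
      rw [← ENNReal.ofReal_tsum_of_nonneg hb0 hb]
      exact ENNReal.ofReal_ne_top
    exact ne_top_of_le_ne_top h4 (ENNReal.tsum_le_tsum h2)
  have hmeas : Measurable (fun x => ∑' k, ENNReal.ofReal (g k x)) :=
    Measurable.tsum (fun k => (hgm k).ennreal_ofReal)
  filter_upwards [ae_lt_top hmeas h1] with x hx
  have h5 := ENNReal.tendsto_atTop_zero_of_tsum_ne_top hx.ne
  have h6 := (ENNReal.tendsto_toReal ENNReal.zero_ne_top).comp h5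
  simp only [ENNReal.toReal_zero] at h6
  refine h6.congr fun k => ?_
  simp only [Function.comp]
  exact ENNReal.toReal_ofReal (hg0 k x)

end Pool.Agent.Helper29.PPC
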