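import Mathlib
import Pool.Agent.Helper29.PpcFin
import Pool.Agent.Helper29.PpcInterp

set_option autoImplicit false

open Finset MeasureTheory Filter Topology

namespace Pool.Agent.Helper29.PPC

lemma hh_intervalIntegrable (A : Finset ℕ) (ρ : ℝ) (Z : ℕ) (δ : ℝ) (a b : ℝ) :
    IntervalIntegrable (hh A ρ Z δ) volume a b := by
  unfold hh
  apply IntervalIntegrable.const_mul
  have := IntervalIntegrable.sum (μ := volume) (a := a) (b := b) (Df A)
    (f := fun v : ℕ => fun α : ℝ => (rr A v : ℝ) * chi v δ (qb A ρ Z v) α) (by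
      intro v _
      exact (chi_intervalIntegrable v _ _ a b).const_mul _)
  have e : (∑ v ∈ Df A, fun α : ℝ => (rr A v : ℝ) * chi v δ (qb A ρ Z v) α) =
      fun α : ℝ => ∑ v ∈ Df A, (rr A v : ℝ) * chi v δ (qb A ρ Z v) α := by
    ext α; simp
  rw [e] at this
  exact this

lemma ff_sub_sq_intervalIntegrable (A : Finset ℕ) (ρ : ℝ) (Z : ℕ) (δ s : ℝ) (a b : ℝ) :
    IntervalIntegrable (fun α => (ff A ρ Z δ α - 2 * s) ^ 2) volume a b := by
  have h : (fun α => (ff A ρ Z δ α - 2 * s) ^ 2) =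
      fun α => (ff A ρ Z δ α ^ 2 - 4 * s * ff A ρ Z δ α) + 4 * s ^ 2 := by
    ext α; ring
  rw [h]
  exact ((ff_sq_intervalIntegrable A ρ Z δ a b).sub
    ((ff_intervalIntegrable A ρ Z δ a b).const_mul _)).add intervalIntegrable_const

/-- Almost sure convergence along the subsequence `⌈θ^k⌉`. -/
theorem ae_subseq (a : ℕ → ℕ) (ha : StrictMono a) (C : ℝ) (hC : 1 < C)
    (hE : (fun N : ℕ => (EN a N : ℝ)) =O[atTop] (fun N : ℕ => (N : ℝ) ^ 3 / Real.log (N : ℝ) ^ C))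
    (θ : ℝ) (hθ : 1 < θ) (s : ℝ) (hs : 0 < s) :
    ∀ᵐ α ∂(volume.restrict (Set.Ioc (0 : ℝ) 1)),
      Tendsto (fun k : ℕ => RR (AN a (Nk θ k)) (s / (Nk θ k : ℝ)) α) atTop (𝓝 (2 * s)) := by
  obtain ⟨c, η, hc0, hη0, herr⟩ := errors a ha C hC hE
  obtain ⟨C', N₀, hC'0, hN₀⟩ := herr s hs
  obtain ⟨k₁, hk₁⟩ := eventually_atTop.1 ((Nk_tendsto θ hθ).eventually_ge_atTop N₀)
  set k₀ := k₁ + 1 with hk₀
  set M : ℕ → ℕ := fun k => Nk θ (k + k₀) with hM
  have hMN : ∀ k, N₀ ≤ M k := fun k => hk₁ _ (by omega)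
  set Zk : ℕ → ℕ := fun k => ⌈Real.exp (Real.log (M k) ^ c)⌉₊ with hZk
  set b : ℕ → ℝ := fun k => C' * (((k + k₀ : ℕ) : ℝ) * Real.log θ) ^ (-(1 + η)) with hb
  have hlogθ : 0 < Real.log θ := Real.log_pos hθ
  have hbsum : Summable b := by
    have h1 : Summable (fun n : ℕ => (n : ℝ) ^ (-(1 + η))) :=
      Real.summable_nat_rpow.2 (by linarith)
    have h2 : Summable (fun n : ℕ => ((n + k₀ : ℕ) : ℝ) ^ (-(1 + η))) :=
      (summable_nat_add_iff k₀).2 h1
    have h3 : b = fun n : ℕ => (C' * (Real.log θ) ^ (-(1 + η))) * ((n + k₀ : ℕ) : ℝ) ^ (-(1 + η)) := by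
      ext n
      simp only [hb]
      rw [Real.mul_rpow (Nat.cast_nonneg _) hlogθ.le]
      ring
    rw [h3]
    exact h2.mul_left _
  have hlogM : ∀ k, C' * Real.log (M k) ^ (-(1 + η)) ≤ b k := by
    intro k
    simp only [hb]
    refine mul_le_mul_of_nonneg_left ?_ hC'0
    have h1 : ((k + k₀ : ℕ) : ℝ) * Real.log θ ≤ Real.log (M k) := by
      rw [← Real.log_pow]
      exact Real.log_le_log (by positivity) (Nk_ge θ _)
    have h2 : 0 < ((k + k₀ : ℕ) : ℝ) * Real.log θ := by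
      have : 0 < k + k₀ := by omega
      positivity
    exact Real.rpow_le_rpow_of_nonpos h2 h1 (by linarith)
  have hf := ae_tendsto_zero
    (fun k α => (ff (AN a (M k)) (rhoN (AN a (M k))) (Zk k) (s / (M k : ℝ)) α - 2 * s) ^ 2)
    (fun k => ((measurable_ff _ _ _ _).sub_const _).pow_const 2)
    (fun k x => sq_nonneg _)
    (fun k => ff_sub_sq_intervalIntegrable _ _ _ _ _ 0 1) b hbsum
    (fun k => ((hN₀ (M k) (hMN k)).2.2.1).trans (hlogM k))
  have hh' := ae_tendsto_zero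
    (fun k α => hh (AN a (M k)) (rhoN (AN a (M k))) (Zk k) (s / (M k : ℝ)) α)
    (fun k => measurable_hh _ _ _ _)
    (fun k x => hh_nonneg _ _ _ _ _)
    (fun k => hh_intervalIntegrable _ _ _ _ 0 1) b hbsum
    (fun k => ((hN₀ (M k) (hMN k)).2.2.2).trans (hlogM k))
  filter_upwards [hf, hh'] with α h1 h2
  have h3 : Tendsto (fun k => ff (AN a (M k)) (rhoN (AN a (M k))) (Zk k) (s / (M k : ℝ)) α - 2 * s)
      atTop (𝓝 0) := by
    have h4 : Tendsto (fun k => Real.sqrt ((ff (AN a (M k)) (rhoN (AN a (M k))) (Zk k)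
        (s / (M k : ℝ)) α - 2 * s) ^ 2)) atTop (𝓝 (Real.sqrt 0)) :=
      (Real.continuous_sqrt.tendsto 0).comp h1
    simp only [Real.sqrt_sq_eq_abs, Real.sqrt_zero] at h4
    exact (tendsto_zero_iff_abs_tendsto_zero _).2 h4
  have h5 : Tendsto (fun k => RR (AN a (M k)) (s / (M k : ℝ)) α) atTop (𝓝 (2 * s)) := by
    have h6 := (h3.add h2).add_const (2 * s)
    rw [add_zero, zero_add] at h6
    refine h6.congr fun k => ?_
    rw [RR_eq (AN a (M k)) (rhoN (AN a (M k))) (Zk k) _ (hN₀ (M k) (hMN k)).2.1 α]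
    ring
  exact (tendsto_add_atTop_iff_nat (f := fun k : ℕ => RR (AN a (Nk θ k)) (s / (Nk θ k : ℝ)) α) k₀).1 h5

/-- Count of close pairs, as a sum over pairs of values. -/
noncomputable def uu (a : ℕ → ℕ) (α : ℝ) (N : ℕ) (t : ℝ) : ℝ :=
  2 * ∑ p ∈ upairs (AN a N), chi (p.1 - p.2) t (fun _ => True) α

lemma uu_nonneg (a : ℕ → ℕ) (α : ℝ) (N : ℕ) (t : ℝ) : 0 ≤ uu a α N t := by
  unfold uu
  exact mul_nonneg (by norm_num) (Finset.sum_nonneg fun p _ => chi_nonneg _ _ _ _)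

lemma uu_mono_left (a : ℕ → ℕ) (α : ℝ) (N N' : ℕ) (h : N ≤ N') (t : ℝ) :
    uu a α N t ≤ uu a α N' t := by
  unfold uu
  refine mul_le_mul_of_nonneg_left ?_ (by norm_num)
  refine Finset.sum_le_sum_of_subset_of_nonneg ?_ (fun p _ _ => chi_nonneg _ _ _ _)
  intro p hp
  rw [mem_upairs] at hp ⊢
  have hsub : AN a N ⊆ AN a N' := Finset.image_subset_image (Finset.range_subset_range.2 h)
  exact ⟨⟨hsub hp.1.1, hsub hp.1.2⟩, hp.2⟩

lemma uu_mono_right (a : ℕ → ℕ) (α : ℝ) (N : ℕ) : Monotone (uu a α N) := by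
  intro t t' h
  unfold uu
  refine mul_le_mul_of_nonneg_left ?_ (by norm_num)
  refine Finset.sum_le_sum fun p _ => ?_
  unfold chi
  refine Set.indicator_le_indicator_of_subset ?_ (fun _ => zero_le_one) α
  rintro x ⟨z, hz, _⟩
  exact ⟨z, lt_of_lt_of_le hz h, trivial⟩

lemma uu_eq (a : ℕ → ℕ) (ha : StrictMono a) (α : ℝ) (N : ℕ) (t : ℝ) :
    uu a α N t / N = RR (AN a N) t α := by
  unfold uu RR
  rw [card_AN a ha N, sum_rr_mul (AN a N) (fun v => chi v t (fun _ => True) α)]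
  ring

/-- The distance condition of the statement in terms of hit sets. -/
lemma cond_iff (x y : ℝ) (t : ℝ) :
    |(Int.fract x - Int.fract y) - ((round (Int.fract x - Int.fract y) : ℤ) : ℝ)| < t ↔
      ∃ z : ℤ, |(x - y) - z| < t := by
  constructor
  · intro h
    refine ⟨round (Int.fract x - Int.fract y) + (⌊x⌋ - ⌊y⌋), ?_⟩
    have e : (x - y) - ((round (Int.fract x - Int.fract y) + (⌊x⌋ - ⌊y⌋) : ℤ) : ℝ) =
        (Int.fract x - Int.fract y) - ((round (Int.fract x - Int.fract y) : ℤ) : ℝ) := by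
      unfold Int.fract
      push_cast
      ring
    rw [e]; exact h
  · rintro ⟨z, hz⟩
    refine lt_of_le_of_lt (round_le (Int.fract x - Int.fract y) (z - (⌊x⌋ - ⌊y⌋))) ?_
    have e : (Int.fract x - Int.fract y) - ((z - (⌊x⌋ - ⌊y⌋) : ℤ) : ℝ) = (x - y) - z := by
      unfold Int.fract
      push_cast
      ring
    rw [e]; exact hz

lemma cond_symm (x y : ℝ) (t : ℝ) : (∃ z : ℤ, |(x - y) - z| < t) ↔ ∃ z : ℤ, |(y - x) - z| < t := by
  have aux : ∀ x y : ℝ, (∃ z : ℤ, |(x - y) - z| < t) → ∃ z : ℤ, |(y - x) - z| < t := by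
    rintro x y ⟨z, hz⟩
    refine ⟨-z, ?_⟩
    have e : (y - x) - ((-z : ℤ) : ℝ) = -((x - y) - z) := by push_cast; ring
    rw [e, abs_neg]; exact hz
  exact ⟨aux x y, aux y x⟩

lemma card_eq_uu (a : ℕ → ℕ) (ha : StrictMono a) (α : ℝ) (N : ℕ) (t : ℝ) :
    (((Finset.range N ×ˢ Finset.range N).filter (fun p : ℕ × ℕ => p.1 ≠ p.2 ∧
      |(Int.fract ((a p.1 : ℝ) * α) - Int.fract ((a p.2 : ℝ) * α))
        - ((round (Int.fract ((a p.1 : ℝ) * α) - Int.fract ((a p.2 : ℝ) * α)) : ℤ) : ℝ)|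
          < t)).card : ℝ) = uu a α N t := by
  classical
  set Q : ℕ × ℕ → Prop := fun p => ∃ z : ℤ, |((a p.1 : ℝ) * α - (a p.2 : ℝ) * α) - z| < t with hQ
  have h1 : (Finset.range N ×ˢ Finset.range N).filter (fun p : ℕ × ℕ => p.1 ≠ p.2 ∧
      |(Int.fract ((a p.1 : ℝ) * α) - Int.fract ((a p.2 : ℝ) * α))
        - ((round (Int.fract ((a p.1 : ℝ) * α) - Int.fract ((a p.2 : ℝ) * α)) : ℤ) : ℝ)| < t) =
      (Finset.range N ×ˢ Finset.range N).filter (fun p : ℕ × ℕ => p.2 < p.1 ∧ Q p) ∪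
      ((Finset.range N ×ˢ Finset.range N).filter (fun p : ℕ × ℕ => p.2 < p.1 ∧ Q p)).image
        Prod.swap := by
    ext p
    rw [Finset.mem_union, Finset.mem_image, Finset.mem_filter, Finset.mem_filter, cond_iff]
    constructor
    · rintro ⟨h1, h2, h3⟩
      rw [Finset.mem_product] at h1
      rcases lt_or_gt_of_ne h2 with h | h
      · right
        refine ⟨(p.2, p.1), ?_, rfl⟩
        rw [Finset.mem_filter, Finset.mem_product]
        exact ⟨⟨h1.2, h1.1⟩, h, (cond_symm _ _ t).1 h3⟩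
      · left
        exact ⟨Finset.mem_product.2 h1, h, h3⟩
    · rintro (⟨h1, h2, h3⟩ | ⟨p', hp', rfl⟩)
      · exact ⟨h1, by omega, h3⟩
      · rw [Finset.mem_filter, Finset.mem_product] at hp'
        obtain ⟨h1, h2, h3⟩ := hp'
        rw [Finset.mem_product]
        refine ⟨⟨h1.2, h1.1⟩, ?_, (cond_symm _ _ t).1 h3⟩
        simp only [Prod.fst_swap, Prod.snd_swap]
        omega
  have h2 : Disjoint ((Finset.range N ×ˢ Finset.range N).filter
      (fun p : ℕ × ℕ => p.2 < p.1 ∧ Q p))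
      (((Finset.range N ×ˢ Finset.range N).filter
      (fun p : ℕ × ℕ => p.2 < p.1 ∧ Q p)).image Prod.swap) := by
    rw [Finset.disjoint_left]
    intro p hp hp'
    rw [Finset.mem_image] at hp'
    obtain ⟨p', hp', rfl⟩ := hp'
    rw [Finset.mem_filter] at hp hp'
    have e1 := hp.2.1
    have e2 := hp'.2.1
    simp only [Prod.fst_swap, Prod.snd_swap] at e1
    omega
  rw [h1, Finset.card_union_of_disjoint h2, Finset.card_image_of_injective _ Prod.swap_injective]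
  unfold uu
  have h3 : (((Finset.range N ×ˢ Finset.range N).filter
      (fun p : ℕ × ℕ => p.2 < p.1 ∧ Q p)).card : ℝ) =
      ∑ p ∈ upairs (AN a N), chi (p.1 - p.2) t (fun _ => True) α := by
    have h4 : ∑ p ∈ upairs (AN a N), chi (p.1 - p.2) t (fun _ => True) α =
        (((upairs (AN a N)).filter (fun p => α ∈ hitSet (p.1 - p.2) t (fun _ => True))).card : ℝ) := by
      rw [Finset.card_filter]
      push_cast
      refine Finset.sum_congr rfl fun p _ => ?_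
      unfold chi
      by_cases h : α ∈ hitSet (p.1 - p.2) t (fun _ => True)
      · rw [Set.indicator_of_mem h, if_pos h]
      · rw [Set.indicator_of_notMem h, if_neg h]
    rw [h4]
    congr 1
    refine Finset.card_bij (fun p _ => (a p.1, a p.2)) ?_ ?_ ?_
    · intro p hp
      rw [Finset.mem_filter, Finset.mem_product] at hp
      obtain ⟨⟨h5, h6⟩, h7, z, hz⟩ := hp
      rw [Finset.mem_filter, mem_upairs]
      have h8 : a p.2 < a p.1 := ha h7
      refine ⟨⟨⟨Finset.mem_image_of_mem _ h5, Finset.mem_image_of_mem _ h6⟩, h8⟩, z, ?_, trivial⟩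
      simp only
      rw [Nat.cast_sub h8.le, sub_mul]
      exact hz
    · intro p _ p' _ h
      simp only [Prod.mk.injEq] at h
      exact Prod.ext (ha.injective h.1) (ha.injective h.2)
    · intro p hp
      rw [Finset.mem_filter, mem_upairs] at hp
      obtain ⟨⟨⟨h5, h6⟩, h7⟩, z, hz, _⟩ := hp
      unfold AN at h5 h6
      rw [Finset.mem_image] at h5 h6
      obtain ⟨i, hi, hi2⟩ := h5
      obtain ⟨j, hj, hj2⟩ := h6
      refine ⟨(i, j), ?_, Prod.ext hi2 hj2⟩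
      rw [Finset.mem_filter, Finset.mem_product]
      refine ⟨⟨hi, hj⟩, ?_, z, ?_⟩
      · rw [← hi2, ← hj2] at h7
        exact ha.lt_iff_lt.1 h7
      · simp only
        rw [hi2, hj2, ← sub_mul, ← Nat.cast_sub h7.le]
        exact hz
  rw [← h3]
  push_cast
  ring

lemma RR_periodic (A : Finset ℕ) (δ : ℝ) : Function.Periodic (RR A δ) 1 := by
  intro α
  unfold RR
  congr 1
  refine Finset.sum_congr rfl fun v _ => ?_
  rw [chi_periodic v δ (fun _ => True) (fun _ _ => Iff.rfl) α]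

/-- **The Bloom–Walker conjecture.** -/
theorem main (C : ℝ) (hC : 1 < C) (a : ℕ → ℕ) (ha : StrictMono a)
    (hE : (fun N : ℕ => (EN a N : ℝ)) =O[atTop] (fun N : ℕ => (N : ℝ) ^ 3 / Real.log (N : ℝ) ^ C)) :
    ∀ᵐ α ∂(volume : Measure ℝ), ∀ s : ℝ, 0 < s →
      Tendsto (fun N : ℕ => uu a α N (s / N) / N) atTop (𝓝 (2 * s)) := by
  set P : ℝ → Prop := fun α => ∀ m : ℕ, ∀ q : ℚ, 0 < q → Tendsto (fun k : ℕ =>
    RR (AN a (Nk (1 + 1 / ((m : ℝ) + 1)) k)) ((q : ℝ) / (Nk (1 + 1 / ((m : ℝ) + 1)) k : ℝ)) α)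
      atTop (𝓝 (2 * q)) with hP
  have h1 : ∀ᵐ α ∂(volume.restrict (Set.Ioc (0 : ℝ) 1)), P α := by
    rw [ae_all_iff]
    intro m
    rw [ae_all_iff]
    intro q
    by_cases hq : 0 < q
    · have hθ : (1 : ℝ) < 1 + 1 / ((m : ℝ) + 1) := by
        have : (0 : ℝ) < 1 / ((m : ℝ) + 1) := by positivity
        linarith
      filter_upwards [ae_subseq a ha C hC hE _ hθ q (by exact_mod_cast hq)] with α h _
      exact h
    · exact Filter.Eventually.of_forall fun α h => absurd h hq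
  have h2 : ∀ᵐ α ∂(volume : Measure ℝ), α ∈ Set.Ioc (0 : ℝ) 1 → P α :=
    (ae_restrict_iff' measurableSet_Ioc).1 h1
  have h3 : ∀ᵐ α ∂(volume : Measure ℝ), ∀ n : ℤ, α - (n : ℝ) ∈ Set.Ioc (0 : ℝ) 1 → P (α - (n : ℝ)) := by
    rw [ae_all_iff]
    intro n
    exact (measurePreserving_sub_right volume (n : ℝ)).quasiMeasurePreserving.ae h2
  filter_upwards [h3] with α hα
  have h4 : P α := by
    have h5 : α - ((⌈α⌉ - 1 : ℤ) : ℝ) ∈ Set.Ioc (0 : ℝ) 1 := by
      push_cast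
      constructor
      · linarith [Int.ceil_lt_add_one α]
      · linarith [Int.le_ceil α]
    have h6 := hα _ h5
    intro m q hq
    refine (h6 m q hq).congr fun k => ?_
    have h7 := (RR_periodic (AN a (Nk (1 + 1 / ((m : ℝ) + 1)) k))
      ((q : ℝ) / (Nk (1 + 1 / ((m : ℝ) + 1)) k : ℝ))).sub_zsmul_eq (x := α) (⌈α⌉ - 1)
    rw [zsmul_one] at h7
    exact h7
  intro s hs
  apply interp (uu a α) (uu_nonneg a α) (uu_mono_left a α) (uu_mono_right a α) _ s hs
  intro m q hq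
  refine (h4 m q hq).congr fun k => ?_
  rw [uu_eq a ha]

end Pool.Agent.Helper29.PPC
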