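import Mathlib
import Pool.Agent.Helper29.PpcFinal

set_option autoImplicit false

open Finset MeasureTheory Filter Topology

namespace Pool.Agent.Helper29.PPC

/-- All error terms, for one value of `s`, for every finite set of naturals. -/
theorem errorsA (C C₀ : ℝ) (hC : 1 < C) :
    ∃ c η : ℝ, 0 < c ∧ 0 < η ∧ ∀ s : ℝ, 0 < s → ∃ (C' : ℝ) (N₀ : ℕ), 0 ≤ C' ∧ ∀ N : ℕ, N₀ ≤ N →
      ∀ A : Finset ℕ, A.card = N →
      ∑ v ∈ Df A, (rr A v : ℝ) ^ 2 ≤ |C₀| * ((N : ℝ) ^ 3 / Real.log (N : ℝ) ^ C) →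
      2 ≤ N ∧ s / N ≤ 1 / 2 ∧
      ∫ α in (0 : ℝ)..1, (ff A (rhoN A) ⌈Real.exp (Real.log N ^ c)⌉₊ (s / N) α -
        2 * s) ^ 2 ≤ C' * Real.log N ^ (-(1 + η)) ∧
      ∫ α in (0 : ℝ)..1, hh A (rhoN A) ⌈Real.exp (Real.log N ^ c)⌉₊ (s / N) α ≤
        C' * Real.log N ^ (-(1 + η)) := by
  obtain ⟨c, η, C₄, hc0, hc1, hη0, hη1, hC₄, hmain⟩ := main_range C |C₀| hC (abs_nonneg _)
  obtain ⟨x₀, hx1, hbad⟩ := bad_fraction c hc0 hc1
  refine ⟨c, η, hc0, hη0, ?_⟩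
  intro s hs
  -- eventual conditions
  have hlog : Tendsto (fun N : ℕ => Real.log (N : ℝ)) atTop atTop :=
    Real.tendsto_log_atTop.comp tendsto_natCast_atTop_atTop
  have hev : ∀ᶠ N : ℕ in atTop,
      x₀ ≤ Real.log (N : ℝ) ∧ 2 ≤ N ∧ 2 * s ≤ (N : ℝ) :=
    ((hlog.eventually_ge_atTop x₀).and ((eventually_ge_atTop 2).and
      (tendsto_natCast_atTop_atTop.eventually_ge_atTop (2 * s))))
  obtain ⟨N₀, hN₀⟩ := eventually_atTop.1 hev
  refine ⟨8 * s * C₄ + 52 * s + 24 * s ^ 2 + 2 * s, N₀, by positivity, ?_⟩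
  intro N hN A hcard h1
  obtain ⟨h2, h3, h4⟩ := hN₀ N hN
  have hl : 1 ≤ Real.log (N : ℝ) := hx1.trans h2
  set l := Real.log (N : ℝ) with hldef
  have hl0 : 0 < l := by linarith
  have hN0 : (0 : ℝ) < N := by
    have : 0 < N := by omega
    exact_mod_cast this
  have hApos : 0 < A.card := by rw [hcard]; omega
  have hδ : s / N ≤ 1 / 2 := by
    rw [div_le_iff₀ hN0]; linarith
  refine ⟨h3, hδ, ?_⟩
  have hE2 : ∑ v ∈ Df A, (rr A v : ℝ) ^ 2 ≤ |C₀| * (A.card : ℝ) ^ 3 / Real.log A.card ^ C := by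
    rw [hcard]
    calc _ ≤ _ := h1
      _ = _ := by ring
  have hlA : 1 ≤ Real.log A.card := by rw [hcard]; exact hl
  have g1 := hmain A hlA hE2
  have g2 := low_range A hlA
  have g3 := hbad A (by rw [hcard]; exact h2)
  rw [hcard] at g1 g2 g3
  -- comparison of powers
  have p2 : l ^ (-2 : ℝ) ≤ l ^ (-(1 + η)) := Real.rpow_le_rpow_of_exponent_le hl (by linarith)
  have p1 : (1 + 2 * l) ^ (-2 : ℤ) ≤ l ^ (-(1 + η)) := by
    refine le_trans ?_ p2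
    have e : l ^ (-2 : ℝ) = l ^ (-2 : ℤ) := by
      rw [← Real.rpow_intCast]; norm_num
    rw [e, zpow_neg, zpow_neg]
    apply inv_anti₀ (by positivity)
    have : l ≤ 1 + 2 * l := by linarith
    norm_cast
    gcongr
  have p3 : 1 / (N : ℝ) ≤ 2 * l ^ (-(1 + η)) := by
    have e1 : l ^ 2 / 2 ≤ N := by
      have := Real.quadratic_le_exp_of_nonneg hl0.le
      rw [hldef, Real.exp_log hN0] at this
      rw [hldef] at hl0 ⊢
      linarith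
    have e2 : 1 / (N : ℝ) ≤ 2 * l ^ (-2 : ℝ) := by
      have e : l ^ (-2 : ℝ) = (l ^ 2)⁻¹ := by
        rw [Real.rpow_neg hl0.le]; norm_num
      rw [e, div_le_iff₀ hN0]
      have hl2 : (0 : ℝ) < l ^ 2 := by positivity
      calc (1 : ℝ) = 2 * (l ^ 2)⁻¹ * (l ^ 2 / 2) := by field_simp
        _ ≤ 2 * (l ^ 2)⁻¹ * N := by gcongr
    linarith
  set η' := l ^ (-(1 + η)) with hη'
  have hη'0 : 0 ≤ η' := by positivity
  have q1 := integral_hh_le A (rhoN A) ⌈Real.exp (l ^ c)⌉₊ s hs hApos (by rw [hcard]; exact hδ)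
    (l ^ (-2 : ℝ)) (by positivity) g3
  rw [hcard] at q1
  have q2 := variance_le A (rhoN A) ⌈Real.exp (l ^ c)⌉₊ s hs hApos (by rw [hcard]; exact hδ)
  rw [hcard] at q2
  have q3 := aliveSum_le A (rhoN A) ⌈Real.exp (l ^ c)⌉₊ hApos
  rw [hcard] at q3
  have q1' : ∫ α in (0 : ℝ)..1, hh A (rhoN A) ⌈Real.exp (l ^ c)⌉₊ (s / N) α ≤ 2 * s * η' := by
    refine q1.trans ?_
    gcongr
  constructor
  · refine q2.trans ?_
    have q4 : aliveSum A (rhoN A) ⌈Real.exp (l ^ c)⌉₊ ≤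
        C₄ * (N : ℝ) ^ 3 * η' + 6 * (N : ℝ) ^ 3 * η' + (N : ℝ) ^ 2 / 4 := by
      refine q3.trans ?_
      have g2' : gcdSum (N ^ 2) (Df A) (rlow A (rhoN A)) (fun v => (rr A v : ℝ)) ≤
          3 * (N : ℝ) ^ 3 * η' := g2.trans (by gcongr)
      linarith
    have q5 : 8 * s / (N : ℝ) ^ 3 * aliveSum A (rhoN A) ⌈Real.exp (l ^ c)⌉₊ ≤
        8 * s * C₄ * η' + 48 * s * η' + 2 * s * (1 / N) := by
      calc 8 * s / (N : ℝ) ^ 3 * aliveSum A (rhoN A) ⌈Real.exp (l ^ c)⌉₊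
          ≤ 8 * s / (N : ℝ) ^ 3 * (C₄ * (N : ℝ) ^ 3 * η' + 6 * (N : ℝ) ^ 3 * η' + (N : ℝ) ^ 2 / 4) := by
            gcongr
        _ = _ := by field_simp; ring
    have q6 : 8 * s ^ 2 / (N : ℝ) ≤ 16 * s ^ 2 * η' := by
      calc 8 * s ^ 2 / (N : ℝ) = 8 * s ^ 2 * (1 / N) := by ring
        _ ≤ 8 * s ^ 2 * (2 * η') := by gcongr
        _ = _ := by ring
    have q7 : 4 * s * ∫ α in (0 : ℝ)..1, hh A (rhoN A) ⌈Real.exp (l ^ c)⌉₊ (s / N) α ≤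
        8 * s ^ 2 * η' := by
      calc _ ≤ 4 * s * (2 * s * η') := by gcongr
        _ = _ := by ring
    have q8 : 2 * s * (1 / (N : ℝ)) ≤ 4 * s * η' := by
      calc 2 * s * (1 / (N : ℝ)) ≤ 2 * s * (2 * η') := by gcongr
        _ = _ := by ring
    have q9 : 0 ≤ s * η' := by positivity
    nlinarith
  · refine q1'.trans ?_
    have : 0 ≤ 8 * s * C₄ + 52 * s + 24 * s ^ 2 := by positivity
    nlinarith

/-- Almost sure convergence along the subsequence `⌈θ^k⌉`. -/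
theorem ae_subseqA (B : ℕ → Finset ℕ) (hB : ∀ N, (B N).card = N) (C C₀ : ℝ) (hC : 1 < C)
    (hE : ∀ᶠ N : ℕ in atTop, ∑ v ∈ Df (B N), (rr (B N) v : ℝ) ^ 2 ≤
      |C₀| * ((N : ℝ) ^ 3 / Real.log (N : ℝ) ^ C))
    (θ : ℝ) (hθ : 1 < θ) (s : ℝ) (hs : 0 < s) :
    ∀ᵐ α ∂(volume.restrict (Set.Ioc (0 : ℝ) 1)),
      Tendsto (fun k : ℕ => RR (B (Nk θ k)) (s / (Nk θ k : ℝ)) α) atTop (𝓝 (2 * s)) := by
  obtain ⟨c, η, hc0, hη0, herr⟩ := errorsA C C₀ hC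
  obtain ⟨C', N₁, hC'0, hN₁⟩ := herr s hs
  obtain ⟨N₂, hN₂⟩ := eventually_atTop.1 hE
  set N₀ := max N₁ N₂ with hN₀def
  have hN₀ : ∀ N : ℕ, N₀ ≤ N → 2 ≤ N ∧ s / N ≤ 1 / 2 ∧
      ∫ α in (0 : ℝ)..1, (ff (B N) (rhoN (B N)) ⌈Real.exp (Real.log N ^ c)⌉₊ (s / N) α -
        2 * s) ^ 2 ≤ C' * Real.log N ^ (-(1 + η)) ∧
      ∫ α in (0 : ℝ)..1, hh (B N) (rhoN (B N)) ⌈Real.exp (Real.log N ^ c)⌉₊ (s / N) α ≤
        C' * Real.log N ^ (-(1 + η)) := fun N hN =>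
    hN₁ N ((le_max_left _ _).trans hN) (B N) (hB N) (hN₂ N ((le_max_right _ _).trans hN))
  obtain ⟨k₁, hk₁⟩ := eventually_atTop.1 ((Nk_tendsto θ hθ).eventually_ge_atTop N₀)
  set k₀ := k₁ + 1 with hk₀
  set M : ℕ → ℕ := fun k => Nk θ (k + k₀) with hM
  have hMN : ∀ k, N₀ ≤ M k := fun k => hk₁ _ (by omega)
  set Zk : ℕ → ℕ := fun k => ⌈Real.exp (Real.log (M k) ^ c)⌉₊ with hZk
  set b : ℕ → ℝ := fun k => C' * (((k + k₀ : ℕ) : ℝ) * Real.log θ) ^ (-(1 + η)) with hb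
  have hlogθ : 0 < Real.log θ := Real.log_pos hθ
  have hbsum : Summable b := by
    have h1 : Summable (fun n : ℕ => (n : ℝ) ^ (-(1 + η))) :=
      Real.summable_nat_rpow.2 (by linarith)
    have h2 : Summable (fun n : ℕ => ((n + k₀ : ℕ) : ℝ) ^ (-(1 + η))) :=
      (summable_nat_add_iff k₀).2 h1
    have h3 : b = fun n : ℕ => (C' * (Real.log θ) ^ (-(1 + η))) * ((n + k₀ : ℕ) : ℝ) ^ (-(1 + η)) := by
      ext n
      simp only [hb]
      rw [Real.mul_rpow (Nat.cast_nonneg _) hlogθ.le]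
      ring
    rw [h3]
    exact h2.mul_left _
  have hlogM : ∀ k, C' * Real.log (M k) ^ (-(1 + η)) ≤ b k := by
    intro k
    simp only [hb]
    refine mul_le_mul_of_nonneg_left ?_ hC'0
    have h1 : ((k + k₀ : ℕ) : ℝ) * Real.log θ ≤ Real.log (M k) := by
      rw [← Real.log_pow]
      exact Real.log_le_log (by positivity) (Nk_ge θ _)
    have h2 : 0 < ((k + k₀ : ℕ) : ℝ) * Real.log θ := by
      have : 0 < k + k₀ := by omega
      positivity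
    exact Real.rpow_le_rpow_of_nonpos h2 h1 (by linarith)
  have hf := ae_tendsto_zero
    (fun k α => (ff (B (M k)) (rhoN (B (M k))) (Zk k) (s / (M k : ℝ)) α - 2 * s) ^ 2)
    (fun k => ((measurable_ff _ _ _ _).sub_const _).pow_const 2)
    (fun k x => sq_nonneg _)
    (fun k => ff_sub_sq_intervalIntegrable _ _ _ _ _ 0 1) b hbsum
    (fun k => ((hN₀ (M k) (hMN k)).2.2.1).trans (hlogM k))
  have hh' := ae_tendsto_zero
    (fun k α => hh (B (M k)) (rhoN (B (M k))) (Zk k) (s / (M k : ℝ)) α)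
    (fun k => measurable_hh _ _ _ _)
    (fun k x => hh_nonneg _ _ _ _ _)
    (fun k => hh_intervalIntegrable _ _ _ _ 0 1) b hbsum
    (fun k => ((hN₀ (M k) (hMN k)).2.2.2).trans (hlogM k))
  filter_upwards [hf, hh'] with α h1 h2
  have h3 : Tendsto (fun k => ff (B (M k)) (rhoN (B (M k))) (Zk k) (s / (M k : ℝ)) α - 2 * s)
      atTop (𝓝 0) := by
    have h4 : Tendsto (fun k => Real.sqrt ((ff (B (M k)) (rhoN (B (M k))) (Zk k)
        (s / (M k : ℝ)) α - 2 * s) ^ 2)) atTop (𝓝 (Real.sqrt 0)) :=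
      (Real.continuous_sqrt.tendsto 0).comp h1
    simp only [Real.sqrt_sq_eq_abs, Real.sqrt_zero] at h4
    exact (tendsto_zero_iff_abs_tendsto_zero _).2 h4
  have h5 : Tendsto (fun k => RR (B (M k)) (s / (M k : ℝ)) α) atTop (𝓝 (2 * s)) := by
    have h6 := (h3.add h2).add_const (2 * s)
    rw [add_zero, zero_add] at h6
    refine h6.congr fun k => ?_
    rw [RR_eq (B (M k)) (rhoN (B (M k))) (Zk k) _ (hN₀ (M k) (hMN k)).2.1 α]
    ring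
  exact (tendsto_add_atTop_iff_nat (f := fun k : ℕ => RR (B (Nk θ k)) (s / (Nk θ k : ℝ)) α) k₀).1 h5

end Pool.Agent.Helper29.PPC
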