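import Mathlib
import Pool.Agent.Helper29.PpcInjA

set_option autoImplicit false

open Finset MeasureTheory Filter Topology

namespace Pool.Agent.Helper29.PPC

/-- The additive energy of the first `N` terms of an integer sequence, counted on indices. -/
def ENz (a : ℕ → ℤ) (N : ℕ) : ℕ :=
  (((Finset.range N ×ˢ Finset.range N) ×ˢ (Finset.range N ×ˢ Finset.range N)).filter
    (fun p : (ℕ × ℕ) × (ℕ × ℕ) => a p.1.1 + a p.1.2 = a p.2.1 + a p.2.2)).card

/-- A shift making the first `N` terms nonnegative. -/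
def sh (a : ℕ → ℤ) (N : ℕ) : ℕ := ∑ i ∈ Finset.range N, (a i).natAbs

/-- The shifted sequence. -/
def sb (a : ℕ → ℤ) (N : ℕ) (i : ℕ) : ℕ := (a i + (sh a N : ℤ)).toNat

lemma sb_cast (a : ℕ → ℤ) (N i : ℕ) (hi : i < N) : (sb a N i : ℤ) = a i + (sh a N : ℤ) := by
  unfold sb
  have h1 : (a i).natAbs ≤ sh a N :=
    Finset.single_le_sum (f := fun i => (a i).natAbs) (fun _ _ => Nat.zero_le _)
      (Finset.mem_range.2 hi)
  rw [Int.toNat_of_nonneg]
  omega

lemma card_AN_sb (a : ℕ → ℤ) (ha : Function.Injective a) (N : ℕ) : (AN (sb a N) N).card = N := by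
  unfold AN
  rw [Finset.card_image_of_injOn, Finset.card_range]
  intro i hi j hj hij
  rw [Finset.mem_coe, Finset.mem_range] at hi hj
  have h1 := sb_cast a N i hi
  have h2 := sb_cast a N j hj
  rw [hij] at h1
  exact ha (by linarith)

lemma EN_sb (a : ℕ → ℤ) (N : ℕ) : EN (sb a N) N = ENz a N := by
  unfold EN ENz
  congr 1
  apply Finset.filter_congr
  intro p hp
  rw [Finset.mem_product, Finset.mem_product, Finset.mem_product, Finset.mem_range,
    Finset.mem_range, Finset.mem_range, Finset.mem_range] at hp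
  have h1 := sb_cast a N _ hp.1.1
  have h2 := sb_cast a N _ hp.1.2
  have h3 := sb_cast a N _ hp.2.1
  have h4 := sb_cast a N _ hp.2.2
  constructor
  · intro h
    have h5 : (sb a N p.1.1 : ℤ) + sb a N p.1.2 = sb a N p.2.1 + sb a N p.2.2 := by exact_mod_cast h
    rw [h1, h2, h3, h4] at h5
    linarith
  · intro h
    have h5 : (sb a N p.1.1 : ℤ) + sb a N p.1.2 = sb a N p.2.1 + sb a N p.2.2 := by
      rw [h1, h2, h3, h4]; linarith
    exact_mod_cast h5

open scoped Classical in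
/-- Number of ordered close pairs of indices. -/
noncomputable def cnt (a : ℕ → ℤ) (α : ℝ) (N : ℕ) (t : ℝ) : ℝ :=
  (((Finset.range N ×ˢ Finset.range N).filter (fun p : ℕ × ℕ => p.1 ≠ p.2 ∧
    ∃ z : ℤ, |((a p.1 : ℝ) * α - (a p.2 : ℝ) * α) - z| < t)).card : ℝ)

lemma cnt_nonneg (a : ℕ → ℤ) (α : ℝ) (N : ℕ) (t : ℝ) : 0 ≤ cnt a α N t := by
  unfold cnt
  exact Nat.cast_nonneg _

lemma cnt_mono_left (a : ℕ → ℤ) (α : ℝ) (N N' : ℕ) (h : N ≤ N') (t : ℝ) :
    cnt a α N t ≤ cnt a α N' t := by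
  classical
  unfold cnt
  refine Nat.cast_le.2 (Finset.card_le_card ?_)
  intro p hp
  rw [Finset.mem_filter, Finset.mem_product, Finset.mem_range, Finset.mem_range] at hp ⊢
  exact ⟨⟨lt_of_lt_of_le hp.1.1 h, lt_of_lt_of_le hp.1.2 h⟩, hp.2⟩

lemma cnt_mono_right (a : ℕ → ℤ) (α : ℝ) (N : ℕ) : Monotone (cnt a α N) := by
  intro t t' h
  classical
  unfold cnt
  refine Nat.cast_le.2 (Finset.card_le_card ?_)
  intro p hp
  rw [Finset.mem_filter] at hp ⊢
  obtain ⟨h1, h2, z, hz⟩ := hp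
  exact ⟨h1, h2, z, lt_of_lt_of_le hz h⟩

lemma cnt_eq (a : ℕ → ℤ) (ha : Function.Injective a) (α : ℝ) (N : ℕ) (t : ℝ) :
    cnt a α N t = 2 * ∑ p ∈ upairs (AN (sb a N) N), chi (p.1 - p.2) t (fun _ => True) α := by
  classical
  set Q : ℕ × ℕ → Prop := fun p => ∃ z : ℤ, |((a p.1 : ℝ) * α - (a p.2 : ℝ) * α) - z| < t with hQ
  have hinj : ∀ i j, i < N → j < N → sb a N i = sb a N j → i = j := by
    intro i j hi hj hij
    have h1 := sb_cast a N i hi
    have h2 := sb_cast a N j hj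
    rw [hij] at h1
    exact ha (by linarith)
  have h1 : (Finset.range N ×ˢ Finset.range N).filter (fun p : ℕ × ℕ => p.1 ≠ p.2 ∧ Q p) =
      (Finset.range N ×ˢ Finset.range N).filter
        (fun p : ℕ × ℕ => sb a N p.2 < sb a N p.1 ∧ Q p) ∪
      ((Finset.range N ×ˢ Finset.range N).filter
        (fun p : ℕ × ℕ => sb a N p.2 < sb a N p.1 ∧ Q p)).image Prod.swap := by
    ext p
    rw [Finset.mem_union, Finset.mem_image, Finset.mem_filter, Finset.mem_filter]
    constructor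
    · rintro ⟨h1, h2, h3⟩
      rw [Finset.mem_product, Finset.mem_range, Finset.mem_range] at h1
      have h4 : sb a N p.1 ≠ sb a N p.2 := fun h => h2 (hinj _ _ h1.1 h1.2 h)
      rcases lt_or_gt_of_ne h4 with h | h
      · right
        refine ⟨(p.2, p.1), ?_, rfl⟩
        rw [Finset.mem_filter, Finset.mem_product, Finset.mem_range, Finset.mem_range]
        exact ⟨⟨h1.2, h1.1⟩, h, (cond_symm _ _ t).1 h3⟩
      · left
        exact ⟨Finset.mem_product.2 ⟨Finset.mem_range.2 h1.1, Finset.mem_range.2 h1.2⟩, h, h3⟩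
    · rintro (⟨h1, h2, h3⟩ | ⟨p', hp', rfl⟩)
      · refine ⟨h1, ?_, h3⟩
        intro h
        rw [h] at h2
        exact lt_irrefl _ h2
      · rw [Finset.mem_filter, Finset.mem_product] at hp'
        obtain ⟨h1, h2, h3⟩ := hp'
        rw [Finset.mem_product]
        refine ⟨⟨h1.2, h1.1⟩, ?_, (cond_symm _ _ t).1 h3⟩
        simp only [Prod.fst_swap, Prod.snd_swap]
        intro h
        rw [h] at h2
        exact lt_irrefl _ h2
  have h2 : Disjoint ((Finset.range N ×ˢ Finset.range N).filter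
      (fun p : ℕ × ℕ => sb a N p.2 < sb a N p.1 ∧ Q p))
      (((Finset.range N ×ˢ Finset.range N).filter
      (fun p : ℕ × ℕ => sb a N p.2 < sb a N p.1 ∧ Q p)).image Prod.swap) := by
    rw [Finset.disjoint_left]
    intro p hp hp'
    rw [Finset.mem_image] at hp'
    obtain ⟨p', hp', rfl⟩ := hp'
    rw [Finset.mem_filter] at hp hp'
    have e1 := hp.2.1
    have e2 := hp'.2.1
    simp only [Prod.fst_swap, Prod.snd_swap] at e1
    exact lt_asymm e1 e2
  have h0 : cnt a α N t =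
      (((Finset.range N ×ˢ Finset.range N).filter (fun p : ℕ × ℕ => p.1 ≠ p.2 ∧ Q p)).card : ℝ) := by
    unfold cnt
    congr 2
  rw [h0, h1, Finset.card_union_of_disjoint h2,
    Finset.card_image_of_injective _ Prod.swap_injective]
  have h3 : (((Finset.range N ×ˢ Finset.range N).filter
      (fun p : ℕ × ℕ => sb a N p.2 < sb a N p.1 ∧ Q p)).card : ℝ) =
      ∑ p ∈ upairs (AN (sb a N) N), chi (p.1 - p.2) t (fun _ => True) α := by
    have h4 : ∑ p ∈ upairs (AN (sb a N) N), chi (p.1 - p.2) t (fun _ => True) α =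
        (((upairs (AN (sb a N) N)).filter
          (fun p => α ∈ hitSet (p.1 - p.2) t (fun _ => True))).card : ℝ) := by
      rw [Finset.card_filter]
      push_cast
      refine Finset.sum_congr rfl fun p _ => ?_
      unfold chi
      by_cases h : α ∈ hitSet (p.1 - p.2) t (fun _ => True)
      · rw [Set.indicator_of_mem h, if_pos h]
      · rw [Set.indicator_of_notMem h, if_neg h]
    rw [h4]
    congr 1
    have hdiff : ∀ i j, i < N → j < N → sb a N j < sb a N i →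
        (((sb a N i - sb a N j : ℕ) : ℝ)) * α = (a i : ℝ) * α - (a j : ℝ) * α := by
      intro i j hi hj hij
      have e1 : ((sb a N i - sb a N j : ℕ) : ℤ) = a i - a j := by
        rw [Nat.cast_sub hij.le, sb_cast a N i hi, sb_cast a N j hj]
        ring
      have e2 : ((sb a N i - sb a N j : ℕ) : ℝ) = (a i : ℝ) - (a j : ℝ) := by
        exact_mod_cast e1
      rw [e2, sub_mul]
    refine Finset.card_bij (fun p _ => (sb a N p.1, sb a N p.2)) ?_ ?_ ?_
    · intro p hp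
      rw [Finset.mem_filter, Finset.mem_product] at hp
      obtain ⟨⟨h5, h6⟩, h7, z, hz⟩ := hp
      rw [Finset.mem_filter, mem_upairs]
      refine ⟨⟨⟨Finset.mem_image_of_mem _ h5, Finset.mem_image_of_mem _ h6⟩, h7⟩, z, ?_, trivial⟩
      simp only
      rw [hdiff _ _ (Finset.mem_range.1 h5) (Finset.mem_range.1 h6) h7]
      exact hz
    · intro p hp p' hp' h
      rw [Finset.mem_filter, Finset.mem_product, Finset.mem_range, Finset.mem_range] at hp hp'
      simp only [Prod.mk.injEq] at h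
      exact Prod.ext (hinj _ _ hp.1.1 hp'.1.1 h.1) (hinj _ _ hp.1.2 hp'.1.2 h.2)
    · intro p hp
      rw [Finset.mem_filter, mem_upairs] at hp
      obtain ⟨⟨⟨h5, h6⟩, h7⟩, z, hz, _⟩ := hp
      unfold AN at h5 h6
      rw [Finset.mem_image] at h5 h6
      obtain ⟨i, hi, hi2⟩ := h5
      obtain ⟨j, hj, hj2⟩ := h6
      refine ⟨(i, j), ?_, Prod.ext hi2 hj2⟩
      rw [Finset.mem_filter, Finset.mem_product]
      rw [← hi2, ← hj2] at h7 hz
      refine ⟨⟨hi, hj⟩, h7, z, ?_⟩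
      simp only
      rw [← hdiff _ _ (Finset.mem_range.1 hi) (Finset.mem_range.1 hj) h7]
      exact hz
  rw [← h3]
  push_cast
  ring

lemma cnt_div (a : ℕ → ℤ) (ha : Function.Injective a) (α : ℝ) (N : ℕ) (t : ℝ) :
    cnt a α N t / N = RR (AN (sb a N) N) t α := by
  rw [cnt_eq a ha]
  unfold RR
  rw [card_AN_sb a ha N, sum_rr_mul (AN (sb a N) N) (fun v => chi v t (fun _ => True) α)]
  ring

/-- The Bloom-Walker conjecture for arbitrary sequences of distinct integers. -/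
theorem mainZ (C : ℝ) (hC : 1 < C) (a : ℕ → ℤ) (ha : Function.Injective a)
    (hE : (fun N : ℕ => (ENz a N : ℝ)) =O[atTop] (fun N : ℕ => (N : ℝ) ^ 3 / Real.log (N : ℝ) ^ C)) :
    ∀ᵐ α ∂(volume : Measure ℝ), ∀ s : ℝ, 0 < s →
      Tendsto (fun N : ℕ => cnt a α N (s / N) / N) atTop (𝓝 (2 * s)) := by
  obtain ⟨C₀, hC₀⟩ := hE.bound
  have hB : ∀ N, (AN (sb a N) N).card = N := card_AN_sb a ha
  have hE' : ∀ᶠ N : ℕ in atTop, ∑ v ∈ Df (AN (sb a N) N), (rr (AN (sb a N) N) v : ℝ) ^ 2 ≤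
      |C₀| * ((N : ℝ) ^ 3 / Real.log (N : ℝ) ^ C) := by
    filter_upwards [hC₀, eventually_ge_atTop 2] with N h1 h2
    have e1 : ∑ v ∈ Df (AN (sb a N) N), (rr (AN (sb a N) N) v : ℝ) ^ 2 ≤ (ENz a N : ℝ) := by
      rw [← EN_sb]
      exact_mod_cast sum_rr_sq_le (sb a N) N
    have hl : 0 ≤ Real.log (N : ℝ) := Real.log_natCast_nonneg N
    have e2 : ‖(N : ℝ) ^ 3 / Real.log (N : ℝ) ^ C‖ = (N : ℝ) ^ 3 / Real.log (N : ℝ) ^ C :=
      Real.norm_of_nonneg (by positivity)
    rw [e2, Real.norm_of_nonneg (Nat.cast_nonneg _)] at h1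
    calc _ ≤ _ := e1
      _ ≤ _ := h1
      _ ≤ |C₀| * ((N : ℝ) ^ 3 / Real.log (N : ℝ) ^ C) :=
          mul_le_mul_of_nonneg_right (le_abs_self _) (by positivity)
  set P : ℝ → Prop := fun α => ∀ m : ℕ, ∀ q : ℚ, 0 < q → Tendsto (fun k : ℕ =>
    RR (AN (sb a (Nk (1 + 1 / ((m : ℝ) + 1)) k)) (Nk (1 + 1 / ((m : ℝ) + 1)) k))
      ((q : ℝ) / (Nk (1 + 1 / ((m : ℝ) + 1)) k : ℝ)) α)
      atTop (𝓝 (2 * q)) with hP
  have h1 : ∀ᵐ α ∂(volume.restrict (Set.Ioc (0 : ℝ) 1)), P α := by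
    rw [ae_all_iff]
    intro m
    rw [ae_all_iff]
    intro q
    by_cases hq : 0 < q
    · have hθ : (1 : ℝ) < 1 + 1 / ((m : ℝ) + 1) := by
        have : (0 : ℝ) < 1 / ((m : ℝ) + 1) := by positivity
        linarith
      filter_upwards [ae_subseqA (fun N => AN (sb a N) N) hB C C₀ hC hE' _ hθ q
        (by exact_mod_cast hq)] with α h _
      exact h
    · exact Filter.Eventually.of_forall fun α h => absurd h hq
  have h2 : ∀ᵐ α ∂(volume : Measure ℝ), α ∈ Set.Ioc (0 : ℝ) 1 → P α :=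
    (ae_restrict_iff' measurableSet_Ioc).1 h1
  have h3 : ∀ᵐ α ∂(volume : Measure ℝ), ∀ n : ℤ, α - (n : ℝ) ∈ Set.Ioc (0 : ℝ) 1 → P (α - (n : ℝ)) := by
    rw [ae_all_iff]
    intro n
    exact (measurePreserving_sub_right volume (n : ℝ)).quasiMeasurePreserving.ae h2
  filter_upwards [h3] with α hα
  have h4 : P α := by
    have h5 : α - ((⌈α⌉ - 1 : ℤ) : ℝ) ∈ Set.Ioc (0 : ℝ) 1 := by
      push_cast
      constructor
      · linarith [Int.ceil_lt_add_one α]
      · linarith [Int.le_ceil α]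
    have h6 := hα _ h5
    intro m q hq
    refine (h6 m q hq).congr fun k => ?_
    have h7 := (RR_periodic (AN (sb a (Nk (1 + 1 / ((m : ℝ) + 1)) k)) (Nk (1 + 1 / ((m : ℝ) + 1)) k))
      ((q : ℝ) / (Nk (1 + 1 / ((m : ℝ) + 1)) k : ℝ))).sub_zsmul_eq (x := α) (⌈α⌉ - 1)
    rw [zsmul_one] at h7
    exact h7
  intro s hs
  apply interp (cnt a α) (cnt_nonneg a α) (cnt_mono_left a α) (cnt_mono_right a α) _ s hs
  intro m q hq
  refine (h4 m q hq).congr fun k => ?_
  rw [cnt_div a ha]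

end Pool.Agent.Helper29.PPC
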